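import Pool.Agent.Lib.MP_ae0f86_nt.Eval

/-!
# MP_ae0f86_nt : constructions used in the proof
-/

open CategoryTheory CategoryTheory.Limits MvPolynomial Opposite MonoidalCategory

universe v u

namespace Pool.Agent.Lib.MP_ae0f86_nt

noncomputable section

attribute [local instance] CategoryTheory.Abelian.hasFiniteBiproducts

section Geometry

variable {k : Type} [Field k]

/-- The pair `(X, Y)`, explicitly. -/
abbrev pr {ι : Type} [Finite ι] {X Y : Set (ι → k)} (hX : IsAlg X) (hY : IsAlg Y) (h : Y ⊆ X) :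
    AffPair k := ⟨ι, inferInstance, X, Y, hX, hY, h⟩

/-- The inclusion `(X, Y) ⟶ (X', Y')` for `X ⊆ X'`, `Y ⊆ Y'` in the same affine space. -/
def inc {ι : Type} [Finite ι] {X Y X' Y' : Set (ι → k)} (hX : IsAlg X) (hY : IsAlg Y)
    (h : Y ⊆ X) (hX' : IsAlg X') (hY' : IsAlg Y') (h' : Y' ⊆ X') (hXX' : X ⊆ X')
    (hYY' : Y ⊆ Y') : pr hX hY h ⟶ pr hX' hY' h' :=
  ⟨fun x => ⟨x.1, hXX' x.2⟩, ⟨fun j => MvPolynomial.X j, fun x j => by simp⟩,
    fun _ hx => hYY' hx⟩

/-- The morphism of pairs given by polynomials `F j`. -/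
def pmap {ι κ : Type} [Finite ι] [Finite κ] {X Y : Set (ι → k)} {X' Y' : Set (κ → k)}
    (hX : IsAlg X) (hY : IsAlg Y) (h : Y ⊆ X) (hX' : IsAlg X') (hY' : IsAlg Y') (h' : Y' ⊆ X')
    (F : κ → MvPolynomial ι k)
    (hFX : ∀ x ∈ X, (fun j => eval x (F j)) ∈ X') (hFY : ∀ x ∈ Y, (fun j => eval x (F j)) ∈ Y') :
    pr hX hY h ⟶ pr hX' hY' h' :=
  ⟨fun x => ⟨fun j => eval x.1 (F j), hFX x.1 x.2⟩, ⟨F, fun _ _ => rfl⟩,
    fun x hx => hFY x.1 hx⟩

/-- The section `x ↦ (x, a)` of the projection `P × A^κ ⟶ P`. -/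
def AffPair.sect (P : AffPair k) (κ : Type) [Finite κ] (a : κ → k) : P ⟶ P.cyl κ :=
  ⟨fun x => ⟨Sum.elim x.1 a, by
      show Sum.elim x.1 a ∘ Sum.inl ∈ P.X
      rw [Sum.elim_comp_inl]; exact x.2⟩,
    ⟨fun j => j.elim (fun i => MvPolynomial.X i) (fun l => MvPolynomial.C (a l)), by
      intro x j
      rcases j with i | l <;> simp⟩,
    fun x hx => by
      show Sum.elim x.1 a ∘ Sum.inl ∈ P.Y
      rw [Sum.elim_comp_inl]; exact hx⟩

/-- `X' = {(x, u, v) | x ∈ B, u v = s(x), e(x) v = v}` in `k^(ι ⊕ Option (Fin m))`, where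
`u` is the coordinate `none` and `v_a` is the coordinate `some a`. -/
def XP {ι : Type} {m : ℕ} (e : Fin m → Fin m → MvPolynomial ι k) (s : Fin m → MvPolynomial ι k)
    (B : Set (ι → k)) : Set (ι ⊕ Option (Fin m) → k) :=
  {z | z ∘ Sum.inl ∈ B ∧
    (∀ a, z (Sum.inr none) * z (Sum.inr (some a)) = eval (z ∘ Sum.inl) (s a)) ∧
    ∀ a, ∑ b, eval (z ∘ Sum.inl) (e a b) * z (Sum.inr (some b)) = z (Sum.inr (some a))}

/-- `P = {(x, u, w) | x ∈ B, u w = 1 or s(x) = 0}` in `k^(ι ⊕ Fin 2)`. -/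
def PP {ι : Type} {m : ℕ} (s : Fin m → MvPolynomial ι k) (B : Set (ι → k)) :
    Set (ι ⊕ Fin 2 → k) :=
  {z | z ∘ Sum.inl ∈ B ∧
    (z (Sum.inr 0) * z (Sum.inr 1) = 1 ∨ ∀ a, eval (z ∘ Sum.inl) (s a) = 0)}

theorem XP_alg {ι : Type} {m : ℕ} (e : Fin m → Fin m → MvPolynomial ι k)
    (s : Fin m → MvPolynomial ι k) {B : Set (ι → k)} (hB : IsAlg B) : IsAlg (XP e s B) := by
  have h := (hB.cyl (κ := Option (Fin m))).inter
    ((IsAlg.zeros (fun a => MvPolynomial.X (Sum.inr none) * MvPolynomial.X (Sum.inr (some a)) -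
        rename Sum.inl (s a) : Fin m → MvPolynomial (ι ⊕ Option (Fin m)) k)).inter
      (IsAlg.zeros (fun a => ∑ b, rename Sum.inl (e a b) * MvPolynomial.X (Sum.inr (some b)) -
        MvPolynomial.X (Sum.inr (some a)) : Fin m → MvPolynomial (ι ⊕ Option (Fin m)) k)))
  convert h using 1
  ext z
  simp [XP, sub_eq_zero, eval_rename]

theorem PP_alg {ι : Type} {m : ℕ} (s : Fin m → MvPolynomial ι k) {B : Set (ι → k)}
    (hB : IsAlg B) : IsAlg (PP s B) := by
  have h := (hB.cyl (κ := Fin 2)).inter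
    ((IsAlg.zero (MvPolynomial.X (Sum.inr 0) * MvPolynomial.X (Sum.inr 1) - 1 :
        MvPolynomial (ι ⊕ Fin 2) k)).union
      (IsAlg.zeros (fun a => (rename Sum.inl (s a) : MvPolynomial (ι ⊕ Fin 2) k))))
  convert h using 1
  ext z
  simp [PP, sub_eq_zero, eval_rename]

theorem XP_mono {ι : Type} {m : ℕ} (e : Fin m → Fin m → MvPolynomial ι k)
    (s : Fin m → MvPolynomial ι k) {B C : Set (ι → k)} (h : C ⊆ B) : XP e s C ⊆ XP e s B :=
  fun _ hz => ⟨h hz.1, hz.2⟩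

theorem PP_mono {ι : Type} {m : ℕ} (s : Fin m → MvPolynomial ι k) {B C : Set (ι → k)}
    (h : C ⊆ B) : PP s C ⊆ PP s B :=
  fun _ hz => ⟨h hz.1, hz.2⟩

/-- The pair `(X'(B), X'(C))`. -/
abbrev XPp {ι : Type} [Finite ι] {m : ℕ} (e : Fin m → Fin m → MvPolynomial ι k)
    (s : Fin m → MvPolynomial ι k) {B C : Set (ι → k)} (hB : IsAlg B) (hC : IsAlg C)
    (h : C ⊆ B) : AffPair k :=
  pr (XP_alg e s hB) (XP_alg e s hC) (XP_mono e s h)

/-- The pair `(P(B), P(C))`. -/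
abbrev PPp {ι : Type} [Finite ι] {m : ℕ}
    (s : Fin m → MvPolynomial ι k) {B C : Set (ι → k)} (hB : IsAlg B) (hC : IsAlg C)
    (h : C ⊆ B) : AffPair k :=
  pr (PP_alg s hB) (PP_alg s hC) (PP_mono s h)

/-- The polynomials defining the map `(x, u, w) ↦ (x, u, s(x) w)`. -/
def phiPoly {ι : Type} {m : ℕ} (s : Fin m → MvPolynomial ι k) :
    ι ⊕ Option (Fin m) → MvPolynomial (ι ⊕ Fin 2) k
  | Sum.inl i => MvPolynomial.X (Sum.inl i)
  | Sum.inr none => MvPolynomial.X (Sum.inr 0)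
  | Sum.inr (some a) => rename Sum.inl (s a) * MvPolynomial.X (Sum.inr 1)

theorem phi_mem {ι : Type} {m : ℕ} {e : Fin m → Fin m → MvPolynomial ι k}
    {s : Fin m → MvPolynomial ι k} {B : Set (ι → k)} (hs : LineSection B e s)
    (z : ι ⊕ Fin 2 → k) (hz : z ∈ PP s B) : (fun j => eval z (phiPoly s j)) ∈ XP e s B := by
  have h0 : (fun j => eval z (phiPoly s j)) ∘ Sum.inl = z ∘ Sum.inl := by
    funext i
    simp [phiPoly]
  refine ⟨by rw [h0]; exact hz.1, fun a => ?_, fun a => ?_⟩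
  · rw [h0]
    simp only [phiPoly, eval_X, map_mul, eval_rename]
    rcases hz.2 with h | h
    · linear_combination (eval (z ∘ Sum.inl) (s a)) * h
    · rw [h a]; ring
  · rw [h0]
    simp only [phiPoly, eval_X, map_mul, eval_rename]
    rw [← hs.sec _ hz.1 a, Finset.sum_mul]
    exact Finset.sum_congr rfl fun b _ => by ring

/-- The map `φ : (P(B), P(C)) ⟶ (X'(B), X'(C))`, `(x, u, w) ↦ (x, u, s(x) w)`. -/
def phi {ι : Type} [Finite ι] {m : ℕ} {e : Fin m → Fin m → MvPolynomial ι k}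
    {s : Fin m → MvPolynomial ι k} {B C : Set (ι → k)} (hB : IsAlg B) (hC : IsAlg C)
    (h : C ⊆ B) (hs : LineSection B e s) : PPp s hB hC h ⟶ XPp e s hB hC h :=
  pmap _ _ _ _ _ _ (phiPoly s) (fun z hz => phi_mem hs z hz)
    (fun z hz => phi_mem ⟨fun x hx => hs.trace x (h hx), fun x hx => hs.minors x (h hx),
      fun x hx => hs.sec x (h hx)⟩ z hz)

/-- A smooth divisor `{s = 0}` in a smooth variety `X`, with its line bundle. -/
structure LineDiv (k : Type) [Field k] : Type 1 where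
  /-- index set of the coordinates -/
  ι : Type
  fin : Finite ι
  /-- the variety -/
  X : Set (ι → k)
  algX : IsAlg X
  /-- the codimension of `X` -/
  c : ℕ
  /-- the rank of the trivial bundle -/
  m : ℕ
  /-- the line bundle -/
  e : Fin m → Fin m → MvPolynomial ι k
  /-- the section -/
  s : Fin m → MvPolynomial ι k
  sec : LineSection X e s
  cut : ∀ x ∈ X, ∃ b : Fin m, eval x (e b b) ≠ 0 ∧
    Cut c X x (fun _ : {_u : Unit // ∀ a, eval x (s a) = 0} => s b)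

namespace SNC

variable (P : SNC k)

/-- The stratum `X_K = X ∩ ⋂_{j ∈ K} Y_j`. -/
def S (K : Set P.J) : Set (P.ι → k) := P.X ∩ ⋂ j : K, {x | ∀ a, eval x (P.s j a) = 0}

theorem S_alg (K : Set P.J) : IsAlg (P.S K) :=
  P.algX.inter (IsAlg.iInter fun _ => IsAlg.zeros _)

/-- `X_K ∩ ⋃_{j ∈ I} Y_j`. -/
def SU (K I : Set P.J) : Set (P.ι → k) :=
  P.S K ∩ ⋃ j : I, {x | ∀ a, eval x (P.s j a) = 0}

theorem SU_alg (K I : Set P.J) : IsAlg (P.SU K I) := by
  have := P.finJ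
  exact (P.S_alg K).inter (IsAlg.iUnion fun _ => IsAlg.zeros _)

theorem SU_sub (K I : Set P.J) : P.SU K I ⊆ P.S K := Set.inter_subset_left

end SNC

end Geometry

namespace CohTheory

variable {k : Type} [Field k] {A : Type u} [Category.{v} A] [Abelian A] [MonoidalCategory A]
  (T : CohTheory k A)

/-- `f` induces isomorphisms on cohomology. -/
def QI {P Q : AffPair k} (f : P ⟶ Q) : Prop := ∀ i, IsIso ((T.h i).map f.op)

/-- All cohomology of `P` vanishes. -/
def Z (P : AffPair k) : Prop := ∀ i, IsZero ((T.h i).obj (op P))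

variable {T}

theorem QI.comp {P Q R : AffPair k} {f : P ⟶ Q} {g : Q ⟶ R} (hf : T.QI f) (hg : T.QI g) :
    T.QI (f ≫ g) := by
  intro i
  have := hf i
  have := hg i
  rw [op_comp, Functor.map_comp]
  infer_instance

theorem QI.of_comp_left {P Q R : AffPair k} {f : P ⟶ Q} {g : Q ⟶ R} (hf : T.QI f)
    (h : T.QI (f ≫ g)) : T.QI g := by
  intro i
  have := hf i
  have := h i
  rw [op_comp, Functor.map_comp] at this
  exact IsIso.of_isIso_comp_right ((T.h i).map g.op) ((T.h i).map f.op)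

theorem QI.of_comp_right {P Q R : AffPair k} {f : P ⟶ Q} {g : Q ⟶ R} (hg : T.QI g)
    (h : T.QI (f ≫ g)) : T.QI f := by
  intro i
  have := hg i
  have := h i
  rw [op_comp, Functor.map_comp] at this
  exact IsIso.of_isIso_comp_left ((T.h i).map g.op) ((T.h i).map f.op)

variable (T) in
theorem QI.of_isIso {P Q : AffPair k} (f : P ⟶ Q) [IsIso f] : T.QI f := by
  intro i
  infer_instance

variable (T) in
theorem QI.proj (P : AffPair k) (κ : Type) [Finite κ] : T.QI (P.proj κ) :=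
  fun i => T.homotopy i P κ

end CohTheory

/-- Two mutually inverse polynomial maps give an isomorphism of pairs. -/
theorem isIso_of_inv {k : Type} [Field k] {P Q : AffPair k} (f : P ⟶ Q) (g : Q ⟶ P)
    (h1 : ∀ x : P.X, (AffPair.Hom.toFun g (AffPair.Hom.toFun f x)).1 = x.1)
    (h2 : ∀ y : Q.X, (AffPair.Hom.toFun f (AffPair.Hom.toFun g y)).1 = y.1) : IsIso f :=
  ⟨g, AffPair.hom_ext _ _ h1, AffPair.hom_ext _ _ h2⟩

section SubSum

variable {A : Type u} [Category.{v} A] [Abelian A]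

/-- `N` is a subquotient of a finite direct sum of objects of the class `G`. -/
def SubSum (G : A → Prop) (N : A) : Prop :=
  ∃ (r : ℕ) (M : Fin r → A), (∀ a, G (M a)) ∧ IsSubquot N (⨁ M)

end SubSum

/-- The class of the objects `h^i(P)`, `i ∈ ℤ`. -/
def CohTheory.cl {k : Type} [Field k] {A : Type u} [Category.{v} A] [Abelian A]
    [MonoidalCategory A] (T : CohTheory k A) (P : AffPair k) : A → Prop :=
  fun M => ∃ i : ℤ, M = (T.h i).obj (op P)

end

end Pool.Agent.Lib.MP_ae0f86_nt
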