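import Pool.Agent.Lib.MP_ae0f86_nt.Periods

/-!
# MP_ae0f86_nt : definitions for the density theorems
-/

open CategoryTheory CategoryTheory.Limits Opposite MonoidalCategory

universe v u

namespace Pool.Agent.Lib.MP_ae0f86_nt

noncomputable section

attribute [local instance] CategoryTheory.Abelian.hasFiniteBiproducts

section Numbers

variable {A : Type u} [Category.{v} A] [Abelian A] [MonoidalCategory A] [SymmetricCategory A]
  [RigidCategory A] {HdR : A ⥤ ModuleCat.{0} QBar} {HB : A ⥤ ModuleCat.{0} ℚ}
  [FibreFunctor HdR] [FibreFunctor HB]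

omit [MonoidalCategory A] [SymmetricCategory A] [RigidCategory A] [FibreFunctor HB] in
/-- `N(W)`, the number of linearly independent periods of `W` expected from the period
conjecture: the dimension over `ℚ` of the endomorphism algebra of the functor `H_B` on the
category of the subquotients of the powers of `W`. -/
abbrev expected (HB : A ⥤ ModuleCat.{0} ℚ) (W : A) : ℕ := Module.finrank ℚ (EndBetti HB W)

omit [RigidCategory A] in
/-- `P(W)`, the number of periods of `W` which are linearly independent over `QBar`: the dimension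
of the vector space spanned by the periods of `W`. -/
abbrev independent (c : Comparison HdR HB) (W : A) : ℕ :=
  Module.finrank QBar (Submodule.span QBar (c.Per W))

/-- The number of connected components of the torsor `X(M) = Spec (PerAlg H_dR H_B ⟨M⟩)`. -/
abbrev components (HdR : A ⥤ ModuleCat.{0} QBar) (HB : A ⥤ ModuleCat.{0} ℚ)
    [FibreFunctor HdR] [FibreFunctor HB] (M : A) : ℕ :=
  Nat.card (_root_.ConnectedComponents (PrimeSpectrum (PerAlg HdR HB (Gen M))))

/-- The dimension formula `dim G(M) = trdeg ℚ(Per M)`, one half of Q1 for `M`. -/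
abbrev DimensionFormula (c : Comparison HdR HB) (M : A) : Prop :=
  ringKrullDim (PerAlg HB HB (Gen M)) =
    ((Cardinal.toENat (Algebra.trdeg ℚ (IntermediateField.adjoin ℚ (c.Per M))) : ℕ∞) :
      WithBot ℕ∞)

end Numbers

section Coh

variable {k : Type} [Field k] {A : Type u} [Category.{v} A] [Abelian A] [MonoidalCategory A]
  (T : CohTheory k A)

/-- The Künneth formula `h^m(X × X') ≅ ⨁_{i + i' = m} h^i(X) ⊗ h^{i'}(X')` for affine algebraic
sets. -/
abbrev CohTheory.KunnethFormula : Prop :=
  ∀ {ι ι' : Type} [Finite ι] [Finite ι'] {X : Set (ι → k)} {X' : Set (ι' → k)} (hX : IsAlg X)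
    (hX' : IsAlg X') {Y : Set (ι ⊕ ι' → k)} (hY : IsAlg Y),
    Y = {z | z ∘ Sum.inl ∈ X ∧ z ∘ Sum.inr ∈ X'} → ∀ m : ℕ,
    Nonempty ((T.h (m : ℤ)).obj (op (AffPair.abs hY)) ≅
      ⨁ fun i : Fin (m + 1) => (T.h ((i : ℕ) : ℤ)).obj (op (AffPair.abs hX)) ⊗
        (T.h ((m : ℤ) - ((i : ℕ) : ℤ))).obj (op (AffPair.abs hX')))

/-- The positive degree cohomology `h^{>0}(P) = ⨁_{i ≥ 1} h^i(P)` (the cohomology of a pair in
affine `n`-space vanishes in degrees `> 2 n`). -/
abbrev CohTheory.positive (P : AffPair k) : A :=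
  ⨁ fun i : Fin (2 * Nat.card P.ι) => (T.h (((i : ℕ) : ℤ) + 1)).obj (op P)

end Coh

section Cubics

variable {A : Type u} [Category.{v} A] [Abelian A] [MonoidalCategory A] [SymmetricCategory A]
  {HdR : A ⥤ ModuleCat.{0} QBar} {HB : A ⥤ ModuleCat.{0} ℚ} [FibreFunctor HdR]
  [FibreFunctor HB]

/-- `P(h^{>0}(V)) ≥ δ N(h^{>0}(V))` for all affine cubic hypersurfaces
`V = {(x, y) | ∑ y_j q_j(x) = 1}`, where the `q_j` are finitely many polynomials in finitely many
variables of degree at most `2` with all coefficients in `{0, 1, -1}`. -/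
def DensityForCubics (T : CohTheory QBar A) (c : Comparison HdR HB) (δ : ℝ) : Prop :=
  ∀ (n r : ℕ) (q : Fin r → MvPolynomial (Fin n) ℤ), (∀ j, SignQuadric (q j)) →
    δ * (expected HB (T.positive (cubic q)) : ℝ) ≤ independent c (T.positive (cubic q))

/-- The same for those `V` for which `{q = 0}` is smooth of some codimension `s ≥ 1` in affine
space. -/
def DensityForSmoothCubics (T : CohTheory QBar A) (c : Comparison HdR HB) (δ : ℝ) : Prop :=
  ∀ (n r s : ℕ) (q : Fin r → MvPolynomial (Fin n) ℤ), 1 ≤ s → (∀ j, SignQuadric (q j)) →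
    IsSmooth s (zl (fun j => MvPolynomial.map (Int.castRingHom QBar) (q j))) →
    δ * (expected HB (T.positive (cubic q)) : ℝ) ≤ independent c (T.positive (cubic q))

end Cubics

end

end Pool.Agent.Lib.MP_ae0f86_nt
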