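import Pool.Agent.Lib.MP_ae0f86_nt.Periods

/-!
# MP_ae0f86_nt : the evaluation maps
-/

open CategoryTheory CategoryTheory.Limits Opposite MonoidalCategory

universe v u

namespace Pool.Agent.Lib.MP_ae0f86_nt

noncomputable section

variable {A : Type u} [Category.{v} A] [Abelian A] [MonoidalCategory A] [SymmetricCategory A]

section Symbols

variable {K : Type} [Field K] (H : A ⥤ ModuleCat.{0} K) (HB : A ⥤ ModuleCat.{0} ℚ)
  (S : A → Prop) [FibreFunctor H] [FibreFunctor HB]

/-- The natural map from the formal periods to the formal period algebra. -/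
def toPerAlg : FP H HB S →ₗ[K] PerAlg H HB S :=
  Submodule.liftQ _ (Finsupp.linearCombination K
    (fun s => (Ideal.Quotient.mk (Ideal.span {r | AlgRel H HB S r}) (MvPolynomial.X s)))) (by
    rw [Submodule.span_le]
    intro r hr
    simp only [SetLike.mem_coe, LinearMap.mem_ker]
    have h : (Ideal.Quotient.mkₐ K (Ideal.span {r | AlgRel H HB S r})).toLinearMap
        (Finsupp.linearCombination K (fun s => (MvPolynomial.X s : MvPolynomial _ K)) r) = 0 := by
      simp only [AlgHom.toLinearMap_apply, Ideal.Quotient.mkₐ_eq_mk]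
      exact Ideal.Quotient.eq_zero_iff_mem.2 (Ideal.subset_span (AlgRel.lin r hr))
    rw [Finsupp.linearCombination_apply] at h ⊢
    rw [map_finsuppSum] at h
    simpa using h)

end Symbols

section Comparison

variable {K : Type} [Field K] [Algebra K ℂ] {HdR : A ⥤ ModuleCat.{0} K}
  {HB : A ⥤ ModuleCat.{0} ℚ} [FibreFunctor HdR] [FibreFunctor HB] (c : Comparison HdR HB)

namespace Comparison

/-- Evaluation of formal periods `(N, ω, σ) ↦ σ(ω)`. -/
def ev (S : A → Prop) : FP HdR HB S →ₗ[K] ℂ :=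
  Submodule.liftQ _ (Finsupp.linearCombination K (fun s => c.per s.N s.ω s.σ)) (by
    rw [Submodule.span_le]
    rintro r (⟨N, hN, ω, ω', σ⟩ | ⟨N, hN, a, ω, σ⟩ | ⟨N, hN, ω, σ, σ'⟩ | ⟨N, hN, q, ω, σ⟩ |
      ⟨N, N', hN, hN', f, ω, σ'⟩)
    · simp
    · simp
    · simp
    · have : ((q : K) • (c.per N ω σ : ℂ)) = q • c.per N ω σ := by
        rw [Algebra.smul_def, map_ratCast, Rat.smul_def]
      simp [this]
    · simp [c.per_nat])

theorem evAlg_aux (S : A → Prop) : ∀ a ∈ relIdeal HdR HB S,
    MvPolynomial.aeval (R := K) (fun s : Symb HdR HB S => c.per s.N s.ω s.σ) a = 0 := by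
  intro a ha
  have : Ideal.span {r | AlgRel HdR HB S r} ≤
      RingHom.ker (MvPolynomial.aeval (R := K)
        (fun s : Symb HdR HB S => c.per s.N s.ω s.σ)).toRingHom := by
    rw [Ideal.span_le]
    rintro r (⟨r, hr⟩ | ⟨s, s', h, σ, hσ⟩ | ⟨h, σ, hσ⟩)
    · have h1 : c.ev S (Submodule.Quotient.mk r) = 0 := by
        rw [(Submodule.Quotient.mk_eq_zero _).2 (Submodule.subset_span hr), map_zero]
      have h2 : Finsupp.linearCombination K
          (fun s : Symb HdR HB S => c.per s.N s.ω s.σ) r = 0 := h1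
      simp only [SetLike.mem_coe, RingHom.mem_ker, AlgHom.toRingHom_eq_coe, RingHom.coe_coe]
      rw [Finsupp.linearCombination_apply] at h2 ⊢
      rw [map_finsuppSum]
      simpa using h2
    · simp only [SetLike.mem_coe, RingHom.mem_ker, AlgHom.toRingHom_eq_coe, RingHom.coe_coe]
      rw [map_sub, map_mul, MvPolynomial.aeval_X, MvPolynomial.aeval_X, MvPolynomial.aeval_X,
        c.per_mul _ _ _ _ _ _ _ hσ, sub_self]
    · simp only [SetLike.mem_coe, RingHom.mem_ker, AlgHom.toRingHom_eq_coe, RingHom.coe_coe]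
      rw [map_sub, map_one, MvPolynomial.aeval_X, c.per_one _ hσ, sub_self]
  exact RingHom.mem_ker.1 (this ha)

/-- Evaluation on the formal period algebra. -/
def evAlg (S : A → Prop) : PerAlg HdR HB S →ₐ[K] ℂ :=
  Ideal.Quotient.liftₐ (relIdeal HdR HB S)
    (MvPolynomial.aeval (fun s : Symb HdR HB S => c.per s.N s.ω s.σ)) (evAlg_aux c S)

end Comparison

end Comparison

end

end Pool.Agent.Lib.MP_ae0f86_nt
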