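import Pool.Agent.Lib.MP_ae0f86_nt.StmA

/-!
# MP_ae0f86_nt : statements of the pieces, part B (descent to `ℚ`, quadrics, assembly)
-/

open CategoryTheory CategoryTheory.Limits MvPolynomial Opposite MonoidalCategory

universe v u

namespace Pool.Agent.Lib.MP_ae0f86_nt

noncomputable section

attribute [local instance] CategoryTheory.Abelian.hasFiniteBiproducts

/-! ## B. algebra -/

/-- [GP fin] An algebraic subset of `k^ι` (`ι` finite) is the zero locus of finitely many
polynomials. Proof: Hilbert basis theorem: the ideal spanned by the set `S` of equations is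
finitely generated (`MvPolynomial` over a field in finitely many variables is Noetherian), and
the polynomials of `Ideal.span S` vanish on `X`. -/
def S_fin (k : Type) [Field k] : Prop := ∀ {ι : Type} [Finite ι] (X : Set (ι → k)), IsAlg X →
  ∃ (r : ℕ) (f : Fin r → MvPolynomial ι k), X = zl f

/-- [GP autext] If every polynomial relation over `ℚ` between the algebraic numbers `θ a` holds
for the `t a`, then some automorphism of `QBar` maps `θ a` to `t a`.

Proof: `aeval θ : MvPolynomial α ℚ →ₐ[ℚ] QBar` has kernel contained in the kernel of `aeval t`,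
so there is a homomorphism from its range, the subalgebra `ℚ[θ]`, to `QBar`, with
`θ a ↦ t a`. As `QBar` is algebraic over `ℚ` and algebraically closed it extends to a
homomorphism `QBar →ₐ[ℚ] QBar` (the range is an algebraic subalgebra, hence a field; or use
`IsAlgClosed.lift` for the algebraic extension `QBar / ℚ(θ)`, or
`IntermediateField.exists_algHom_of_...`), which is bijective
(`Algebra.IsAlgebraic.algHom_bijective`). -/
def S_autext : Prop := ∀ {α : Type} [Finite α] (θ t : α → QBar),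
  (∀ p : MvPolynomial α ℚ, aeval θ p = 0 → aeval t p = 0) →
    ∃ τ : QBar ≃ₐ[ℚ] QBar, ∀ a, τ (θ a) = t a

/-- [GP orbit] The conjugates of a tuple of algebraic numbers are the common zeros of finitely
many polynomials with integer coefficients, and there are finitely many of them. Uses
`S_autext`.

Proof: the ideal `ker (aeval θ)` of `MvPolynomial α ℚ` is finitely generated; clear denominators
of the generators to get `ρ l`. Every common zero `t` of the `ρ l` satisfies all relations, so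
`S_autext` applies. Finiteness: each `t a` is a root of the minimal polynomial of `θ a` (apply
`τ`), and `α` is finite. -/
def S_orbit : Prop := ∀ {α : Type} [Finite α] (θ : α → QBar), ∃ (r : ℕ)
  (ρ : Fin r → MvPolynomial α ℤ), (∀ l, aeval θ (ρ l) = 0) ∧
    {t : α → QBar | ∀ l, aeval t (ρ l) = 0}.Finite ∧
    ∀ t : α → QBar, (∀ l, aeval t (ρ l) = 0) → ∃ τ : QBar ≃ₐ[ℚ] QBar, ∀ a, τ (θ a) = t a

/-- `g : X → X'` is an isomorphism onto a subset which is open and closed in `X'`. -/
def IsClopenEmb {k : Type} [Field k] {ι ι' : Type} [Finite ι] [Finite ι'] {X : Set (ι → k)}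
    {X' : Set (ι' → k)} (hX : IsAlg X) (hX' : IsAlg X')
    (g : AffPair.abs hX ⟶ AffPair.abs hX') : Prop :=
  ∃ (E R : Set (ι' → k)) (hE : IsAlg E) (_ : IsAlg R), E ∪ R = X' ∧ E ∩ R = ∅ ∧
    ∃ e : AffPair.abs hX ⟶ AffPair.abs hE, IsIso e ∧
      ∀ x, (AffPair.Hom.toFun g x).1 = (AffPair.Hom.toFun e x).1

/-- [GP conjcut] Galois conjugation preserves the smoothness condition: with `τ` an automorphism
of `QBar`, `X' = {x | τ⁻¹ ∘ x ∈ X}`.

Proof: transport `p a`, `s` by `MvPolynomial.map τ`. `eval (τ ∘ x) (map τ f) = τ (eval x f)`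
(`MvPolynomial.eval_map`/`map_eval`), `pderiv` commutes with `map`
(`MvPolynomial.pderiv_map`), and a `τ`-semilinear bijection preserves linear independence. -/
def S_conj : Prop := ∀ {ι : Type} (τ : QBar ≃ₐ[ℚ] QBar) {c : ℕ} (X : Set (ι → QBar)),
  IsSmooth c X → IsSmooth c {x : ι → QBar | (fun i => τ.symm (x i)) ∈ X}

/-- [GP descent] Every smooth affine variety over `QBar` is isomorphic to an open and closed
part of a smooth variety defined by polynomials with integer coefficients. Uses `S_fin`,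
`S_orbit`, `S_conj`, `S_cutcard`.

Proof. `X = {f_j = 0}`, `j < r` (`S_fin`). Let `α` be the finite type of the pairs `(j, m)`, `m` in
the support of `f_j`, and `θ (j, m) = coeff m f_j`; `F_j = ∑_m t_{(j,m)} x^m` in
`MvPolynomial (α ⊕ ι) ℤ` (the new index type is `ι' = α ⊕ ι`; coordinates `t`, `x`). Let `ρ` be
given by `S_orbit`. Put `X' = {(t, x) | ρ(t) = 0, F(t, x) = 0}`. For a zero `t = τ ∘ θ` of `ρ` we
have `F_j(t, x) = (map τ f_j)(x) = τ (f_j (τ⁻¹ ∘ x))`, so the fibre of `X'` over `t` is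
`{x | τ⁻¹ ∘ x ∈ X}`, smooth of codimension `c` by `S_conj`. The set `O` of the zeros `t` of `ρ`
is finite. `X'` is smooth of codimension `|α| + c`: near `(t0, x0)` the equations are
`t a - t0 a` (`a ∈ α`) and the `rename inr (p b)`, with `s` the product of the nonvanishing
polynomial of `X_{t0}` at `x0` and of a polynomial in `t` that vanishes at the finitely many
points of `O ∖ {t0}` but not at `t0` (for each `t ≠ t0` choose `a` with `t a ≠ t0 a` and the
factor `T a - t a`). Use `S_cutcard` with `Fintype.card (α ⊕ Fin c)`.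
`g : x ↦ (θ, x)` is an isomorphism onto `E = X' ∩ {t = θ}`; `R = X' ∩ {t ∈ O ∖ {θ}}` is
algebraic as `O ∖ {θ}` is finite (finite unions of algebraic sets). -/
def S_descent : Prop := ∀ {ι : Type} [Finite ι] {c : ℕ} (X : Set (ι → QBar))
  (hX : IsSmooth c X), ∃ (ι' : Type) (_ : Finite ι') (r c' : ℕ)
    (f : Fin r → MvPolynomial ι' ℤ)
    (_ : IsSmooth c' (zl (fun j => MvPolynomial.map (Int.castRingHom QBar) (f j)))),
    ∃ g : AffPair.abs hX.1 ⟶
      AffPair.abs (zl_alg (fun j => MvPolynomial.map (Int.castRingHom QBar) (f j))),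
      IsClopenEmb _ _ g

/-- A straight line program: variables `y_j` (`j ∈ κ`) and a system of sign quadrics in the
variables `σ ⊕ κ` which says exactly that `y_j = w_j(x)`. -/
def IsProgram {σ κ : Type} (w : κ → MvPolynomial σ ℤ) {r : ℕ}
    (q : Fin r → MvPolynomial (σ ⊕ κ) ℤ) : Prop :=
  (∀ j, SignQuadric (q j)) ∧ ∀ z : σ ⊕ κ → QBar,
    (∀ j, eval z (MvPolynomial.map (Int.castRingHom QBar) (q j)) = 0) ↔
      ∀ j, z (Sum.inr j) = eval (z ∘ Sum.inl) (MvPolynomial.map (Int.castRingHom QBar) (w j))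

/-- [GP slpext] Every program can be extended so that it also computes a given polynomial `p`.

Here an extension of `(κ, w, q)` is a program `(κ', w', q')` with an injection `κ → κ'`
compatible with `w`; we only record that every polynomial computed by the old program is
computed by the new one.

Proof: induction on `p` (`MvPolynomial.induction_on`), for all programs. One step adds one new
variable `y` (`κ' = Option κ` or `κ ⊕ Unit`) and one new equation, one of
`y - 1`, `y`, `y - x_i`, `y - y_a`, `y + y_a`, `y - y_a - y_b` with `a ≠ b`, `y - y_a y_b`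
(all sign quadrics; the old equations are renamed, `SignQuadric` is preserved by `rename` along
an injection). For a sum `p_1 + p_2` first copy `p_2` to a new variable (`y' - y_b = 0`), so that
the two variables are different. Constants: `0`, `1`, and `n + 1`, `-n` by induction
(`Int.induction_on`). `X_i * p`: `y - x_i y_a`. -/
def S_slpext : Prop := ∀ {σ : Type} [Finite σ] (p : MvPolynomial σ ℤ) {κ : Type} [Finite κ]
  (w : κ → MvPolynomial σ ℤ) {r : ℕ} (q : Fin r → MvPolynomial (σ ⊕ κ) ℤ), IsProgram w q →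
  ∃ (κ' : Type) (_ : Finite κ') (w' : κ' → MvPolynomial σ ℤ) (r' : ℕ)
    (q' : Fin r' → MvPolynomial (σ ⊕ κ') ℤ), IsProgram w' q' ∧
      (∀ j, ∃ j', w' j' = w j) ∧ ∃ j', w' j' = p

/-- [GP slp] Systems of polynomial equations with integer coefficients reduce to systems of sign
quadrics, by adding variables `y = w(x)`. Uses `S_slpext`.

Proof: start with the empty program (`κ = Fin 0`, `r = 0`), apply `S_slpext` to `f_0, ..., f_{r-1}`
and once more to `0` (so that `κ'` is nonempty), and add the equations `y_{j'} = 0` for the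
`j'` with `w' j' = f_j`. -/
def S_slp : Prop := ∀ {σ : Type} [Finite σ] {r : ℕ} (f : Fin r → MvPolynomial σ ℤ),
  ∃ (κ : Type) (_ : Finite κ) (_ : Nonempty κ) (w : κ → MvPolynomial σ ℤ) (r' : ℕ)
    (q : Fin r' → MvPolynomial (σ ⊕ κ) ℤ), (∀ j, SignQuadric (q j)) ∧
    ∀ z : σ ⊕ κ → QBar,
      (∀ j, eval z (MvPolynomial.map (Int.castRingHom QBar) (q j)) = 0) ↔
      ((∀ j, eval (z ∘ Sum.inl) (MvPolynomial.map (Int.castRingHom QBar) (f j)) = 0) ∧
        ∀ j, z (Sum.inr j) =
          eval (z ∘ Sum.inl) (MvPolynomial.map (Int.castRingHom QBar) (w j)))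

/-- [GP quadrics] Every smooth affine variety over `QBar` is isomorphic to an open and closed
part of a smooth variety of codimension `≥ 1` defined by sign quadrics in a standard affine
space. Uses `S_descent`, `S_slp`, `S_smgraph`, `S_smreindex`.

Proof: `S_descent`, then `S_slp` for the `f_j`: the zero locus of the `q_j` in `QBar^(ι' ⊕ κ)` is
the graph of `w` over `zl f`, smooth of codimension `c' + |κ| ≥ 1` by `S_smgraph`, and
isomorphic to `zl f` (`x ↦ (x, w(x))`, inverse the projection). Rename the variables by a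
bijection `ι' ⊕ κ ≃ Fin n` (`S_smreindex`; `SignQuadric` is invariant). The composite of
a clopen embedding and of isomorphisms is a clopen embedding. -/
def S_quadrics : Prop := ∀ {ι : Type} [Finite ι] {c : ℕ} (X : Set (ι → QBar))
  (hX : IsSmooth c X), ∃ (n r c' : ℕ) (q : Fin r → MvPolynomial (Fin n) ℤ),
    1 ≤ c' ∧ (∀ j, SignQuadric (q j)) ∧
    IsSmooth c' (zl (fun j => MvPolynomial.map (Int.castRingHom QBar) (q j))) ∧
    ∃ g : AffPair.abs hX.1 ⟶
      AffPair.abs (zl_alg (fun j => MvPolynomial.map (Int.castRingHom QBar) (q j))),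
      IsClopenEmb _ _ g

/-! ## C, D. assembly -/

section Cat

variable {A : Type u} [Category.{v} A] [Abelian A]

/-- [GP subq] Elementary properties of subquotients in an abelian category.
Proof: (a) transitivity: `N'' ↠ N`, `N'' ↪ M`, `M' ↠ M`, `M' ↪ M0`: take the pullback
`N'' ×_M M'` (mono into `M'`, epi onto `N''`). (b) direct sums of monos (epis) are monos (epis).
(c) an isomorphism is mono and epi. -/
def S_subq (A : Type u) [Category.{v} A] [Abelian A] : Prop :=
  (∀ M N P : A, IsSubquot M N → IsSubquot N P → IsSubquot M P) ∧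
  (∀ (r : ℕ) (M N : Fin r → A), (∀ a, IsSubquot (M a) (N a)) → IsSubquot (⨁ M) (⨁ N)) ∧
  (∀ M N : A, (M ≅ N) → IsSubquot M N) ∧
  (∀ (M N : A) (f : M ⟶ N), Mono f → IsSubquot M N) ∧
  (∀ (M N : A) (f : M ⟶ N), Epi f → IsSubquot N M) ∧
  (∀ M N M' N' : A, IsSubquot M M' → IsSubquot N N' → IsSubquot (M ⊞ N) (M' ⊞ N'))

/-- [GP subsum] Closure properties of `SubSum`. Uses `S_subq`.
Proof: (a) transitivity of subquotients. (b), (c) a finite direct sum of finite direct sums is
one: `⨁_a ⨁_b M a b` with `a : Fin r`, `b : Fin (n a)` is isomorphic to `⨁` over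
`Fin (∑ n a)` (`biproduct.reindex`, `finSigmaFinEquiv`, or induct on `r` using
`⨁ over Fin (r+1) ≅ (⨁ over Fin r) ⊞ _`; (d) is the case `r = 2`). (e) `⨁` of one object is the
object. (f) a zero object is the empty sum. -/
def S_subsum (A : Type u) [Category.{v} A] [Abelian A] : Prop :=
  (∀ (G : A → Prop) (N N' : A), SubSum G N → IsSubquot N' N → SubSum G N') ∧
  (∀ (G : A → Prop) (r : ℕ) (M : Fin r → A), (∀ a, SubSum G (M a)) → SubSum G (⨁ M)) ∧
  (∀ (G G' : A → Prop) (N : A), (∀ M, G M → SubSum G' M) → SubSum G N → SubSum G' N) ∧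
  (∀ (G : A → Prop) (N N' : A), SubSum G N → SubSum G N' → SubSum G (N ⊞ N')) ∧
  (∀ (G : A → Prop) (M : A), G M → SubSum G M) ∧
  (∀ (G : A → Prop) (M : A), IsZero M → SubSum G M) ∧
  (∀ W N : A, SubSum (fun M => M = W) N ↔ Lin W N)

end Cat

section Assembly

variable {k : Type} [Field k] {A : Type u} [Category.{v} A] [Abelian A] [MonoidalCategory A]
  [MonoidalPreadditive A] [SymmetricCategory A] (T : CohTheory k A)

/-- [GP subtens] Tensoring with `L^{⊗ n}` is compatible with `SubSum`. Uses `S_tensmono`,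
`S_subq`, `S_subsum`.
Proof: `- ⊗ L^n` preserves monos and epis (`S_tensmono`) and finite direct sums (it is additive:
`MonoidalPreadditive`; `Functor.mapBiproduct` for `tensorRight _`, or `rightDistributor`). -/
def S_subtens : Prop := ∀ (G G' : A → Prop) (n : ℕ) (N : A),
  (∀ M, G M → SubSum G' (M ⊗ tpow T.L n)) → SubSum G N → SubSum G' (N ⊗ tpow T.L n)

/-- [GP twist] `tpow` formalities: `(N ⊗ L^a) ⊗ L^b ≅ N ⊗ L^{a+b}`, `(N ⊗ tate^m) ⊗ L^{m+b} ≅
N ⊗ L^b`, and `N ⊗ L^n` is zero only if `N` is zero.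
Proof: associators, `β_`, `tateIso`; induction. Last: `N ⊗ L^n = 0` implies
`0 = (N ⊗ L^n) ⊗ tate^n ≅ N`. -/
def S_twist : Prop :=
  (∀ (N : A) (a b : ℕ), Nonempty ((N ⊗ tpow T.L a) ⊗ tpow T.L b ≅ N ⊗ tpow T.L (a + b))) ∧
  (∀ (N : A) (m b : ℕ), Nonempty ((N ⊗ tpow T.tate m) ⊗ tpow T.L (m + b) ≅
    N ⊗ tpow T.L b)) ∧
  (∀ (N : A) (n : ℕ), IsZero (N ⊗ tpow T.L n) → IsZero N)

omit [MonoidalPreadditive A] [SymmetricCategory A] in
/-- [GP clopen] A clopen embedding `g : X → X'` induces an epimorphism `h^i(X') → h^i(X)`. Uses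
`S_exc`.
Proof: the composite `(E, ∅) → (X', ∅) → (X', R)` is an excision (`X' = E ∪ R`, `∅ = E ∩ R`), so
`h^i(X') → h^i(E)` is (split) epi; compose with the isomorphism `e`. -/
def S_clopen : Prop := ∀ {ι ι' : Type} [Finite ι] [Finite ι'] {X : Set (ι → k)}
  {X' : Set (ι' → k)} (hX : IsAlg X) (hX' : IsAlg X') (g : AffPair.abs hX ⟶ AffPair.abs hX'),
  IsClopenEmb hX hX' g → ∀ i, Epi ((T.h i).map g.op)

/-- [GP cubic] Let `Z = {g = 0}` be smooth of codimension `c ≥ 1` in affine space and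
`V = {∑ y_j g_j = 1}`. Then `h^i(Z) ⊗ L^c` is a subquotient of a power of `h^*(V)`. Uses
`S_subsum`, `S_subq`, `S_homot` or `QI.proj`.

Proof: if `i < 0` then `h^i(Z) = 0` (`bounded`), and `0 ⊗ L^c = 0`. Let `i ≥ 0`, `j = i + 2c ≥ 2`.
`h^i(Z) ⊗ L^c ≅ h^j(A^N, V)` (`purity`), and the boundary `h^{j-1}(V) → h^j(A^N, V)` of the
triple `(A^N, V, ∅)` is an epimorphism, because `h^j(A^N) = 0`: `A^N` is isomorphic to
`pt × A^N`, so `h^j(A^N) ≅ h^j(pt)` by homotopy invariance (`QI.proj` for the pair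
`(pt, ∅)` in `k^Empty` or `k^(Fin 0)`), which vanishes for `j > 0` by `bounded`. Finally
`h^{j-1}(V)` is a direct summand of `T.total V` if `j - 1 ≤ 2N`, and zero otherwise
(`bounded`). Conclude with `S_subsum` (`SubSum (fun M => M = W) ↔ Lin W`). -/
def S_cubic : Prop := ∀ {ι κ : Type} [Finite ι] [Fintype κ] (g : κ → MvPolynomial ι k) (c : ℕ),
  1 ≤ c → IsSmooth c (zl g) → ∀ i : ℤ, Lin (T.total (AffPair.abs (hyp_alg g)))
    ((T.h i).obj (op (AffPair.abs (zl_alg g))) ⊗ tpow T.L c)

omit [MonoidalPreadditive A] [SymmetricCategory A] in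
/-- [GP gmsub] `h^i(X) ⊗ L` embeds into `h^{i+1}(X × G_m)`. Uses `S_k2`.
Proof: `S_k2` with `m = 1`, `s = 1`, `B = X`, `C = D = ∅`; `P(X) = X × G_m`, `P(∅) = ∅`. -/
def S_gmsub : Prop := ∀ {ι : Type} [Finite ι] {X : Set (ι → k)} (hX : IsAlg X)
  {Y : Set (ι ⊕ Fin 2 → k)} (hY : IsAlg Y),
  Y = {z | z ∘ Sum.inl ∈ X ∧ z (Sum.inr 0) * z (Sum.inr 1) = 1} → ∀ i : ℤ,
    ∃ f : (T.h i).obj (op (AffPair.abs hX)) ⊗ T.L ⟶
      (T.h (i + 1)).obj (op (AffPair.abs hY)), Mono f

omit [MonoidalPreadditive A] [SymmetricCategory A] in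
/-- [GP prodsub] `h^i(X)` embeds into `h^i(X × X')` if `X'` is nonempty, and `h^i(X')` if `X` is.
Proof: the projection has a section (`x ↦ (x, x'_0)`). -/
def S_prodsub : Prop := ∀ {ι ι' : Type} [Finite ι] [Finite ι'] {X : Set (ι → k)}
  {X' : Set (ι' → k)} (hX : IsAlg X) (hX' : IsAlg X') {Y : Set (ι ⊕ ι' → k)} (hY : IsAlg Y),
  Y = {z | z ∘ Sum.inl ∈ X ∧ z ∘ Sum.inr ∈ X'} → ∀ i : ℤ,
    (X'.Nonempty → ∃ f : (T.h i).obj (op (AffPair.abs hX)) ⟶
      (T.h i).obj (op (AffPair.abs hY)), Mono f) ∧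
    (X.Nonempty → ∃ f : (T.h i).obj (op (AffPair.abs hX')) ⟶
      (T.h i).obj (op (AffPair.abs hY)), Mono f)

/-- `N ⊗ L^e` is a subquotient of a finite direct sum of cohomology objects of `X`. -/
def Dom (N : A) (e : ℕ) {ι : Type} [Finite ι] {X : Set (ι → k)} (hX : IsAlg X) : Prop :=
  SubSum (T.cl (AffPair.abs hX)) (N ⊗ tpow T.L e)

/-- [GP domraise] `Dom N e X` implies `Dom N (e + 1) (X × G_m)` for the smooth variety
`X × G_m`. Uses `S_gmsub`, `S_subtens`, `S_subsum`, `S_subq`, `S_twist`.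
Proof: `S_subtens` with `n = 1` and `tpow L 1 = 1 ⊗ L ≅ L`. -/
def S_domraise : Prop := ∀ (N : A) (e : ℕ) {ι : Type} [Finite ι] {X : Set (ι → k)}
  (hX : IsAlg X) {Y : Set (ι ⊕ Fin 2 → k)} (hY : IsAlg Y),
  Y = {z | z ∘ Sum.inl ∈ X ∧ z (Sum.inr 0) * z (Sum.inr 1) = 1} →
    Dom T N e hX → Dom T N (e + 1) hY

/-- [GP domprod] `Dom N e X` implies `Dom N e (X × X')` if `X'` is nonempty, and
symmetrically. Uses `S_prodsub`, `S_subsum`, `S_subq`. -/
def S_domprod : Prop := ∀ (N : A) (e : ℕ) {ι ι' : Type} [Finite ι] [Finite ι'] {X : Set (ι → k)}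
  {X' : Set (ι' → k)} (hX : IsAlg X) (hX' : IsAlg X') {Y : Set (ι ⊕ ι' → k)} (hY : IsAlg Y),
  Y = {z | z ∘ Sum.inl ∈ X ∧ z ∘ Sum.inr ∈ X'} →
    (X'.Nonempty → Dom T N e hX → Dom T N e hY) ∧ (X.Nonempty → Dom T N e hX' → Dom T N e hY)

/-- [GP domfam] Simultaneous domination: if every object of a finite family is dominated by
some smooth variety, all are dominated, with the same exponent, by one smooth variety. Uses
`S_domraise`, `S_domprod`, `S_smprod`, `S_smgm`, `S_twist`, `S_zero`, `S_subsum`.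

Proof: induction on `r`. Given `X` (for `M_0, ..., M_{r-1}`, exponent `e`) and `X'` (for `M_r`,
exponent `e'`). Raise the smaller exponent with `S_domraise` and `S_smgm` (several times), so
`e = e'`. If both are nonempty take `X × X'` (`S_domprod`, `S_smprod`). If `X' = ∅` then all
`h^i(X') = 0` (`S_zero`), so `M_r ⊗ L^e = 0`, `M_r = 0` (`S_twist`), which is dominated by `X`
(`S_subsum`; note `0 ⊗ L^e` is zero); similarly if `X = ∅`. For `r = 0` take the point (a smooth
variety in `k^(Fin 0)`, codimension `0`). -/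
def S_domfam : Prop := ∀ (r : ℕ) (M : Fin r → A),
  (∀ a, ∃ (e : ℕ) (ι : Type) (_ : Finite ι) (c : ℕ) (X : Set (ι → k)) (hX : IsSmooth c X),
    Dom T (M a) e hX.1) →
  ∃ (e : ℕ) (ι : Type) (_ : Finite ι) (c : ℕ) (X : Set (ι → k)) (hX : IsSmooth c X),
    ∀ a, Dom T (M a) e hX.1

/-- [GP domall] Every object is dominated by a smooth variety. Uses `S_domfam`, `S_snc`,
`S_twist`, `S_subq`, `S_subsum`, `S_subtens`.

Proof: by `gen`, `N` is a subquotient of `⨁_a h^{i_a}(P_a) ⊗ tate^{m_a}`. Each summand is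
dominated: `(h^i(P) ⊗ tate^m) ⊗ L^{m + |J|} ≅ h^i(P) ⊗ L^{|J|}` (`S_twist`) embeds into
`h^{i + |J|}(X)`, `X` smooth (`S_snc`). By `S_domfam` all are dominated by one `X` with one
exponent `e`; the direct sum is then dominated by `X`: `(⨁ M_a) ⊗ L^e` is a subquotient of (is
isomorphic to) `⨁ (M_a ⊗ L^e)`; use `S_subtens` with `G = {M_a}` (`fun M => ∃ a, M = M_a`) and
`G' = cl X`. -/
def S_domall : Prop := ∀ N : A, ∃ (e : ℕ) (ι : Type) (_ : Finite ι) (c : ℕ) (X : Set (ι → k))
  (hX : IsSmooth c X), Dom T N e hX.1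

end Assembly

section Geo

variable {A : Type u} [Category.{v} A] [Abelian A] [MonoidalCategory A]
  [MonoidalPreadditive A] [SymmetricCategory A] (T : CohTheory QBar A)

/-- [GP geo] The geometric theorem: for every object `N` there are sign quadrics `q_j` and `e`
such that `N ⊗ L^e` is a subquotient of a power of `h^*(V)`, `V = {∑ y_j q_j(x) = 1}`. Uses
`S_domall`, `S_quadrics`, `S_clopen`, `S_cubic`, `S_subtens`, `S_subsum`, `S_subq`, `S_twist`.

Proof: `S_domall` gives `X`, `e` with `N ⊗ L^e ∈ SubSum (cl X)`. `S_quadrics` gives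
`g : X → U = {q = 0}`, so by `S_clopen` every `h^i(X)` is a quotient of `h^i(U)` and
`N ⊗ L^e ∈ SubSum (cl U)`. By `S_subtens` (with `n = c'`, `G = cl U`, `G' = {h^*(V)}`) and
`S_cubic`, `(N ⊗ L^e) ⊗ L^{c'} ∈ SubSum {h^*(V)}`; and it is `N ⊗ L^{e+c'}` by `S_twist`. -/
def S_geo : Prop := ∀ N : A, ∃ (e n r : ℕ) (q : Fin r → MvPolynomial (Fin n) ℤ),
  (∀ j, SignQuadric (q j)) ∧ Lin (T.total (cubic q)) (N ⊗ tpow T.L e)

end Geo

end

end Pool.Agent.Lib.MP_ae0f86_nt
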