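import Pool.Agent.Lib.MP_ae0f86_nt.StmE

/-!
# MP_ae0f86_nt : statements of the pieces, part U (one cohomology group, one integral)
-/

open CategoryTheory CategoryTheory.Limits MvPolynomial Opposite MonoidalCategory

universe w v u

namespace Pool.Agent.Lib.MP_ae0f86_nt

noncomputable section

attribute [local instance] CategoryTheory.Abelian.hasFiniteBiproducts

section Geo1

variable {k : Type} [Field k] {A : Type u} [Category.{v} A] [Abelian A] [MonoidalCategory A]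
  (T : CohTheory k A)

/-- `N ⊗ L^e` is a subquotient of the single object `h^i(X)`. -/
def Dom1 (N : A) (e : ℕ) (i : ℤ) {ι : Type} [Finite ι] {X : Set (ι → k)} (hX : IsAlg X) : Prop :=
  IsSubquot (N ⊗ tpow T.L e) ((T.h i).obj (op (AffPair.abs hX)))

/-- [GP d1gm] `Dom1 N e i X` implies `Dom1 N (e+1) (i+1) (X × G_m)`. Uses `S_gmsub`,
`S_tensmono`, `S_subq`.
Proof: a subquotient `N ⊗ L^e` of `h^i(X)` gives a subquotient `(N ⊗ L^e) ⊗ L` of `h^i(X) ⊗ L`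
(`S_tensmono` with `n = 1`, `tpow L 1 = 1 ⊗ L ≅ L`), which embeds into `h^{i+1}(X × G_m)`
(`S_gmsub`); and `N ⊗ L^{e+1} ≅ (N ⊗ L^e) ⊗ L`. -/
def S_d1gm : Prop := ∀ (N : A) (e : ℕ) (i : ℤ) {ι : Type} [Finite ι] {X : Set (ι → k)}
  (hX : IsAlg X) {Y : Set (ι ⊕ Fin 2 → k)} (hY : IsAlg Y),
  Y = {z | z ∘ Sum.inl ∈ X ∧ z (Sum.inr 0) * z (Sum.inr 1) = 1} →
    Dom1 T N e i hX → Dom1 T N (e + 1) (i + 1) hY

/-- [GP suspiso] Suspension: `h^{i+1}(X × A^1, X × {0,1}) ≅ h^i(X)`. Uses `S_exc`, `S_sect`,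
`S_zero`.

Proof. Let `t` be the triple `X × {0} ⊆ X × {0,1} ⊆ X × A^1`. `h^j(X × A^1, X × {0}) = 0` for all
`j`: compare the triple `(X × A^1, X × {0}, ∅)`: the restriction
`h^j(X × A^1) → h^j(X × {0})` is an isomorphism (`S_sect`, and `X ≅ X × {0}`), so the relative
group vanishes. So by the exact sequence of `t` the boundary
`h^i(X × {0,1}, X × {0}) → h^{i+1}(X × A^1, X × {0,1})` is an isomorphism. And
`h^i(X × {0,1}, X × {0}) ≅ h^i(X × {1}) ≅ h^i(X)` by excision (`X × {1} ∩ X × {0} = ∅`) and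
`X ≅ X × {1}`. -/
def S_suspiso : Prop := ∀ {ι : Type} [Finite ι] {X : Set (ι → k)} (hX : IsAlg X)
  {Z Y : Set (ι ⊕ Unit → k)} (hZ : IsAlg Z) (hY : IsAlg Y) (h : Y ⊆ Z),
  Z = {z | z ∘ Sum.inl ∈ X} →
  Y = {z | z ∘ Sum.inl ∈ X ∧ (z (Sum.inr ()) = 0 ∨ z (Sum.inr ()) = 1)} → ∀ i : ℤ,
    Nonempty ((T.h (i + 1)).obj (op (pr hZ hY h)) ≅ (T.h i).obj (op (AffPair.abs hX)))

/-- [GP suspsnc] `(X × A^1, X × {0} ∪ X × {1})` is an snc pair: for `X` smooth of codimension `c`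
there is `P : SNC k` with `P.X = X × A^1`, index set `Fin 2`, whose components are `t = 0` and
`t = 1`. We state that there is an snc pair `P` with `Nat.card P.J = 2` and
`h^i(P.pair) ≅ h^i(X × A^1, X × {0,1})`. Uses `S_cutcard`.

Proof: `J = Fin 2`, `m j = 1`, `e j _ _ = 1`, `s 0 = t`, `s 1 = t - 1` (`t = X (inr ())`),
`LineSection` is trivial. At `(x, t)` at most one of `t`, `t - 1` vanishes and its gradient
`(0; 1)` is independent of the gradients `(∇p_a; 0)` of the equations of `X × A^1`. The pair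
`P.pair` is equal to `(Z, Y)`. -/
def S_suspsnc : Prop := ∀ {ι : Type} [Finite ι] {c : ℕ} {X : Set (ι → k)} (_ : IsSmooth c X)
  {Z Y : Set (ι ⊕ Unit → k)} (hZ : IsAlg Z) (hY : IsAlg Y) (h : Y ⊆ Z),
  Z = {z | z ∘ Sum.inl ∈ X} →
  Y = {z | z ∘ Sum.inl ∈ X ∧ (z (Sum.inr ()) = 0 ∨ z (Sum.inr ()) = 1)} →
    ∃ P : SNC k, Nat.card P.J = 2 ∧
      ∀ i : ℤ, Nonempty ((T.h i).obj (op P.pair) ≅ (T.h i).obj (op (pr hZ hY h)))

/-- [GP d1susp] Suspension: for `X` smooth there is, for every `i`, a smooth `X'` such that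
`Dom1 N e i X` implies `Dom1 N (e+2) (i+3) X'` for all `N`, `e`. Uses `S_suspiso`, `S_suspsnc`,
`S_snc`, `S_tensmono`, `S_subq`, `S_twist`.
Proof: `h^i(X) ≅ h^{i+1}(P.pair)` and `h^{i+1}(P.pair) ⊗ L^2` embeds into `h^{i+3}(X')`
(`S_snc`). -/
def S_d1susp : Prop := ∀ {ι : Type} [Finite ι] {c : ℕ} {X : Set (ι → k)} (hX : IsSmooth c X)
  (i : ℤ), ∃ (ι' : Type) (_ : Finite ι') (c' : ℕ) (X' : Set (ι' → k)) (hX' : IsSmooth c' X'),
    ∀ (N : A) (e : ℕ), Dom1 T N e i hX.1 → Dom1 T N (e + 2) (i + 3) hX'.1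

/-- [GP sumemb] For `i ≥ 1` and nonempty `X`, `X'` the object `h^i(X) ⊕ h^i(X')` embeds into
`h^i(X × X')`.
Proof: `biprod.desc (h^i(pr_1)) (h^i(pr_2))`, with left inverse
`biprod.lift (h^i(j_1)) (h^i(j_2))`, `j_1 : x ↦ (x, x'_0)`, `j_2 : x' ↦ (x_0, x')`:
`h^i(j_1) ∘ h^i(pr_1) = id`, and `pr_2 ∘ j_1` is constant, so it factors through a point, and
`h^i(pt) = 0` for `i ≥ 1` (`bounded` for the index type `Empty` or `Fin 0`). -/
def S_sumemb : Prop := ∀ {ι ι' : Type} [Finite ι] [Finite ι'] {X : Set (ι → k)}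
  {X' : Set (ι' → k)} (hX : IsAlg X) (hX' : IsAlg X') {Y : Set (ι ⊕ ι' → k)} (hY : IsAlg Y),
  Y = {z | z ∘ Sum.inl ∈ X ∧ z ∘ Sum.inr ∈ X'} → X.Nonempty → X'.Nonempty → ∀ i : ℤ, 1 ≤ i →
    ∃ f : (T.h i).obj (op (AffPair.abs hX)) ⊞ (T.h i).obj (op (AffPair.abs hX')) ⟶
      (T.h i).obj (op (AffPair.abs hY)), Mono f

/-- [GP d1sum] If `N` and `N'` are dominated (in the sense of `Dom1`) by smooth varieties, so is
`N ⊞ N'`. Uses `S_d1gm`, `S_d1susp`, `S_sumemb`, `S_smprod`, `S_smgm`, `S_subq`, `S_twist`,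
`S_zero`.

Proof. Let `Dom1 N e i X`, `Dom1 N' e' i' X'`. If `i - e < i' - e'` apply `S_d1susp` to `X`, which
raises `i - e` by one; repeat, so that `i - e = i' - e'`. Then apply `S_d1gm` (with `S_smgm`),
which keeps `i - e` and raises `e`, to one of them until `e = e'`, `i = i'`, and then to both
until `i ≥ 1`. If `X` and `X'` are nonempty: `(N ⊞ N') ⊗ L^e ≅ (N ⊗ L^e) ⊞ (N' ⊗ L^e)`
(`MonoidalPreadditive`) is a subquotient of `h^i(X) ⊞ h^i(X')`, which embeds into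
`h^i(X × X')` (`S_sumemb`, `S_smprod`). If `X = ∅` then `h^i(X) = 0` (`S_zero`), so
`N ⊗ L^e = 0`, `N = 0` (`S_twist`) and `N ⊞ N' ≅ N'` is dominated by `X'`; similarly if
`X' = ∅`. -/
def S_d1sum : Prop := ∀ (N N' : A),
  (∃ (e : ℕ) (i : ℤ) (ι : Type) (_ : Finite ι) (c : ℕ) (X : Set (ι → k)) (hX : IsSmooth c X),
    Dom1 T N e i hX.1) →
  (∃ (e : ℕ) (i : ℤ) (ι : Type) (_ : Finite ι) (c : ℕ) (X : Set (ι → k)) (hX : IsSmooth c X),
    Dom1 T N' e i hX.1) →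
  ∃ (e : ℕ) (i : ℤ) (ι : Type) (_ : Finite ι) (c : ℕ) (X : Set (ι → k)) (hX : IsSmooth c X),
    Dom1 T (N ⊞ N') e i hX.1

/-- [GP d1all] Every object is dominated by one cohomology group of a smooth variety. Uses
`S_d1sum`, `S_snc`, `S_twist`, `S_subq`, `S_tensmono`.

Proof: by `gen`, `N` is a subquotient of `⨁_a M_a`, `M_a = h^{i_a}(P_a) ⊗ tate^{m_a}`. Each `M_a` is
dominated: `M_a ⊗ L^{m + |J|} ≅ h^i(P) ⊗ L^{|J|}` (`S_twist`) embeds into `h^{i + |J|}(X)`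
(`S_snc`). By induction on `r` (`⨁` over `Fin (r+1)` is isomorphic to `(⨁ over Fin r) ⊞ _`,
`S_d1sum`) the sum is dominated (`r = 0`: a zero object is a subquotient of anything, take the
point); and so is the subquotient `N` (`- ⊗ L^e` preserves monos and epis, `S_tensmono`). -/
def S_d1all : Prop := ∀ N : A,
  ∃ (e : ℕ) (i : ℤ) (ι : Type) (_ : Finite ι) (c : ℕ) (X : Set (ι → k)) (hX : IsSmooth c X),
    Dom1 T N e i hX.1

/-- [GP cubic1] Let `Z = {g = 0}` be smooth of codimension `c ≥ 1` in affine space and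
`V = {∑ y_j g_j = 1}`. For `i ≥ 0` there is an epimorphism `h^{i+2c-1}(V) → h^i(Z) ⊗ L^c`; for
`i < 0` the target is zero.

Proof (see also the piece `S_cubic`): `h^i(Z) ⊗ L^c ≅ h^{i+2c}(A^N, V)` (`purity`), and the
boundary `h^{i+2c-1}(V) → h^{i+2c}(A^N, V)` of the triple `(A^N, V, ∅)` is an epimorphism because
`h^{i+2c}(A^N) = 0` for `i + 2c > 0` (homotopy invariance over the point, `bounded`). For `i < 0`:
`bounded`. -/
def S_cubic1 : Prop := ∀ {ι κ : Type} [Finite ι] [Fintype κ] (g : κ → MvPolynomial ι k) (c : ℕ),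
  1 ≤ c → IsSmooth c (zl g) → ∀ i : ℤ,
    (0 ≤ i → ∃ f : (T.h (i + 2 * c - 1)).obj (op (AffPair.abs (hyp_alg g))) ⟶
      (T.h i).obj (op (AffPair.abs (zl_alg g))) ⊗ tpow T.L c, Epi f) ∧
    (i < 0 → IsZero ((T.h i).obj (op (AffPair.abs (zl_alg g)))))

end Geo1

section Geo2

variable {A : Type u} [Category.{v} A] [Abelian A] [MonoidalCategory A]
  (T : CohTheory QBar A)

/-- [GP geo1] The geometric theorem, strong form: for every object `N` there are sign quadrics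
`q_j`, `e` and `i` such that `N ⊗ L^e` is a subquotient of the single cohomology group `h^i(V)`,
`V = {∑ y_j q_j(x) = 1}`. Uses `S_d1all`, `S_quadrics`, `S_clopen`, `S_cubic1`, `S_tensmono`,
`S_subq`, `S_twist`.

Proof: `S_d1all` gives `X`, `e`, `i` with `N ⊗ L^e` a subquotient of `h^i(X)`, which is a quotient
of `h^i(U)`, `U = {q = 0}` (`S_quadrics`, `S_clopen`). Tensor with `L^{c'}` (`S_tensmono`):
`(N ⊗ L^e) ⊗ L^{c'} ≅ N ⊗ L^{e+c'}` is a subquotient of `h^i(U) ⊗ L^{c'}`, which is a quotient of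
`h^{i+2c'-1}(V)` if `i ≥ 0` (`S_cubic1`). If `i < 0` then everything is zero
(a zero object is a subquotient of every object). -/
def S_geo1 : Prop := ∀ N : A, ∃ (e n r : ℕ) (q : Fin r → MvPolynomial (Fin n) ℤ) (i : ℤ),
  (∀ j, SignQuadric (q j)) ∧
    IsSubquot (N ⊗ tpow T.L e) ((T.h i).obj (op (cubic (k := QBar) q)))

end Geo2

section Vanish

variable {A : Type u} [Category.{v} A] [Abelian A] [MonoidalCategory A] [SymmetricCategory A]

omit [MonoidalCategory A] [SymmetricCategory A] in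
/-- [GP vanish] A symbol vanishes in `FP` (everything) iff it vanishes for a trivial reason. Uses
`S_fprel`, `S_univ`, `S_psi`, `S_fincat`.

Proof. (⇐) `ω = H(i) ω'`, so `sym N ω σ = sym N' ω' (σ ∘ HB(i)) = sym N' ω' 0 = 0`. (⇒) By
`S_fincat` there is `W` with `N ∈ Lin W` and `sym N ω σ = 0` in `FP (Lin W)`; with `Q`, `σQ` of
`S_univ` and `σ = σQ ∘ HB(f)`, `f : N → Q`, we get `H(f) ω = 0` by `S_psi`. Let `N' = ker f`,
`i = kernel.ι f`. `H` is exact so `ω ∈ H(N')`; and `σ ∘ HB(i) = σQ ∘ HB(i ≫ f) = 0`. -/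
def S_vanish : Prop := ∀ {K : Type} [Field K] [CharZero K] (H : A ⥤ ModuleCat.{0} K)
  (HB : A ⥤ ModuleCat.{0} ℚ) [Linear ℚ A] [H.Additive] [HB.Additive] [HB.Faithful]
  [PreservesFiniteLimits HB] [PreservesFiniteColimits HB] [PreservesFiniteLimits H]
  [PreservesFiniteColimits H], (∀ M, Module.Finite ℚ (HB.obj M)) →
  ∀ {N : A} (ω : H.obj N) (σ : Module.Dual ℚ (HB.obj N)),
    sym H HB (S := fun _ : A => True) (N := N) trivial ω σ = 0 ↔ Trivially H HB ω σ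

/-- [GP reduce5] The reduction for single integrals: if every object has a twist which is a
subquotient of some `W ∈ 𝒲`, and the vanishing of a period of `W ∈ 𝒲` always has a trivial
reason, then `evAlg` is injective on all of `A`. Uses `S_lef`, `S_algrel`, `S_single`,
`S_fpring`, `S_fprel`, `S_evcomp` (and the proof of `S_reduce`).

Proof: let `x ∈ PerAlg` (everything) with `evAlg x = 0`; `x = asym N ω σ` (`S_fpring`,
`S_single`). Choose `W ∈ 𝒲` and `e` with `N ⊗ L^e` a subquotient of `W`. Let `ℓ = asym L ω_L σ_L` be a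
unit (`S_lef`); `x ℓ^e = asym (N ⊗ L^e) ω' σ'` (`S_algrel`, induction on `e`). Let `j : N' ↪ W`,
`p : N' ↠ N ⊗ L^e`. `H(p)` is surjective: `ω' = H(p) ω''`; `HB(j)` is injective:
`σ' ∘ HB(p) = σ̃ ∘ HB(j)`. So in `FP`: `sym (N ⊗ L^e) ω' σ' = sym N' ω'' (σ' ∘ HB(p)) =
sym W (H(j) ω'') σ̃`, and `per W (H(j) ω'') σ̃ = evAlg(x ℓ^e) = 0`. By hypothesis there is a
subobject `i : N0 ↪ W` with `H(j) ω'' = H(i) ω0`, `σ̃ ∘ HB(i) = 0`, so
`sym W (H(j) ω'') σ̃ = sym N0 ω0 0 = 0`. Hence `x ℓ^e = 0` and `x = 0`. -/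
def S_reduce5 : Prop := [Linear ℚ A] → ∀ {K : Type} [Field K] [CharZero K] [Algebra K ℂ]
  {HdR : A ⥤ ModuleCat.{0} K}
  {HB : A ⥤ ModuleCat.{0} ℚ} [FibreFunctor HdR] [FibreFunctor HB] (c : Comparison HdR HB)
  (L L' : A) (_ : L ⊗ L' ≅ 𝟙_ A) (𝒲 : A → Prop),
  (∀ N : A, ∃ (e : ℕ) (W : A), 𝒲 W ∧ IsSubquot (N ⊗ tpow L e) W) →
  (∀ W, 𝒲 W → ∀ ω σ, c.per W ω σ = 0 → Trivially HdR HB ω σ) →
    Function.Injective (c.evAlg (fun _ => True))

end Vanish

end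

end Pool.Agent.Lib.MP_ae0f86_nt
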