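import Pool.Agent.Lib.MP_ae0f86_nt.StmT
import Pool.Agent.Lib.MP_ae0f86_nt.StmU
import Pool.Agent.Lib.MP_ae0f86_nt.P.Zero
import Pool.Agent.Lib.MP_ae0f86_nt.P.TriA
import Pool.Agent.Lib.MP_ae0f86_nt.P.TriB
import Pool.Agent.Lib.MP_ae0f86_nt.P.Exc
import Pool.Agent.Lib.MP_ae0f86_nt.P.Sect
import Pool.Agent.Lib.MP_ae0f86_nt.P.Homot
import Pool.Agent.Lib.MP_ae0f86_nt.P.Contract
import Pool.Agent.Lib.MP_ae0f86_nt.P.K2
import Pool.Agent.Lib.MP_ae0f86_nt.P.AbsD
import Pool.Agent.Lib.MP_ae0f86_nt.P.ThomQI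
import Pool.Agent.Lib.MP_ae0f86_nt.P.Abs
import Pool.Agent.Lib.MP_ae0f86_nt.P.Rel
import Pool.Agent.Lib.MP_ae0f86_nt.P.Cutcard
import Pool.Agent.Lib.MP_ae0f86_nt.P.Blowcut
import Pool.Agent.Lib.MP_ae0f86_nt.P.DivX
import Pool.Agent.Lib.MP_ae0f86_nt.P.DivY
import Pool.Agent.Lib.MP_ae0f86_nt.P.Strata
import Pool.Agent.Lib.MP_ae0f86_nt.P.Blow
import Pool.Agent.Lib.MP_ae0f86_nt.P.Smprod
import Pool.Agent.Lib.MP_ae0f86_nt.P.Smgm
import Pool.Agent.Lib.MP_ae0f86_nt.P.Smgraph
import Pool.Agent.Lib.MP_ae0f86_nt.P.Smreindex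
import Pool.Agent.Lib.MP_ae0f86_nt.P.Push
import Pool.Agent.Lib.MP_ae0f86_nt.P.Tensmono
import Pool.Agent.Lib.MP_ae0f86_nt.P.Snc
import Pool.Agent.Lib.MP_ae0f86_nt.P.Fin
import Pool.Agent.Lib.MP_ae0f86_nt.P.Autext
import Pool.Agent.Lib.MP_ae0f86_nt.P.Orbit
import Pool.Agent.Lib.MP_ae0f86_nt.P.Conj
import Pool.Agent.Lib.MP_ae0f86_nt.P.Descent
import Pool.Agent.Lib.MP_ae0f86_nt.P.Slpext
import Pool.Agent.Lib.MP_ae0f86_nt.P.Slp
import Pool.Agent.Lib.MP_ae0f86_nt.P.Quadrics
import Pool.Agent.Lib.MP_ae0f86_nt.P.Subq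
import Pool.Agent.Lib.MP_ae0f86_nt.P.Subsum
import Pool.Agent.Lib.MP_ae0f86_nt.P.Twist
import Pool.Agent.Lib.MP_ae0f86_nt.P.Clopen
import Pool.Agent.Lib.MP_ae0f86_nt.P.Gmsub
import Pool.Agent.Lib.MP_ae0f86_nt.P.Fprel
import Pool.Agent.Lib.MP_ae0f86_nt.P.Single
import Pool.Agent.Lib.MP_ae0f86_nt.P.Univ
import Pool.Agent.Lib.MP_ae0f86_nt.P.Lincl
import Pool.Agent.Lib.MP_ae0f86_nt.P.Psi
import Pool.Agent.Lib.MP_ae0f86_nt.P.Fincat
import Pool.Agent.Lib.MP_ae0f86_nt.P.Heredity
import Pool.Agent.Lib.MP_ae0f86_nt.P.Rank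
import Pool.Agent.Lib.MP_ae0f86_nt.P.Endbetti
import Pool.Agent.Lib.MP_ae0f86_nt.P.Range
import Pool.Agent.Lib.MP_ae0f86_nt.P.Linear
import Pool.Agent.Lib.MP_ae0f86_nt.P.Algrel
import Pool.Agent.Lib.MP_ae0f86_nt.P.Fpring
import Pool.Agent.Lib.MP_ae0f86_nt.P.Evcomp
import Pool.Agent.Lib.MP_ae0f86_nt.P.Genclosed
import Pool.Agent.Lib.MP_ae0f86_nt.P.Lef
import Pool.Agent.Lib.MP_ae0f86_nt.P.Reduce
import Pool.Agent.Lib.MP_ae0f86_nt.P.HerAlg
import Pool.Agent.Lib.MP_ae0f86_nt.P.Points
import Pool.Agent.Lib.MP_ae0f86_nt.P.Dualbasis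
import Pool.Agent.Lib.MP_ae0f86_nt.P.Xmat
import Pool.Agent.Lib.MP_ae0f86_nt.P.Gens
import Pool.Agent.Lib.MP_ae0f86_nt.P.Fintype
import Pool.Agent.Lib.MP_ae0f86_nt.P.Pointbij
import Pool.Agent.Lib.MP_ae0f86_nt.P.Theta
import Pool.Agent.Lib.MP_ae0f86_nt.P.Phi
import Pool.Agent.Lib.MP_ae0f86_nt.P.Base
import Pool.Agent.Lib.MP_ae0f86_nt.P.Nullst
import Pool.Agent.Lib.MP_ae0f86_nt.P.Lead
import Pool.Agent.Lib.MP_ae0f86_nt.P.Leadphi
import Pool.Agent.Lib.MP_ae0f86_nt.P.Cartier
import Pool.Agent.Lib.MP_ae0f86_nt.P.Conn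
import Pool.Agent.Lib.MP_ae0f86_nt.P.Intdim
import Pool.Agent.Lib.MP_ae0f86_nt.P.Fgdim
import Pool.Agent.Lib.MP_ae0f86_nt.P.Surjdim
import Pool.Agent.Lib.MP_ae0f86_nt.P.Trdeg
import Pool.Agent.Lib.MP_ae0f86_nt.P.Perfield
import Pool.Agent.Lib.MP_ae0f86_nt.P.Basedim
import Pool.Agent.Lib.MP_ae0f86_nt.P.Domain
import Pool.Agent.Lib.MP_ae0f86_nt.P.Q1
import Pool.Agent.Lib.MP_ae0f86_nt.P.D1gm
import Pool.Agent.Lib.MP_ae0f86_nt.P.Suspiso
import Pool.Agent.Lib.MP_ae0f86_nt.P.Suspsnc
import Pool.Agent.Lib.MP_ae0f86_nt.P.D1susp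
import Pool.Agent.Lib.MP_ae0f86_nt.P.Sumemb
import Pool.Agent.Lib.MP_ae0f86_nt.P.D1sum
import Pool.Agent.Lib.MP_ae0f86_nt.P.D1all
import Pool.Agent.Lib.MP_ae0f86_nt.P.Cubic1
import Pool.Agent.Lib.MP_ae0f86_nt.P.Geo1
import Pool.Agent.Lib.MP_ae0f86_nt.P.Vanish
import Pool.Agent.Lib.MP_ae0f86_nt.P.Reduce5

/-!
# MP_ae0f86_nt : assembly
-/

open CategoryTheory CategoryTheory.Limits Opposite MonoidalCategory

universe v u

namespace Pool.Agent.Lib.MP_ae0f86_nt

attribute [local instance] CategoryTheory.Abelian.hasFiniteBiproducts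

section Geo

variable {A : Type u} [Category.{v} A] [Abelian A] [MonoidalCategory A]
  [MonoidalPreadditive A] [SymmetricCategory A] (T : CohTheory QBar A)

theorem main_geo1 : S_geo1 T := by
  have hcut : S_cutcard QBar := p_cutcard
  have hblowcut : S_blowcut QBar := p_blowcut hcut
  have hdivX : S_divX QBar := p_divX hblowcut
  have hdivY : S_divY QBar := p_divY hcut
  have hstrata : S_strata QBar := p_strata hcut
  have hblow : S_blow QBar := p_blow hblowcut
  have zero : S_zero T := p_zero T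
  have triA : S_triA T := p_triA T
  have triB : S_triB T := p_triB T
  have exc : S_exc T := p_exc T
  have sect : S_sect T := p_sect T
  have homot : S_homot T := p_homot T sect
  have contract : S_contract T := p_contract T zero exc sect triB
  have k2 : S_k2 T := p_k2 T zero exc contract
  have absD : S_absD T := p_absD T homot
  have thomQI : S_thomQI T := p_thomQI T
  have abs : S_abs T := p_abs T exc absD thomQI triA hdivX hdivY
  have rel : S_rel T := p_rel T exc triB abs hstrata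
  have push : S_push T hblow := p_push T hblow k2 rel hstrata
  have tensmono : S_tensmono T := p_tensmono T
  have snc : S_snc T := p_snc T hblow push tensmono
  have subq : S_subq A := p_subq
  have twist : S_twist T := p_twist T
  have clopen : S_clopen T := p_clopen T exc
  have gmsub : S_gmsub T := p_gmsub T k2
  have d1gm : S_d1gm T := p_d1gm T gmsub tensmono subq
  have d1susp : S_d1susp T := p_d1susp T (p_suspiso T exc sect zero) (p_suspsnc T hcut) snc tensmono subq
    twist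
  have d1sum : S_d1sum T := p_d1sum T d1gm d1susp (p_sumemb T) (p_smprod hcut) (p_smgm hcut) subq twist zero
  have d1all : S_d1all T := p_d1all T d1sum snc twist subq tensmono
  have descent : S_descent := p_descent p_fin (p_orbit p_autext) p_conj hcut
  have quadrics : S_quadrics := p_quadrics descent (p_slp p_slpext) (p_smgraph hcut) p_smreindex
  exact p_geo1 T d1all quadrics clopen (p_cubic1 T) tensmono subq twist

end Geo

section Main

variable {A : Type u} [Category.{v} A] [Abelian A] [Linear ℚ A] [MonoidalCategory A]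
  [MonoidalPreadditive A] [SymmetricCategory A] [RigidCategory A]
  {HdR : A ⥤ ModuleCat.{0} QBar} {HB : A ⥤ ModuleCat.{0} ℚ} [FibreFunctor HdR]
  [FibreFunctor HB] (c : Comparison HdR HB)

theorem main_q1 : S_q1 c := by
  have subq : S_subq A := p_subq
  have subsum : S_subsum A := p_subsum subq
  have genclosed : S_genclosed (A := A) := p_genclosed subq subsum
  have algrel : S_algrel (A := A) := p_algrel
  have xmat : S_xmat HdR HB := p_xmat HdR HB (p_dualbasis HdR) (p_dualbasis HB) algrel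
  have gens : S_gens HdR HB := p_gens HdR HB xmat algrel genclosed
  have fintype : S_fintype HdR HB := p_fintype HdR HB gens
  have pointbij : S_pointbij HdR HB := p_pointbij HdR HB xmat
  have theta : S_theta HdR HB := p_theta HdR HB pointbij algrel
  have phi : S_phi HdR HB := p_phi HdR HB theta (p_points HdR HB) algrel
  have base : S_base HdR HB := p_base HdR HB pointbij (p_points HB HB) (p_points HdR HB) algrel
  have perfield : S_perfield c := p_perfield c gens xmat
  have basedim : S_basedim (HdR := HdR) (HB := HB) :=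
    p_basedim base fintype p_nullst p_intdim genclosed
  have domain : S_domain (HdR := HdR) (HB := HB) :=
    p_domain p_conn (p_cartier p_lead p_leadphi) phi p_nullst fintype genclosed
  exact p_q1 c domain basedim perfield p_trdeg (p_fgdim p_intdim) (p_fgdim p_intdim) p_surjdim
    fintype

theorem evInjective_iff : EvInjective c ↔ Function.Injective (c.evAlg (fun _ : A => True)) := by
  rw [injective_iff_map_eq_zero]
  constructor
  · intro h x hx
    obtain ⟨p, rfl⟩ := Ideal.Quotient.mk_surjective x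
    exact Ideal.Quotient.eq_zero_iff_mem.2 (h p hx)
  · intro h p hp
    exact Ideal.Quotient.eq_zero_iff_mem.1 (h (Ideal.Quotient.mk _ p) hp)

theorem main (T : CohTheory QBar A) : List.TFAE [
    ∀ M : A, PeriodConjecture c M,
    EvInjective c,
    ForCubics T (PeriodConjecture c),
    ForCubics T (PeriodDimension c),
    ForCubics T (VanishTrivially c)] := by
  rw [evInjective_iff]
  have subq : S_subq A := p_subq
  have subsum : S_subsum A := p_subsum subq
  have genclosed : S_genclosed (A := A) := p_genclosed subq subsum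
  have algrel : S_algrel (A := A) := p_algrel
  have lincl : S_lincl A := p_lincl subq subsum
  have fprel : ∀ {K : Type} [Field K] (H : A ⥤ ModuleCat.{0} K) (HB : A ⥤ ModuleCat.{0} ℚ),
      S_fprel H HB := fun H HB => p_fprel H HB
  have single : ∀ {K : Type} [Field K] (H : A ⥤ ModuleCat.{0} K) (HB : A ⥤ ModuleCat.{0} ℚ),
      S_single H HB := fun H HB => p_single H HB (fprel H HB)
  have univ : ∀ HB : A ⥤ ModuleCat.{0} ℚ, S_univ HB := fun HB => p_univ HB subq
  have psi : ∀ {K : Type} [Field K] (H : A ⥤ ModuleCat.{0} K) (HB : A ⥤ ModuleCat.{0} ℚ),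
      S_psi H HB := fun H HB => p_psi H HB (fprel H HB) (single H HB) lincl
  have fincat : ∀ {K : Type} [Field K] (H : A ⥤ ModuleCat.{0} K)
      (HB : A ⥤ ModuleCat.{0} ℚ), S_fincat H HB := fun H HB => p_fincat H HB lincl
  have heredity : ∀ {K : Type} [Field K] (H : A ⥤ ModuleCat.{0} K)
      (HB : A ⥤ ModuleCat.{0} ℚ), S_heredity H HB := fun H HB =>
    p_heredity H HB (fprel H HB) (single H HB) (univ HB) (psi H HB) (fincat H HB)
  have linear : S_linear (A := A) := p_linear univ psi p_rank (p_endbetti subq) p_range lincl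
  have fpring : S_fpring (A := A) := p_fpring fprel single algrel
  have evcomp : S_evcomp (A := A) := p_evcomp fpring
  have lef : S_lef (A := A) := p_lef algrel
  have reduce : S_reduce (A := A) := p_reduce lef algrel single fpring fprel evcomp
  have reduce5 : S_reduce5 (A := A) := p_reduce5 lef algrel single fpring fprel evcomp
  have vanish : S_vanish (A := A) := p_vanish fprel univ psi fincat
  have herAlg : S_herAlg (A := A) := p_herAlg heredity fpring evcomp single algrel genclosed lincl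
  have q1 : S_q1 c := main_q1 c
  have geo : S_geo1 T := main_geo1 T
  have top : Function.Injective (c.evAlg (fun _ : A => True)) →
      Function.Injective (c.ev (fun _ : A => True)) := ((evcomp c _).2 genclosed.2.1).1
  -- consequences of injectivity on everything
  have down : Function.Injective (c.evAlg (fun _ : A => True)) →
      ∀ S : A → Prop, TClosed S → Function.Injective (c.evAlg S) := by
    intro h S hS
    have h2 : Function.Injective (c.ev S) :=
      (herAlg c).1 S _ (fun _ _ => trivial) hS.toClosed genclosed.2.1.toClosed (top h)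
    exact ((evcomp c S).2 hS).2 h2
  have lin : ∀ W : A, Function.Injective (c.evAlg (Gen W)) →
      Function.Injective (c.ev (Lin W)) := by
    intro W h
    have h1 : Function.Injective (c.ev (Gen W)) := ((evcomp c _).2 (genclosed.1 W)).1 h
    exact (herAlg c).1 (Lin W) (Gen W) (genclosed.2.2.1 W) (lincl.1 W)
      (genclosed.1 W).toClosed h1
  tfae_have 1 → 2 := fun h => (herAlg c).2 fun M => (q1 M).1 (h M)
  tfae_have 2 → 1 := fun h M => (q1 M).2 (down h _ (genclosed.1 M))
  tfae_have 1 → 3 := fun h n r q _ i => h _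
  tfae_have 3 → 4 := fun h n r q hq i =>
    (linear c _).1 (lin _ ((q1 _).1 (h n r q hq i)))
  tfae_have 4 → 2 := by
    intro h
    refine reduce c T.L T.tate T.tateIso
      (fun W => ∃ (n r : ℕ) (q : Fin r → MvPolynomial (Fin n) ℤ) (i : ℤ),
        (∀ j, SignQuadric (q j)) ∧ W = (T.h i).obj (op (cubic q))) ?_ ?_
    · intro N
      obtain ⟨e, n, r, q, i, hq, N', j, p, hj, hp⟩ := geo N
      have h1 := (lincl.1 ((T.h i).obj (op (cubic (k := QBar) q)))).sub j (lincl.2.1 _)
      exact ⟨e, _, ⟨n, r, q, i, hq, rfl⟩, (lincl.1 _).quot p h1⟩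
    · rintro W ⟨n, r, q, i, hq, rfl⟩
      exact (linear c _).2 (h n r q hq i)
  tfae_have 2 → 5 := by
    intro h n r q hq i ω σ hz
    have h1 : sym HdR HB (S := fun _ : A => True) trivial ω σ = 0 := by
      apply top h
      rw [map_zero]
      simpa [sym, Comparison.ev] using hz
    exact (vanish HdR HB (fun M => inferInstance) ω σ).1 h1
  tfae_have 5 → 2 := by
    intro h
    refine reduce5 c T.L T.tate T.tateIso
      (fun W => ∃ (n r : ℕ) (q : Fin r → MvPolynomial (Fin n) ℤ) (i : ℤ),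
        (∀ j, SignQuadric (q j)) ∧ W = (T.h i).obj (op (cubic q))) ?_ ?_
    · intro N
      obtain ⟨e, n, r, q, i, hq, hN⟩ := geo N
      exact ⟨e, _, ⟨n, r, q, i, hq, rfl⟩, hN⟩
    · rintro W ⟨n, r, q, i, hq, rfl⟩ ω σ hz
      exact h n r q hq i ω σ hz
  tfae_finish

end Main

end Pool.Agent.Lib.MP_ae0f86_nt
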