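import Mathlib

/-!
# MP_ae0f86_nt : pairs of affine algebraic sets

Coordinates of affine spaces are indexed by arbitrary finite types.
-/

open CategoryTheory CategoryTheory.Limits MvPolynomial Opposite

namespace Pool.Agent.Lib.MP_ae0f86_nt

noncomputable section

variable {k : Type} [Field k]

/-- `X ⊆ k^ι` is an algebraic set: the common zero locus of a set of polynomials. -/
def IsAlg {ι : Type} (X : Set (ι → k)) : Prop :=
  ∃ S : Set (MvPolynomial ι k), X = {x | ∀ f ∈ S, eval x f = 0}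

/-- `f : X → X'` is given by polynomials. -/
def IsPoly {ι κ : Type} (X : Set (ι → k)) (X' : Set (κ → k)) (f : X → X') : Prop :=
  ∃ F : κ → MvPolynomial ι k, ∀ (x : X) (j : κ), (f x : κ → k) j = eval (x : ι → k) (F j)

/-- A pair `(X, Y)` of algebraic sets `Y ⊆ X ⊆ k^ι`. -/
structure AffPair (k : Type) [Field k] : Type 1 where
  /-- index set of the coordinates -/
  ι : Type
  fin : Finite ι
  /-- the variety -/
  X : Set (ι → k)
  /-- the closed subvariety -/
  Y : Set (ι → k)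
  algX : IsAlg X
  algY : IsAlg Y
  sub : Y ⊆ X

/-- A morphism of pairs `(X, Y) ⟶ (X', Y')`: a polynomial map `X → X'` sending `Y` into `Y'`. -/
@[ext]
structure AffPair.Hom (P Q : AffPair k) where
  /-- the map -/
  toFun : P.X → Q.X
  poly : IsPoly P.X Q.X toFun
  maps : ∀ x : P.X, (x : P.ι → k) ∈ P.Y → (toFun x : Q.ι → k) ∈ Q.Y

theorem IsPoly.id {ι : Type} (X : Set (ι → k)) : IsPoly X X (fun x => x) :=
  ⟨fun j => MvPolynomial.X j, fun x j => by simp⟩

theorem IsPoly.comp {ι κ μ : Type} {X : Set (ι → k)} {Y : Set (κ → k)} {Z : Set (μ → k)}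
    {f : X → Y} {g : Y → Z} (hg : IsPoly Y Z g) (hf : IsPoly X Y f) :
    IsPoly X Z (fun x => g (f x)) := by
  obtain ⟨F, hF⟩ := hf
  obtain ⟨G, hG⟩ := hg
  refine ⟨fun j => bind₁ F (G j), fun x j => ?_⟩
  rw [hG, ← MvPolynomial.coe_aeval_eq_eval, ← MvPolynomial.coe_aeval_eq_eval, RingHom.coe_coe,
    RingHom.coe_coe, MvPolynomial.aeval_bind₁]
  congr 2
  funext i
  rw [hF, ← MvPolynomial.coe_aeval_eq_eval, RingHom.coe_coe]

/-- The inclusion of algebraic sets in the same affine space is given by polynomials. -/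
theorem IsPoly.incl {ι : Type} {X X' : Set (ι → k)} (h : X ⊆ X') :
    IsPoly X X' (fun x => ⟨x, h x.2⟩) :=
  ⟨fun j => MvPolynomial.X j, fun x j => by simp⟩

/-- The restriction of a polynomial map is a polynomial map. -/
theorem IsPoly.restrict {ι κ : Type} {X Y : Set (ι → k)} {X' Y' : Set (κ → k)} {f : X → X'}
    (hf : IsPoly X X' f) (h : Y ⊆ X) (h' : ∀ x : Y, (f ⟨x, h x.2⟩ : κ → k) ∈ Y') :
    IsPoly Y Y' (fun x => ⟨f ⟨x, h x.2⟩, h' x⟩) := by
  obtain ⟨F, hF⟩ := hf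
  exact ⟨F, fun x j => hF _ j⟩

/-- The identity. -/
abbrev AffPair.Hom.id (P : AffPair k) : AffPair.Hom P P := ⟨fun x => x, IsPoly.id P.X, fun _ h => h⟩

/-- The composition. -/
abbrev AffPair.Hom.comp {P Q R : AffPair k} (f : AffPair.Hom P Q) (g : AffPair.Hom Q R) :
    AffPair.Hom P R :=
  ⟨fun x => g.toFun (f.toFun x), g.poly.comp f.poly, fun x hx => g.maps _ (f.maps x hx)⟩

instance : Category (AffPair k) where
  Hom P Q := AffPair.Hom P Q
  id P := AffPair.Hom.id P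
  comp f g := AffPair.Hom.comp f g
  id_comp _ := rfl
  comp_id _ := rfl
  assoc _ _ _ := rfl

@[simp] theorem AffPair.id_toFun (P : AffPair k) : AffPair.Hom.toFun (𝟙 P) = fun x => x := rfl

@[simp] theorem AffPair.comp_toFun {P Q R : AffPair k} (f : P ⟶ Q) (g : Q ⟶ R) :
    AffPair.Hom.toFun (f ≫ g) = fun x => AffPair.Hom.toFun g (AffPair.Hom.toFun f x) := rfl

theorem AffPair.hom_ext {P Q : AffPair k} (f g : P ⟶ Q)
    (h : ∀ x : P.X, (AffPair.Hom.toFun f x : Q.ι → k) = AffPair.Hom.toFun g x) : f = g :=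
  AffPair.Hom.ext (funext fun x => Subtype.ext (h x))

/-- The morphism of pairs given by polynomials `F j`. -/
def AffPair.mk' (P Q : AffPair k) (F : Q.ι → MvPolynomial P.ι k)
    (hX : ∀ x ∈ P.X, (fun j => eval x (F j)) ∈ Q.X)
    (hY : ∀ x ∈ P.Y, (fun j => eval x (F j)) ∈ Q.Y) : P ⟶ Q :=
  ⟨fun x => ⟨fun j => eval (x : P.ι → k) (F j), hX x x.2⟩, ⟨F, fun _ _ => rfl⟩,
    fun x hx => hY x hx⟩

/-! ### algebraic sets -/

theorem IsAlg.univ {ι : Type} : IsAlg (Set.univ : Set (ι → k)) := ⟨∅, by simp⟩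

theorem IsAlg.empty {ι : Type} : IsAlg (∅ : Set (ι → k)) := ⟨{1}, by simp⟩

theorem IsAlg.inter {ι : Type} {X Y : Set (ι → k)} (hX : IsAlg X) (hY : IsAlg Y) :
    IsAlg (X ∩ Y) := by
  obtain ⟨S, rfl⟩ := hX
  obtain ⟨T, rfl⟩ := hY
  refine ⟨S ∪ T, ?_⟩
  ext x
  simp only [Set.mem_inter_iff, Set.mem_ofPred_eq, Set.mem_union]
  constructor
  · rintro ⟨h1, h2⟩ f (hf | hf)
    · exact h1 f hf
    · exact h2 f hf
  · intro h
    exact ⟨fun f hf => h f (Or.inl hf), fun f hf => h f (Or.inr hf)⟩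

theorem IsAlg.union {ι : Type} {X Y : Set (ι → k)} (hX : IsAlg X) (hY : IsAlg Y) :
    IsAlg (X ∪ Y) := by
  obtain ⟨S, rfl⟩ := hX
  obtain ⟨T, rfl⟩ := hY
  refine ⟨{h | ∃ f ∈ S, ∃ g ∈ T, h = f * g}, ?_⟩
  ext x
  simp only [Set.mem_union, Set.mem_ofPred_eq]
  constructor
  · rintro (h | h) _ ⟨f, hf, g, hg, rfl⟩
    · rw [map_mul, h f hf, zero_mul]
    · rw [map_mul, h g hg, mul_zero]
  · intro h
    by_contra hc
    push Not at hc
    obtain ⟨⟨f, hf, hf0⟩, ⟨g, hg, hg0⟩⟩ := hc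
    have := h (f * g) ⟨f, hf, g, hg, rfl⟩
    rw [map_mul] at this
    exact (mul_ne_zero hf0 hg0) this

theorem IsAlg.zero {ι : Type} (f : MvPolynomial ι k) : IsAlg {x : ι → k | eval x f = 0} :=
  ⟨{f}, by simp⟩

theorem IsAlg.zeros {ι κ : Type} (g : κ → MvPolynomial ι k) :
    IsAlg {x : ι → k | ∀ j, eval x (g j) = 0} :=
  ⟨Set.range g, by simp⟩

/-- The preimage of an algebraic set under a polynomial map `k^ι → k^κ` is algebraic. -/
theorem IsAlg.preimage {ι κ : Type} {Y : Set (κ → k)} (hY : IsAlg Y)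
    (F : κ → MvPolynomial ι k) : IsAlg {x : ι → k | (fun j => eval x (F j)) ∈ Y} := by
  obtain ⟨T, rfl⟩ := hY
  refine ⟨{h | ∃ g ∈ T, h = bind₁ F g}, ?_⟩
  ext x
  simp only [Set.mem_ofPred_eq]
  have key : ∀ g : MvPolynomial κ k, eval x (bind₁ F g) = eval (fun j => eval x (F j)) g := by
    intro g
    rw [← MvPolynomial.coe_aeval_eq_eval, ← MvPolynomial.coe_aeval_eq_eval, RingHom.coe_coe,
      RingHom.coe_coe, MvPolynomial.aeval_bind₁]
  constructor
  · rintro h _ ⟨g, hg, rfl⟩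
    rw [key]; exact h g hg
  · intro h g hg
    rw [← key]; exact h _ ⟨g, hg, rfl⟩

/-- Cylinder over an algebraic set. -/
theorem IsAlg.cyl {ι κ : Type} {X : Set (ι → k)} (hX : IsAlg X) :
    IsAlg {z : ι ⊕ κ → k | z ∘ Sum.inl ∈ X} := by
  have := hX.preimage (ι := ι ⊕ κ) (fun j => MvPolynomial.X (Sum.inl j))
  convert this using 2
  funext z
  simp [Function.comp_def]

theorem IsAlg.iUnion {ι J : Type} [Finite J] {Y : J → Set (ι → k)} (hY : ∀ j, IsAlg (Y j)) :
    IsAlg (⋃ j, Y j) := by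
  classical
  have := Fintype.ofFinite J
  have : ∀ s : Finset J, IsAlg (⋃ j ∈ s, Y j) := by
    intro s
    induction s using Finset.induction_on with
    | empty => simpa using IsAlg.empty
    | insert a s _ ih =>
      rw [Finset.set_biUnion_insert]
      exact (hY a).union ih
  have h := this Finset.univ
  simpa using h

theorem IsAlg.iInter {ι J : Type} {Y : J → Set (ι → k)} (hY : ∀ j, IsAlg (Y j)) :
    IsAlg (⋂ j, Y j) := by
  choose S hS using hY
  refine ⟨⋃ j, S j, ?_⟩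
  ext x
  simp only [Set.mem_iInter, Set.mem_iUnion, Set.mem_ofPred_eq]
  constructor
  · rintro h f ⟨j, hf⟩
    have := h j
    rw [hS j] at this
    exact this f hf
  · intro h j
    rw [hS j]
    exact fun f hf => h f ⟨j, hf⟩

/-- The pair `(X, ∅)`. -/
abbrev AffPair.abs {ι : Type} [Finite ι] {X : Set (ι → k)} (hX : IsAlg X) : AffPair k :=
  ⟨ι, inferInstance, X, ∅, hX, IsAlg.empty, Set.empty_subset _⟩

/-! ### triples -/

/-- A triple `Z ⊆ Y ⊆ X ⊆ k^ι` of algebraic sets. -/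
structure AffTriple (k : Type) [Field k] : Type 1 where
  /-- index set of the coordinates -/
  ι : Type
  fin : Finite ι
  /-- the variety -/
  X : Set (ι → k)
  /-- the middle subvariety -/
  Y : Set (ι → k)
  /-- the small subvariety -/
  Z : Set (ι → k)
  algX : IsAlg X
  algY : IsAlg Y
  algZ : IsAlg Z
  subY : Y ⊆ X
  subZ : Z ⊆ Y

namespace AffTriple

variable (T : AffTriple k)

/-- The pair `(X, Y)`. -/
abbrev XY : AffPair k := ⟨T.ι, T.fin, T.X, T.Y, T.algX, T.algY, T.subY⟩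

/-- The pair `(X, Z)`. -/
abbrev XZ : AffPair k := ⟨T.ι, T.fin, T.X, T.Z, T.algX, T.algZ, T.subZ.trans T.subY⟩

/-- The pair `(Y, Z)`. -/
abbrev YZ : AffPair k := ⟨T.ι, T.fin, T.Y, T.Z, T.algY, T.algZ, T.subZ⟩

/-- The inclusion `(Y, Z) ⟶ (X, Z)`. -/
def incl : T.YZ ⟶ T.XZ :=
  ⟨fun x => ⟨x, T.subY x.2⟩, IsPoly.incl T.subY, fun _ h => h⟩

/-- The map `(X, Z) ⟶ (X, Y)`. -/
def quot : T.XZ ⟶ T.XY :=
  ⟨fun x => x, IsPoly.id T.X, fun _ h => T.subZ h⟩

/-- A morphism of triples: a polynomial map `X → X'` sending `Y` to `Y'` and `Z` to `Z'`. -/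
structure Hom (T T' : AffTriple k) where
  /-- the map -/
  toFun : T.X → T'.X
  poly : IsPoly T.X T'.X toFun
  mapsY : ∀ x : T.X, (x : T.ι → k) ∈ T.Y → (toFun x : T'.ι → k) ∈ T'.Y
  mapsZ : ∀ x : T.X, (x : T.ι → k) ∈ T.Z → (toFun x : T'.ι → k) ∈ T'.Z

variable {T} {T' : AffTriple k}

/-- The map `(X, Y) ⟶ (X', Y')` of a morphism of triples. -/
def Hom.XY (f : T.Hom T') : T.XY ⟶ T'.XY := ⟨f.toFun, f.poly, f.mapsY⟩

/-- The map `(X, Z) ⟶ (X', Z')` of a morphism of triples. -/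
def Hom.XZ (f : T.Hom T') : T.XZ ⟶ T'.XZ := ⟨f.toFun, f.poly, f.mapsZ⟩

/-- The map `(Y, Z) ⟶ (Y', Z')` of a morphism of triples. -/
def Hom.YZ (f : T.Hom T') : T.YZ ⟶ T'.YZ :=
  ⟨fun x => ⟨f.toFun ⟨x, T.subY x.2⟩, f.mapsY _ x.2⟩, f.poly.restrict T.subY fun x => f.mapsY _ x.2,
    fun _ hx => f.mapsZ _ hx⟩

end AffTriple

/-! ### constructions -/

namespace AffPair

/-- `(X × A^κ, Y × A^κ)`. -/
abbrev cyl (P : AffPair k) (κ : Type) [Finite κ] : AffPair k :=
  haveI := P.fin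
  ⟨P.ι ⊕ κ, inferInstance, {z | z ∘ Sum.inl ∈ P.X}, {z | z ∘ Sum.inl ∈ P.Y}, P.algX.cyl,
    P.algY.cyl, fun _ h => P.sub h⟩

/-- The projection `(X × A^κ, Y × A^κ) ⟶ (X, Y)`. -/
def proj (P : AffPair k) (κ : Type) [Finite κ] : P.cyl κ ⟶ P :=
  ⟨fun z => ⟨(z : P.ι ⊕ κ → k) ∘ Sum.inl, z.2⟩,
    ⟨fun j => MvPolynomial.X (Sum.inl j), fun x j => by simp⟩, fun _ h => h⟩

/-- The pair `(S, S ∩ T)`. -/
abbrev capPair {ι : Type} [Finite ι] {S T : Set (ι → k)} (hS : IsAlg S) (hT : IsAlg T) :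
    AffPair k :=
  ⟨ι, inferInstance, S, S ∩ T, hS, hS.inter hT, Set.inter_subset_left⟩

/-- The pair `(S ∪ T, T)`. -/
abbrev cupPair {ι : Type} [Finite ι] {S T : Set (ι → k)} (hS : IsAlg S) (hT : IsAlg T) :
    AffPair k :=
  ⟨ι, inferInstance, S ∪ T, T, hS.union hT, hT, Set.subset_union_right⟩

/-- The closed excision map `(S, S ∩ T) ⟶ (S ∪ T, T)`. -/
def exc {ι : Type} [Finite ι] {S T : Set (ι → k)} (hS : IsAlg S) (hT : IsAlg T) :
    capPair hS hT ⟶ cupPair hS hT :=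
  ⟨fun x => ⟨x, Or.inl x.2⟩, IsPoly.incl fun _ h => Or.inl h, fun _ h => h.2⟩

/-- `(X × G_m, Y × G_m ∪ X × {1})`, where `G_m = {(u, w) | u w = 1}`. -/
abbrev gm (P : AffPair k) : AffPair k :=
  haveI := P.fin
  ⟨P.ι ⊕ Fin 2, inferInstance,
    {z | z ∘ Sum.inl ∈ P.X ∧ z (Sum.inr 0) * z (Sum.inr 1) = 1},
    {z | z ∘ Sum.inl ∈ P.X ∧ z (Sum.inr 0) * z (Sum.inr 1) = 1 ∧
      (z ∘ Sum.inl ∈ P.Y ∨ z (Sum.inr 0) = 1)},
    by
      have h := (P.algX.cyl (κ := Fin 2)).inter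
        (IsAlg.zero (MvPolynomial.X (Sum.inr 0) * MvPolynomial.X (Sum.inr 1) - 1 :
          MvPolynomial (P.ι ⊕ Fin 2) k))
      convert h using 1
      ext z
      simp [sub_eq_zero],
    by
      have h := ((P.algX.cyl (κ := Fin 2)).inter
        (IsAlg.zero (MvPolynomial.X (Sum.inr 0) * MvPolynomial.X (Sum.inr 1) - 1 :
          MvPolynomial (P.ι ⊕ Fin 2) k))).inter
        ((P.algY.cyl (κ := Fin 2)).union (IsAlg.zero (MvPolynomial.X (Sum.inr 0) - 1 :
          MvPolynomial (P.ι ⊕ Fin 2) k)))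
      convert h using 1
      ext z
      simp [sub_eq_zero, and_assoc],
    fun _ h => ⟨h.1, h.2.1⟩⟩

/-- The pair `(G_m, {1})` with `G_m = {(u, w) | u w = 1}`. -/
def gmOne : AffPair k :=
  ⟨Fin 2, inferInstance, {z | z 0 * z 1 = 1}, {z | z 0 * z 1 = 1 ∧ z 0 = 1},
    by
      have h := IsAlg.zero (MvPolynomial.X 0 * MvPolynomial.X 1 - 1 : MvPolynomial (Fin 2) k)
      convert h using 1
      ext z
      simp [sub_eq_zero],
    by
      have h := (IsAlg.zero (MvPolynomial.X 0 * MvPolynomial.X 1 - 1 :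
        MvPolynomial (Fin 2) k)).inter (IsAlg.zero (MvPolynomial.X 0 - 1))
      convert h using 1
      ext z
      simp [sub_eq_zero],
    fun _ h => h.1⟩

end AffPair

/-! ### smoothness -/

/-- The gradient of `f` at `x`. -/
def grad {ι : Type} (x : ι → k) (f : MvPolynomial ι k) : ι → k := fun i => eval x (pderiv i f)

/-- Near the point `x` (on the open set `s ≠ 0`) the set `X` is the zero locus of `c`
polynomials `p a` whose gradients at `x`, together with the gradients of the polynomials `l j`,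
are linearly independent.  For an empty family `l` this says that `X` is smooth of codimension
`c` at `x` (if `x ∈ X`). -/
def Cut {ι : Type} (c : ℕ) (X : Set (ι → k)) (x : ι → k) {J : Type}
    (l : J → MvPolynomial ι k) : Prop :=
  ∃ (p : Fin c → MvPolynomial ι k) (s : MvPolynomial ι k), eval x s ≠ 0 ∧
    (∀ z, eval z s ≠ 0 → (z ∈ X ↔ ∀ a, eval z (p a) = 0)) ∧
    LinearIndependent k (Sum.elim (fun a => grad x (p a)) (fun j => grad x (l j)))

/-- `X` is a smooth closed subvariety of `k^ι` of codimension `c` at each of its points. -/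
def IsSmooth {ι : Type} (c : ℕ) (X : Set (ι → k)) : Prop :=
  IsAlg X ∧ ∀ x ∈ X, Cut c X x (fun e : Empty => e.elim)

/-- A smooth affine variety `W` of pure codimension `c` in `k^ι` with a function `t` whose zero
divisor `D = {t = 0}` is smooth and reduced: `dt` does not vanish on `T_x W` for `x ∈ D`. -/
structure DivPair (k : Type) [Field k] : Type 1 where
  /-- index set of the coordinates -/
  ι : Type
  fin : Finite ι
  /-- the variety -/
  W : Set (ι → k)
  algW : IsAlg W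
  /-- the function -/
  t : MvPolynomial ι k
  /-- the codimension of `W` -/
  c : ℕ
  cut : ∀ x ∈ W, Cut c W x (fun _ : {_u : Unit // eval x t = 0} => t)

namespace DivPair

/-- The divisor `D = {t = 0}`, as a pair `(D, ∅)`. -/
abbrev D (P : DivPair k) : AffPair k :=
  haveI := P.fin
  AffPair.abs (P.algW.inter (IsAlg.zero P.t))

/-- The pair `(W × A^1, {(x, w) | w t(x) = 1})`; the closed subset is isomorphic to `W ∖ D`. -/
abbrev U (P : DivPair k) : AffPair k :=
  haveI := P.fin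
  ⟨P.ι ⊕ Unit, inferInstance, {z | z ∘ Sum.inl ∈ P.W},
    {z | z ∘ Sum.inl ∈ P.W ∧ z (Sum.inr ()) * eval (z ∘ Sum.inl) P.t = 1}, P.algW.cyl,
    by
      have h := (P.algW.cyl (κ := Unit)).inter
        (IsAlg.zero (MvPolynomial.X (Sum.inr ()) * rename Sum.inl P.t - 1 :
          MvPolynomial (P.ι ⊕ Unit) k))
      convert h using 1
      ext z
      simp [sub_eq_zero, eval_rename],
    fun _ h => h.1⟩

/-- A morphism `(W, t) → (W', t')`: a polynomial map `f : W → W'` with `t' ∘ f = t`.  (Such a map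
is automatically transversal to `D'`, and `f⁻¹(D') = D`.) -/
structure Hom (P Q : DivPair k) where
  /-- the map -/
  toFun : P.W → Q.W
  poly : IsPoly P.W Q.W toFun
  comp_t : ∀ x : P.W, eval (toFun x : Q.ι → k) Q.t = eval (x : P.ι → k) P.t

variable {P Q : DivPair k}

theorem Hom.mapsD (f : P.Hom Q) (x : P.D.X) : (f.toFun ⟨x, x.2.1⟩ : Q.ι → k) ∈ Q.D.X :=
  ⟨(f.toFun ⟨x, x.2.1⟩).2, (f.comp_t ⟨x, x.2.1⟩).trans x.2.2⟩

/-- The map `D → D'`. -/
def Hom.D (f : P.Hom Q) : P.D ⟶ Q.D :=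
  ⟨fun x => ⟨f.toFun ⟨x, x.2.1⟩, f.mapsD x⟩, f.poly.restrict Set.inter_subset_left f.mapsD,
    fun _ hx => hx.elim⟩

/-- The map `f × id : W × A^1 → W' × A^1`. -/
def Hom.U (f : P.Hom Q) : P.U ⟶ Q.U :=
  ⟨fun z => ⟨Sum.elim (f.toFun ⟨(z : P.ι ⊕ Unit → k) ∘ Sum.inl, z.2⟩ : Q.ι → k)
        ((z : P.ι ⊕ Unit → k) ∘ Sum.inr),
      by
        show Sum.elim _ _ ∘ Sum.inl ∈ Q.W
        rw [Sum.elim_comp_inl]
        exact (f.toFun ⟨(z : P.ι ⊕ Unit → k) ∘ Sum.inl, z.2⟩).2⟩,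
    by
      obtain ⟨F, hF⟩ := f.poly
      refine ⟨fun j => j.elim (fun i => rename Sum.inl (F i))
        (fun _ => MvPolynomial.X (Sum.inr ())), fun z j => ?_⟩
      rcases j with i | i
      · simp only [Sum.elim_inl, eval_rename]
        exact hF _ i
      · simp,
    by
      rintro z ⟨hz1, hz2⟩
      refine ⟨?_, ?_⟩
      · show Sum.elim _ _ ∘ Sum.inl ∈ Q.W
        rw [Sum.elim_comp_inl]
        exact (f.toFun ⟨(z : P.ι ⊕ Unit → k) ∘ Sum.inl, z.2⟩).2
      · have e := f.comp_t ⟨z.1 ∘ Sum.inl, z.2⟩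
        change z.1 (Sum.inr ()) * eval (Sum.elim (f.toFun ⟨z.1 ∘ Sum.inl, z.2⟩).1
          (z.1 ∘ Sum.inr) ∘ Sum.inl) Q.t = 1
        rw [Sum.elim_comp_inl, e]
        exact hz2⟩

end DivPair

/-- A line bundle on the algebraic set `X` with a section `s`: at each point `x` of `X` the
`m × m`-matrix `e(x)` has trace `1` and all its `2 × 2`-minors vanish, i.e. `e(x)` is a projector
of rank one, and `e(x) s(x) = s(x)`.  The line bundle is the image of the projector `e`, a direct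
summand of the trivial bundle of rank `m` (every line bundle on an affine variety is of this
form). -/
structure LineSection {ι : Type} {m : ℕ} (X : Set (ι → k)) (e : Fin m → Fin m → MvPolynomial ι k)
    (s : Fin m → MvPolynomial ι k) : Prop where
  trace : ∀ x ∈ X, ∑ a, eval x (e a a) = 1
  minors : ∀ x ∈ X, ∀ a b c d,
    eval x (e a b) * eval x (e c d) = eval x (e a d) * eval x (e c b)
  sec : ∀ x ∈ X, ∀ a, ∑ b, eval x (e a b) * eval x (s b) = eval x (s a)

/-- A divisor with simple normal crossings in a smooth affine variety: a smooth closed subvariety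
`X ⊆ k^ι` of pure codimension `c`, and finitely many divisors `Y_j` (`j ∈ J`) in `X`, where `Y_j`
is the zero scheme of a section `s_j` of a line bundle on `X` (the image of the projector `e_j` of
rank one), such that at each point `x ∈ X` the differentials on `T_x X` of local equations of
those `Y_j` which pass through `x` are linearly independent.  (If `e_j(x)_{bb} ≠ 0` then
`(s_j)_b` is a local equation of `Y_j` at `x`.) -/
structure SNC (k : Type) [Field k] : Type 1 where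
  /-- index set of the coordinates -/
  ι : Type
  fin : Finite ι
  /-- the smooth variety -/
  X : Set (ι → k)
  algX : IsAlg X
  /-- the codimension of `X` -/
  c : ℕ
  /-- index set of the components -/
  J : Type
  finJ : Finite J
  /-- the ranks of the trivial bundles -/
  m : J → ℕ
  /-- the line bundles -/
  e : ∀ j, Fin (m j) → Fin (m j) → MvPolynomial ι k
  /-- the sections -/
  s : ∀ j, Fin (m j) → MvPolynomial ι k
  sec : ∀ j, LineSection X (e j) (s j)
  cut : ∀ x ∈ X, ∃ b : ∀ j, Fin (m j), (∀ j, eval x (e j (b j) (b j)) ≠ 0) ∧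
    Cut c X x (fun j : {j : J // ∀ a, eval x (s j a) = 0} => s j.1 (b j.1))

namespace SNC

/-- The component `Y_j`. -/
def Y (P : SNC k) (j : P.J) : Set (P.ι → k) := P.X ∩ {x | ∀ a, eval x (P.s j a) = 0}

theorem algY (P : SNC k) (j : P.J) : IsAlg (P.Y j) := P.algX.inter (IsAlg.zeros _)

/-- The pair `(X, ⋃ Y_j)`. -/
abbrev pair (P : SNC k) : AffPair k :=
  haveI := P.finJ
  ⟨P.ι, P.fin, P.X, ⋃ j, P.Y j, P.algX, IsAlg.iUnion P.algY,
    Set.iUnion_subset fun _ => Set.inter_subset_left⟩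

end SNC

/-- The zero locus of the polynomials `g j` in `k^ι`. -/
def zl {ι κ : Type} (g : κ → MvPolynomial ι k) : Set (ι → k) := {x | ∀ j, eval x (g j) = 0}

theorem zl_alg {ι κ : Type} (g : κ → MvPolynomial ι k) : IsAlg (zl g) := IsAlg.zeros g

/-- The hypersurface `V(g) = {(x, y) | ∑ y_j g_j(x) = 1}` in `k^(ι ⊕ κ)`.  It is always smooth; the
projection `(x, y) ↦ x` makes it an affine space bundle over `k^ι ∖ {g = 0}`. -/
def hyp {ι κ : Type} [Fintype κ] (g : κ → MvPolynomial ι k) : Set (ι ⊕ κ → k) :=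
  {z | ∑ j, z (Sum.inr j) * eval (z ∘ Sum.inl) (g j) = 1}

theorem hyp_alg {ι κ : Type} [Fintype κ] (g : κ → MvPolynomial ι k) : IsAlg (hyp g) := by
  have h := IsAlg.zero (∑ j, MvPolynomial.X (Sum.inr j) * rename Sum.inl (g j) - 1 :
    MvPolynomial (ι ⊕ κ) k)
  convert h using 1
  ext z
  simp [hyp, sub_eq_zero, eval_rename]

/-- The pair `(A^(ι ⊕ κ), V(g))`. -/
abbrev hypPair {ι κ : Type} [Finite ι] [Fintype κ] (g : κ → MvPolynomial ι k) : AffPair k :=
  ⟨ι ⊕ κ, inferInstance, Set.univ, hyp g, IsAlg.univ, hyp_alg g, Set.subset_univ _⟩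

end

end Pool.Agent.Lib.MP_ae0f86_nt
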