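import Pool.Agent.Lib.MP_ae0f86_nt.Theory

/-!
# MP_ae0f86_nt : fibre functors, formal periods, the period conjecture
-/

open CategoryTheory CategoryTheory.Limits Opposite MonoidalCategory

universe v u

namespace Pool.Agent.Lib.MP_ae0f86_nt

noncomputable section

attribute [local instance] CategoryTheory.Abelian.hasFiniteBiproducts

/-- The field of algebraic numbers, as a subfield of `ℂ`. -/
abbrev QBar : Type := algebraicClosure ℚ ℂ

variable {A : Type u} [Category.{v} A] [Abelian A] [MonoidalCategory A] [SymmetricCategory A]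

omit [Abelian A] [MonoidalCategory A] [SymmetricCategory A] in
/-- `H(f)(x)` for a morphism `f : M ⟶ N` and `x ∈ H(M)`. -/
abbrev act {F : Type} [Field F] (H : A ⥤ ModuleCat.{0} F) {M N : A} (f : M ⟶ N) (x : H.obj M) :
    H.obj N :=
  (H.map f).hom x

omit [Abelian A] [SymmetricCategory A] in
/-- Bilinear maps `H(M) × H(N) → H(M ⊗ N)`. -/
abbrev Bilin {F : Type} [Field F] (H : A ⥤ ModuleCat.{0} F) (M N : A) : Type :=
  H.obj M →ₗ[F] H.obj N →ₗ[F] H.obj (M ⊗ N)

omit [Abelian A] [SymmetricCategory A] in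
/-- The value of a bilinear map. -/
abbrev Bilin.app {F : Type} [Field F] {H : A ⥤ ModuleCat.{0} F} {M N : A} (m : Bilin H M N)
    (x : H.obj M) (y : H.obj N) : H.obj (M ⊗ N) :=
  m x y

/-- `H` is an exact faithful tensor functor from `A` to finite-dimensional vector spaces over
`F`: there are natural, associative, commutative and unital products
`H(M) × H(N) → H(M ⊗ N)` which induce isomorphisms `H(M) ⊗ H(N) ≅ H(M ⊗ N)` and `F ≅ H(1)`. -/
class FibreFunctor {F : Type} [Field F] (H : A ⥤ ModuleCat.{0} F) where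
  additive : H.Additive
  faithful : H.Faithful
  lim : PreservesFiniteLimits H
  colim : PreservesFiniteColimits H
  finite : ∀ M : A, Module.Finite F (H.obj M)
  /-- the product `H(M) × H(N) → H(M ⊗ N)` -/
  mul : ∀ M N : A, Bilin H M N
  nat : ∀ {M M' N N' : A} (f : M ⟶ M') (g : N ⟶ N') (x : H.obj M) (y : H.obj N),
    act H (f ⊗ₘ g) ((mul M N).app x y) = (mul M' N').app (act H f x) (act H g y)
  assoc : ∀ {M N P : A} (x : H.obj M) (y : H.obj N) (z : H.obj P),
    act H (α_ M N P).hom ((mul (M ⊗ N) P).app ((mul M N).app x y) z) =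
      (mul M (N ⊗ P)).app x ((mul N P).app y z)
  comm : ∀ {M N : A} (x : H.obj M) (y : H.obj N),
    act H (β_ M N).hom ((mul M N).app x y) = (mul N M).app y x
  bij : ∀ M N : A, Function.Bijective (TensorProduct.lift (mul M N))
  /-- the generator of `H(1)` -/
  one : H.obj (𝟙_ A)
  unit : ∀ {M : A} (x : H.obj M), act H (λ_ M).hom ((mul (𝟙_ A) M).app one x) = x
  one_bij : Function.Bijective (fun a : F => a • one)

attribute [instance] FibreFunctor.additive FibreFunctor.faithful FibreFunctor.lim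
  FibreFunctor.colim FibreFunctor.finite

namespace FibreFunctor

variable {F : Type} [Field F] {H : A ⥤ ModuleCat.{0} F} [FibreFunctor H]

theorem mul_nat {M M' N N' : A} (f : M ⟶ M') (g : N ⟶ N') (x : H.obj M) (y : H.obj N) :
    (H.map (f ⊗ₘ g)).hom (mul M N x y) = mul M' N' ((H.map f).hom x) ((H.map g).hom y) :=
  nat f g x y

theorem mul_assoc {M N P : A} (x : H.obj M) (y : H.obj N) (z : H.obj P) :
    (H.map (α_ M N P).hom).hom (mul (M ⊗ N) P (mul M N x y) z) =
      mul M (N ⊗ P) x (mul N P y z) :=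
  assoc x y z

theorem mul_comm {M N : A} (x : H.obj M) (y : H.obj N) :
    (H.map (β_ M N).hom).hom (mul M N x y) = mul N M y x :=
  comm x y

theorem one_mul {M : A} (x : H.obj M) :
    (H.map (λ_ M).hom).hom (mul (𝟙_ A) M (one (H := H)) x) = x :=
  unit x

end FibreFunctor

omit [Abelian A] [MonoidalCategory A] [SymmetricCategory A] in
/-- The dual space `H_B(N)^∨`. -/
abbrev BDual (HB : A ⥤ ModuleCat.{0} ℚ) (N : A) : Type := Module.Dual ℚ (HB.obj N)

omit [Abelian A] [MonoidalCategory A] [SymmetricCategory A] in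
/-- The value of a linear form. -/
abbrev BDual.app {HB : A ⥤ ModuleCat.{0} ℚ} {N : A} (σ : BDual HB N) (x : HB.obj N) : ℚ := σ x

omit [Abelian A] [MonoidalCategory A] [SymmetricCategory A] in
/-- The element `H_B(f)^∨(σ) = σ ∘ H_B(f)` of `H_B(N)^∨`, for `f : N ⟶ N'`, `σ ∈ H_B(N')^∨`. -/
abbrev BDual.pull {HB : A ⥤ ModuleCat.{0} ℚ} {N N' : A} (σ : BDual HB N') (f : N ⟶ N') :
    BDual HB N :=
  σ ∘ₗ (HB.map f).hom

/-- `τ = σ ⊗ σ'` as a linear form on `H_B(N ⊗ N') = H_B(N) ⊗ H_B(N')`. -/
abbrev IsTensor {HB : A ⥤ ModuleCat.{0} ℚ} [FibreFunctor HB] {N N' : A} (σ : BDual HB N)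
    (σ' : BDual HB N') (τ : BDual HB (N ⊗ N')) : Prop :=
  ∀ (x : HB.obj N) (y : HB.obj N'),
    τ.app ((FibreFunctor.mul N N').app x y) = σ.app x * σ'.app y

section Symbols

variable {K : Type} [Field K] (H : A ⥤ ModuleCat.{0} K) (HB : A ⥤ ModuleCat.{0} ℚ)
  (S : A → Prop)

/-- The symbols `(N, ω, σ)` with `N` in the full subcategory `S`, `ω ∈ H(N)`, `σ ∈ H_B(N)^∨`. -/
structure Symb where
  /-- the object -/
  N : A
  mem : S N
  /-- the cohomology class -/
  ω : H.obj N
  /-- the cycle -/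
  σ : BDual HB N

variable {H HB S} in
/-- `(N, ω, σ)` as an element of the vector space generated by the symbols. -/
abbrev Symb.fin (s : Symb H HB S) : Symb H HB S →₀ K := Finsupp.single s 1

/-- The relations between the symbols: bilinearity and functoriality. -/
inductive LinRel : (Symb H HB S →₀ K) → Prop
  | add_left (N : A) (hN : S N) (ω ω' : H.obj N) (σ : BDual HB N) :
      LinRel (Symb.fin ⟨N, hN, ω + ω', σ⟩ - Symb.fin ⟨N, hN, ω, σ⟩ - Symb.fin ⟨N, hN, ω', σ⟩)
  | smul_left (N : A) (hN : S N) (a : K) (ω : H.obj N) (σ : BDual HB N) :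
      LinRel (Symb.fin ⟨N, hN, a • ω, σ⟩ - a • Symb.fin ⟨N, hN, ω, σ⟩)
  | add_right (N : A) (hN : S N) (ω : H.obj N) (σ σ' : BDual HB N) :
      LinRel (Symb.fin ⟨N, hN, ω, σ + σ'⟩ - Symb.fin ⟨N, hN, ω, σ⟩ - Symb.fin ⟨N, hN, ω, σ'⟩)
  | smul_right (N : A) (hN : S N) (q : ℚ) (ω : H.obj N) (σ : BDual HB N) :
      LinRel (Symb.fin ⟨N, hN, ω, q • σ⟩ - (q : K) • Symb.fin ⟨N, hN, ω, σ⟩)
  | funct (N N' : A) (hN : S N) (hN' : S N') (f : N ⟶ N') (ω : H.obj N)
      (σ' : BDual HB N') :
      LinRel (Symb.fin ⟨N, hN, ω, σ'.pull f⟩ -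
        Symb.fin ⟨N', hN', act H f ω, σ'⟩)

/-- The space of formal periods of the full subcategory `S`: the vector space generated by the
symbols `(N, ω, σ)`, modulo bilinearity and functoriality. -/
abbrev FP : Type _ := (Symb H HB S →₀ K) ⧸ Submodule.span K {r | LinRel H HB S r}

variable [FibreFunctor H] [FibreFunctor HB]

variable {H HB S} in
/-- The symbol `(N ⊗ N', ω ⊗ ω', τ)`. -/
abbrev Symb.tens {N N' : A} (h : S (N ⊗ N')) (ω : H.obj N) (ω' : H.obj N')
    (τ : BDual HB (N ⊗ N')) : Symb H HB S :=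
  ⟨N ⊗ N', h, (FibreFunctor.mul N N').app ω ω', τ⟩

/-- The relations defining the formal period algebra: the relations of `LinRel`, together with
`(N, ω, σ) (N', ω', σ') = (N ⊗ N', ω ⊗ ω', σ ⊗ σ')` and `(1, 1, 1) = 1`. -/
inductive AlgRel : MvPolynomial (Symb H HB S) K → Prop
  | lin (r : Symb H HB S →₀ K) (hr : LinRel H HB S r) :
      AlgRel (Finsupp.linearCombination K (fun s => (MvPolynomial.X s : MvPolynomial _ K)) r)
  | mul (s s' : Symb H HB S) (h : S (s.N ⊗ s'.N)) (σ : BDual HB (s.N ⊗ s'.N))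
      (hσ : IsTensor s.σ s'.σ σ) :
      AlgRel (MvPolynomial.X s * MvPolynomial.X s' - MvPolynomial.X (Symb.tens h s.ω s'.ω σ))
  | one (h : S (𝟙_ A)) (σ : BDual HB (𝟙_ A)) (hσ : σ.app FibreFunctor.one = 1) :
      AlgRel (MvPolynomial.X ⟨𝟙_ A, h, FibreFunctor.one, σ⟩ - 1)

/-- The ideal generated by the relations. -/
abbrev relIdeal : Ideal (MvPolynomial (Symb H HB S) K) := Ideal.span {r | AlgRel H HB S r}

/-- The formal period algebra of the full tensor subcategory `S`: the commutative algebra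
generated by the symbols `(N, ω, σ)`, with the relations of bilinearity, functoriality and
compatibility with the tensor product.  For `H = H_dR` its spectrum is the torsor of the
isomorphisms of tensor functors between `H_dR` and `H_B` on `S`, for `H = H_B` it is the Tannaka
dual group of `S` (with respect to `H_B`). -/
abbrev PerAlg : Type _ := MvPolynomial (Symb H HB S) K ⧸ relIdeal H HB S

end Symbols

/-! ### the comparison isomorphism -/

section Comparison

variable {K : Type} [Field K] [Algebra K ℂ] (HdR : A ⥤ ModuleCat.{0} K)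
  (HB : A ⥤ ModuleCat.{0} ℚ) [FibreFunctor HdR] [FibreFunctor HB]

omit [Abelian A] [MonoidalCategory A] [SymmetricCategory A] [FibreFunctor HdR]
  [FibreFunctor HB] in
/-- Bilinear pairings `H_dR(N) × H_B(N)^∨ → ℂ`. -/
abbrev PairingAt (N : A) : Type := HdR.obj N →ₗ[K] (BDual HB N →ₗ[ℚ] ℂ)

omit [Abelian A] [MonoidalCategory A] [SymmetricCategory A] [FibreFunctor HdR]
  [FibreFunctor HB] in
variable {HdR HB} in
/-- The value of a pairing. -/
abbrev PairingAt.app {N : A} (p : PairingAt HdR HB N) (ω : HdR.obj N) (σ : BDual HB N) : ℂ :=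
  p ω σ

/-- The comparison isomorphism `H_dR(N) ⊗ ℂ ≅ H_B(N) ⊗ ℂ`, given by the period pairing
`per N ω σ = σ(ω)` for `ω ∈ H_dR(N)` and `σ ∈ H_B(N)^∨`. -/
structure Comparison where
  /-- the period pairing -/
  per : ∀ N : A, PairingAt HdR HB N
  nat : ∀ {N N' : A} (f : N ⟶ N') (ω : HdR.obj N) (σ : BDual HB N'),
    (per N').app (act HdR f ω) σ = (per N).app ω (σ.pull f)
  mul : ∀ (M N : A) (ω : HdR.obj M) (η : HdR.obj N) (σ : BDual HB M) (τ : BDual HB N)
    (φ : BDual HB (M ⊗ N)), IsTensor σ τ φ →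
      (per (M ⊗ N)).app ((FibreFunctor.mul M N).app ω η) φ = (per M).app ω σ * (per N).app η τ
  one : ∀ σ : BDual HB (𝟙_ A), σ.app FibreFunctor.one = 1 →
    (per (𝟙_ A)).app FibreFunctor.one σ = 1
  /-- the induced map `ℂ ⊗ H_dR(N) → Hom(H_B(N)^∨, ℂ) = H_B(N) ⊗ ℂ` is an isomorphism -/
  bij : ∀ N : A, Function.Bijective (LinearMap.liftBaseChange ℂ (per N))

namespace Comparison

variable {HdR HB} (c : Comparison HdR HB)

theorem per_nat {N N' : A} (f : N ⟶ N') (ω : HdR.obj N) (σ : Module.Dual ℚ (HB.obj N')) :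
    c.per N' ((HdR.map f).hom ω) σ = c.per N ω (σ ∘ₗ (HB.map f).hom) :=
  c.nat f ω σ

theorem per_mul (M N : A) (ω : HdR.obj M) (η : HdR.obj N) (σ : Module.Dual ℚ (HB.obj M))
    (τ : Module.Dual ℚ (HB.obj N)) (φ : Module.Dual ℚ (HB.obj (M ⊗ N)))
    (h : ∀ x y, φ (FibreFunctor.mul M N x y) = σ x * τ y) :
    c.per (M ⊗ N) (FibreFunctor.mul M N ω η) φ = c.per M ω σ * c.per N η τ :=
  c.mul M N ω η σ τ φ h

theorem per_one (σ : Module.Dual ℚ (HB.obj (𝟙_ A))) (h : σ FibreFunctor.one = 1) :
    c.per (𝟙_ A) FibreFunctor.one σ = 1 :=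
  c.one σ h

/-- The period `σ(ω)`. -/
abbrev val {N : A} (ω : HdR.obj N) (σ : BDual HB N) : ℂ := (c.per N).app ω σ

/-- The set of periods of `M`. -/
def Per (M : A) : Set ℂ := {z | ∃ (ω : HdR.obj M) (σ : BDual HB M), c.val ω σ = z}

end Comparison

end Comparison

/-- The pairing of `ω ∈ H(N)` and `σ ∈ HB(N)^∨` vanishes for a trivial reason: there is a
subobject `N'` of `N` such that `ω ∈ H(N')` and `σ` is zero on `HB(N')`. -/
def Trivially {K : Type} [Field K] (H : A ⥤ ModuleCat.{0} K) (HB : A ⥤ ModuleCat.{0} ℚ) {N : A}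
    (ω : H.obj N) (σ : BDual HB N) : Prop :=
  ∃ (N' : A) (i : N' ⟶ N), Mono i ∧ (∃ ω' : H.obj N', act H i ω' = ω) ∧ σ.pull i = 0

/-! ### the period conjecture -/

/-- The smallest full abelian rigid tensor subcategory `⟨M⟩` containing `M` and closed under
subquotients. -/
inductive Gen [RigidCategory A] (M : A) : A → Prop
  | base : Gen M M
  | unit : Gen M (𝟙_ A)
  | sum {N N' : A} : Gen M N → Gen M N' → Gen M (N ⊞ N')
  | tensor {N N' : A} : Gen M N → Gen M N' → Gen M (N ⊗ N')
  | dual {N : A} : Gen M N → Gen M Nᘁ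
  | sub {N N' : A} (i : N' ⟶ N) [Mono i] : Gen M N → Gen M N'
  | quot {N N' : A} (p : N ⟶ N') [Epi p] : Gen M N → Gen M N'

section Conj

variable [RigidCategory A] {HdR : A ⥤ ModuleCat.{0} QBar} {HB : A ⥤ ModuleCat.{0} ℚ}
  [FibreFunctor HdR] [FibreFunctor HB] (c : Comparison HdR HB)

/-- Grothendieck's period conjecture (Q1) for the object `M`: the torsor
`X(M) = Spec (PerAlg H_dR H_B ⟨M⟩)` is connected, and the dimension of the Tannaka dual
`G(M) = Spec (PerAlg H_B H_B ⟨M⟩)` of `⟨M⟩` is the transcendence degree over `ℚ` of the field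
generated by the periods of `M`. -/
def PeriodConjecture (M : A) : Prop :=
  ConnectedSpace (PrimeSpectrum (PerAlg HdR HB (Gen M))) ∧
    ringKrullDim (PerAlg HB HB (Gen M)) =
      ((Cardinal.toENat (Algebra.trdeg ℚ (IntermediateField.adjoin ℚ (c.Per M))) : ℕ∞) :
        WithBot ℕ∞)

/-- `e^n` preserves `H_B` of the kernel of each morphism `M^n → U`. -/
abbrev PreservesKernels (HB : A ⥤ ModuleCat.{0} ℚ) (M : A) (e : Module.End ℚ (HB.obj M)) : Prop :=
  ∀ (n : ℕ) (U : A) (f : Fin n → (M ⟶ U)) (m : Fin n → HB.obj M),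
    ∑ j, act HB (f j) (m j) = 0 → ∑ j, act HB (f j) (e (m j)) = 0

omit [Abelian A] [MonoidalCategory A] [SymmetricCategory A] [RigidCategory A] in
theorem PreservesKernels.zero (HB : A ⥤ ModuleCat.{0} ℚ) (M : A) : PreservesKernels HB M 0 := by
  intro n U f m _
  simp

omit [Abelian A] [MonoidalCategory A] [SymmetricCategory A] [RigidCategory A] in
theorem PreservesKernels.add (HB : A ⥤ ModuleCat.{0} ℚ) (M : A) {a b : Module.End ℚ (HB.obj M)}
    (ha : PreservesKernels HB M a) (hb : PreservesKernels HB M b) :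
    PreservesKernels HB M (a + b) := by
  intro n U f m hm
  simp only [LinearMap.add_apply, map_add, Finset.sum_add_distrib]
  rw [ha n U f m hm, hb n U f m hm, add_zero]

omit [Abelian A] [MonoidalCategory A] [SymmetricCategory A] [RigidCategory A] in
theorem PreservesKernels.smul (HB : A ⥤ ModuleCat.{0} ℚ) (M : A) (q : ℚ)
    {a : Module.End ℚ (HB.obj M)} (ha : PreservesKernels HB M a) :
    PreservesKernels HB M (q • a) := by
  intro n U f m hm
  simp only [LinearMap.smul_apply, map_smul, ← Finset.smul_sum]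
  rw [ha n U f m hm, smul_zero]

/-- The endomorphism algebra of the functor `H_B` on the category `⟨M⟩^{lin}` of the
subquotients of the `M^n`: the endomorphisms `e` of `H_B(M)` such that `e^n` preserves `H_B` of
the kernel of each morphism `M^n → U`. -/
def EndBetti (HB : A ⥤ ModuleCat.{0} ℚ) (M : A) :
    Submodule ℚ (Module.End ℚ (HB.obj M)) where
  carrier := {e | PreservesKernels HB M e}
  zero_mem' := PreservesKernels.zero HB M
  add_mem' := PreservesKernels.add HB M
  smul_mem' := fun q _ => PreservesKernels.smul HB M q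

end Conj

/-! ### the cubic hypersurfaces -/

/-- Polynomials with integer coefficients of degree at most `2` all of whose coefficients are
`0`, `1` or `-1`. -/
def SignQuadric {σ : Type} (q : MvPolynomial σ ℤ) : Prop :=
  q.totalDegree ≤ 2 ∧ ∀ m, q.coeff m = 0 ∨ q.coeff m = 1 ∨ q.coeff m = -1

/-- The pair `(V(q), ∅)` for the smooth affine cubic hypersurface
`V(q) = {(x, y) | ∑ y_j q_j(x) = 1}`. -/
def cubic {k : Type} [Field k] {n r : ℕ} (q : Fin r → MvPolynomial (Fin n) ℤ) : AffPair k :=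
  AffPair.abs (hyp_alg (fun j => MvPolynomial.map (Int.castRingHom k) (q j)))

section Statements

variable {HdR : A ⥤ ModuleCat.{0} QBar} {HB : A ⥤ ModuleCat.{0} ℚ}
  [FibreFunctor HdR] [FibreFunctor HB] (c : Comparison HdR HB)

/-- The evaluation `(N, ω, σ) ↦ σ(ω)` from the formal period algebra of the whole category `A` to
`ℂ` is injective: each polynomial in the symbols `(N, ω, σ)` which is mapped to `0` by the
substitution of the periods `σ(ω)` lies in the ideal of the relations of the formal period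
algebra. -/
def EvInjective : Prop := ∀ p : MvPolynomial (Symb HdR HB (fun _ : A => True)) QBar,
  MvPolynomial.eval₂ (algebraMap QBar ℂ) (fun s => c.val s.ω s.σ) p = 0 →
    p ∈ relIdeal HdR HB (fun _ : A => True)

/-- The dimension over `QBar` of the vector space spanned by the periods of `M` is the dimension
over `ℚ` of the endomorphism algebra of `H_B` on the subquotients of the powers of `M`. -/
def PeriodDimension (M : A) : Prop :=
  Module.finrank QBar (Submodule.span QBar (c.Per M)) = Module.finrank ℚ (EndBetti HB M)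

/-- A period `σ(ω)` of `M` vanishes only for a trivial reason. -/
def VanishTrivially (M : A) : Prop := ∀ (ω : HdR.obj M) (σ : BDual HB M),
  c.val ω σ = 0 → Trivially HdR HB ω σ

omit [SymmetricCategory A] in
/-- The property `P` holds for `h^i(V)`, for all integers `i` and for all affine cubic
hypersurfaces `V = {(x, y) | ∑ y_j q_j(x) = 1}`, where the `q_j` are finitely many polynomials in
finitely many variables of degree at most `2` with all coefficients in `{0, 1, -1}`. -/
def ForCubics (T : CohTheory QBar A) (P : A → Prop) : Prop :=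
  ∀ (n r : ℕ) (q : Fin r → MvPolynomial (Fin n) ℤ), (∀ j, SignQuadric (q j)) → ∀ i : ℤ,
    P ((T.h i).obj (op (cubic q)))

end Statements

end

end Pool.Agent.Lib.MP_ae0f86_nt
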