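import Pool.Agent.Lib.MP_ae0f86_nt.Basic

/-!
# MP_ae0f86_nt : statements of the pieces, part A (geometry and cohomology of pairs)

Every `S_xxx` is a proposition; the piece `[GP xxx]` is a theorem `p_xxx : S_xxx` (or
`p_xxx (T) (h1 : S_yyy T) ... : S_xxx T` when the docstring says it uses other pieces).
-/

open CategoryTheory CategoryTheory.Limits MvPolynomial Opposite MonoidalCategory

universe v u

namespace Pool.Agent.Lib.MP_ae0f86_nt

noncomputable section

attribute [local instance] CategoryTheory.Abelian.hasFiniteBiproducts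

/-! ## A. cohomology of pairs -/

section Coh

variable {k : Type} [Field k] {A : Type u} [Category.{v} A] [Abelian A] [MonoidalCategory A]
  (T : CohTheory k A)

/-- [GP zero] `h^i(X, X) = 0`.

Proof: take the triple `t = (X, X, X)` (`t.XZ`, `t.YZ`, `t.XY` are all the pair `(X, X)`; `P` with
`P.Y = P.X`: destruct `P` and `subst`). `t.incl` and `t.quot` are identities (`AffPair.hom_ext`),
so by `exact_XZ` the composite `(h i).map t.quot.op ≫ (h i).map t.incl.op = 0` is the identity of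
`h^i(X, X)`, which is therefore zero (`IsZero.iff_id_eq_zero`). -/
def S_zero : Prop := ∀ P : AffPair k, P.Y = P.X → T.Z P

/-- [GP tri] Five lemma for a morphism of triples, (a) `(Y,Z)` and `(X,Y)` imply `(X,Z)`.

Proof: the two long exact sequences `h^{i-1}(Y,Z) → h^i(X,Y) → h^i(X,Z) → h^i(Y,Z) →
h^{i+1}(X,Y)` of `t'` and `t` (fields `exact_XY` for `i - 1`, `exact_XZ`, `exact_YZ`; to get
`h^i(X,Y)` from `i-1`, write `i = j + 1`), compared by the maps induced by `f` (`δ_nat`, and the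
equalities `t.quot ≫ f.XY = f.XZ ≫ t'.quot`, `t.incl ≫ f.XZ = f.YZ ≫ t'.incl` which hold by
`AffPair.hom_ext`); the outer four maps are isomorphisms, so the middle one is
(`CategoryTheory.Abelian.isIso_of_epi_of_isIso_of_isIso_of_mono`, or two applications of the four
lemmas `CategoryTheory.Abelian.mono_of_epi_of_mono_of_mono` /
`epi_of_epi_of_epi_of_mono`; or by hand with `ShortComplex.Exact`). -/
def S_triA : Prop := ∀ {t t' : AffTriple k} (f : t.Hom t'), T.QI f.YZ → T.QI f.XY → T.QI f.XZ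

/-- [GP triB] Five lemma, (b): `(X,Z)` and `(Y,Z)` imply `(X,Y)`. Same proof, with the part
`h^j(X,Z) → h^j(Y,Z) → h^{j+1}(X,Y) → h^{j+1}(X,Z) → h^{j+1}(Y,Z)` of the sequence. -/
def S_triB : Prop := ∀ {t t' : AffTriple k} (f : t.Hom t'), T.QI f.XZ → T.QI f.YZ → T.QI f.XY

/-- [GP triC] Five lemma, (c): `(X,Z)` and `(X,Y)` imply `(Y,Z)`. Same proof, with the part
`h^i(X,Y) → h^i(X,Z) → h^i(Y,Z) → h^{i+1}(X,Y) → h^{i+1}(X,Z)` of the sequence. -/
def S_triC : Prop := ∀ {t t' : AffTriple k} (f : t.Hom t'), T.QI f.XZ → T.QI f.XY → T.QI f.YZ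

/-- [GP exc] Closed excision, general form: if `X' = X ∪ Y'` and `Y = X ∩ Y'` then
`(X, Y) → (X', Y')` is a quasi-isomorphism.

Proof: `subst`; the inclusion is `AffPair.exc hX hY'` (same sets; use `AffPair.hom_ext` or
`rfl`/`HEq`-free `convert`), and the field `excision` says that it is a `QI`. -/
def S_exc : Prop := ∀ {ι : Type} [Finite ι] {X Y X' Y' : Set (ι → k)} (hX : IsAlg X)
  (hY : IsAlg Y) (h : Y ⊆ X) (hX' : IsAlg X') (hY' : IsAlg Y') (h' : Y' ⊆ X') (hXX' : X ⊆ X')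
  (hYY' : Y ⊆ Y'), X' = X ∪ Y' → Y = X ∩ Y' → T.QI (inc hX hY h hX' hY' h' hXX' hYY')

/-- [GP sect] The sections `x ↦ (x, a)` of `P × A^κ → P` are quasi-isomorphisms, and all induce
the same map on cohomology.

Proof: `P.sect κ a ≫ P.proj κ = 𝟙 P` (`AffPair.hom_ext`), and `P.proj κ` is a `QI`
(`QI.proj`), so `P.sect κ a` is a `QI` (`QI.of_comp_right` with `QI.of_isIso`), and
`(T.h i).map (P.sect κ a).op` is the inverse of `(T.h i).map (P.proj κ).op`, for every `a`. -/
def S_sect : Prop := ∀ (P : AffPair k) (κ : Type) [Finite κ] (a b : κ → k),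
  T.QI (P.sect κ a) ∧ ∀ i, (T.h i).map (P.sect κ a).op = (T.h i).map (P.sect κ b).op

/-- [GP homot] Homotopy equivalences are quasi-isomorphisms. Let `f : P ⟶ Q`, `g : Q ⟶ P` with
`f ≫ g = 𝟙 P`, and let `F : Q × A^1 ⟶ Q` be a homotopy from `g ≫ f` (at `t = 0`) to the identity
(at `t = 1`). Then `f` is a `QI`. Uses `S_sect`.

Proof: by `S_sect`, `(h i)(g ≫ f) = (h i)(sect 0 ≫ F) = (h i)(F) ≫ (h i)(sect 0) = (h i)(F) ≫
(h i)(sect 1) = (h i)(𝟙 Q)` is the identity; with `f ≫ g = 𝟙 P` the maps `(h i)(f)` and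
`(h i)(g)` are inverse to each other. -/
def S_homot : Prop := ∀ {P Q : AffPair k} (f : P ⟶ Q) (g : Q ⟶ P) (F : Q.cyl Unit ⟶ Q),
  f ≫ g = 𝟙 P → Q.sect Unit (fun _ => 0) ≫ F = g ≫ f → Q.sect Unit (fun _ => 1) ≫ F = 𝟙 Q →
    T.QI f

/-- The closed subset `C × A^2 ∪ B × {(1, 1)}` of `B × A^2` (for `C ⊆ B`). -/
def conSet {ι : Type} (B C : Set (ι → k)) : Set (ι ⊕ Fin 2 → k) :=
  {z | z ∘ Sum.inl ∈ C} ∪ {z | z ∘ Sum.inl ∈ B ∧ z (Sum.inr 0) = 1 ∧ z (Sum.inr 1) = 1}

/-- [GP contract] `h^*(B × A^2, C × A^2 ∪ B × {(1,1)}) = 0` for `C ⊆ B`. Uses `S_zero`, `S_exc`,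
`S_sect`, `S_triB`.

Proof: let `t' = (B × A^2, C × A^2 ∪ B × 1, C × A^2)` and `t = (B, B, C)`, and let
`f : t → t'`, `x ↦ (x, (1,1))`. `f.XZ : (B, C) → (B × A^2, C × A^2)` is `sect` of the pair
`(B, C)`, a `QI` by `S_sect`. `f.YZ : (B, C) → (C × A^2 ∪ B × 1, C × A^2)` is the composite of
the isomorphism `(B, C) ≅ (B × 1, C × 1)` (`isIso_of_inv`, `QI.of_isIso`) and of the excision
`(B × 1, C × 1) → (C × A^2 ∪ B × 1, C × A^2)` (`S_exc`), a `QI`. So `f.XY : (B, B) →
(B × A^2, C × A^2 ∪ B × 1)` is a `QI` by `S_triB`, and `(B, B)` has zero cohomology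
(`S_zero`). -/
def S_contract : Prop := ∀ {ι : Type} [Finite ι] {B C : Set (ι → k)} (hB : IsAlg B)
  (_ : IsAlg C) (_ : C ⊆ B) (h1 : IsAlg (conSet B C))
  (h2 : conSet B C ⊆ {z : ι ⊕ Fin 2 → k | z ∘ Sum.inl ∈ B}),
  T.Z (pr (ι := ι ⊕ Fin 2) hB.cyl h1 h2)

/-- [GP k2] The object `h^i(B, (B ∩ {s = 0}) ∪ C) ⊗ L` embeds into `h^{i+1}(P(B), P(C))`, where
`P(B) = {(x,u,w) | x ∈ B, u w = 1 or s(x) = 0}`. Uses `S_zero`, `S_exc`, `S_contract`.

Proof. Write `V = {s = 0}`, `G_m = {u w = 1} ⊆ A^2` and `1 = (1,1)`.  Let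
`M = P(C) ∪ {z ∈ P(B) | x ∈ V} ∪ B × 1` and `N = P(C) ∪ B × 1`, closed subsets of `P(B)`,
`P(C) ⊆ N ⊆ M ⊆ P(B)`.
(1) `(B × G_m, ((B ∩ V) ∪ C) × G_m ∪ B × 1) → (P(B), M)` is an excision (`S_exc`:
`P(B) = B × G_m ∪ M` and `B × G_m ∩ M = ...`; note that on `u w = 1`, `u = 1` iff
`(u, w) = (1,1)`), and its source is the pair `(B, (B ∩ V) ∪ C).gm`; so by `kunneth`
`h^{i+1}(P(B), M) ≅ h^i(B, (B ∩ V) ∪ C) ⊗ L`.
(2) `h^j(P(B), M) → h^j(P(B), N)` is an isomorphism for all `j`: in the exact sequence of the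
triple `N ⊆ M ⊆ P(B)` the third term `h^j(M, N)` vanishes, because
`((B ∩ V) × A^2, ((B ∩ V) ∩ C) × A^2 ∪ (B ∩ V) × 1) → (M, N)` is an excision and
`S_contract` (for `B ∩ V` and `B ∩ V ∩ C`).
(3) `h^j(P(B), N) → h^j(P(B), P(C))` is a monomorphism for all `j`: in the exact sequence of the
triple `P(C) ⊆ N ⊆ P(B)` the preceding map `h^{j-1}(P(B), P(C)) → h^{j-1}(N, P(C))` is an
epimorphism (so the boundary `δ` is `0`): indeed the excision
`(B × 1, C × 1) → (N, P(C))` and the isomorphism `(B, C) ≅ (B × 1, C × 1)` identify it with the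
map induced by `(B, C) → (P(B), P(C))`, `x ↦ (x, 1)`, which has the retraction
`(x, u, w) ↦ x`.
The monomorphism is the composite of the isomorphism (1), (2) and (3) for `j = i + 1`. -/
def S_k2 : Prop := ∀ {ι : Type} [Finite ι] {m : ℕ} (s : Fin m → MvPolynomial ι k)
  {B C D : Set (ι → k)} (hB : IsAlg B) (hC : IsAlg C) (h : C ⊆ B) (hD : IsAlg D) (h' : D ⊆ B),
  D = (B ∩ {x | ∀ a, eval x (s a) = 0}) ∪ C → ∀ i : ℤ,
    ∃ f : (T.h i).obj (op (pr hB hD h')) ⊗ T.L ⟶ (T.h (i + 1)).obj (op (PPp s hB hC h)), Mono f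

/-- [GP absD] The zero section `{s = 0} × {0} → D`, where `D = {u = 0}` in
`X' = {(x,u,v) | x ∈ X, u v = s(x), e(x) v = v}`, is a quasi-isomorphism. Uses `S_homot`.

Here the source is `{z : (x, u) | x ∈ X, s(x) = 0, u = 0}` in `k^(ι ⊕ Unit)` and the target
`{(x, u, v) ∈ X' | u = 0}` in `k^(ι ⊕ Option (Fin m))`; the map is `(x, u) ↦ (x, u, 0)`.

Proof: note `D = {(x, 0, v) | x ∈ X, s(x) = 0, e(x) v = v}`. Inverse `g : (x, u, v) ↦ (x, u)`,
homotopy `F : ((x, u, v), t) ↦ (x, u, t v)`; apply `S_homot`. -/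
def S_absD : Prop := ∀ {ι : Type} [Finite ι] {m : ℕ} (e : Fin m → Fin m → MvPolynomial ι k)
  (s : Fin m → MvPolynomial ι k) {X : Set (ι → k)} (_ : LineSection X e s)
  {W : Set (ι ⊕ Unit → k)} {D : Set (ι ⊕ Option (Fin m) → k)} (hW : IsAlg W) (hD : IsAlg D),
  W = {z | z ∘ Sum.inl ∈ X ∧ (∀ a, eval (z ∘ Sum.inl) (s a) = 0) ∧ z (Sum.inr ()) = 0} →
  D = XP e s X ∩ {z | z (Sum.inr none) = 0} →
  ∀ f : AffPair.abs hW ⟶ AffPair.abs hD,
    (∀ z, (AffPair.Hom.toFun f z).1 = fun j : ι ⊕ Option (Fin m) => j.elim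
      (fun i => z.1 (Sum.inl i)) (fun o => o.elim (z.1 (Sum.inr ())) (fun _ => 0))) → T.QI f

/-- [GP thomQI] If `f : (W, t) → (W', t')` is a morphism of smooth varieties with divisors and
`f.D : D → D'` is a quasi-isomorphism, then so is `f.U : (W × A^1, {w t = 1}) →
(W' × A^1, {w t' = 1})`.

Proof: `thom_nat`: `(h (i+2)).map f.U.op ≫ thom = thom ≫ ((h i).map f.D.op ▷ L)`, and
`(h i).map f.D.op ▷ L` is an isomorphism. Every integer is of the form `i + 2`. -/
def S_thomQI : Prop := ∀ {P Q : DivPair k} (f : P.Hom Q), T.QI f.D → T.QI f.U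

/-- [GP abs] The absolute case: for a smooth divisor `{s = 0}` in a smooth variety `X`, the map
`φ : P(X) → X'(X)`, `(x, u, w) ↦ (x, u, s(x) w)`, is a quasi-isomorphism. Uses `S_exc`,
`S_absD`, `S_thomQI`, `S_triA`, and the geometric statements `G_divX`, `G_divY` which say that
`(X'(X), u)` and `({s = 0} × A^1, u)` are `DivPair`s.

Proof. Let `Y = X ∩ {s = 0}`, let `DX : DivPair` be `(X'(X), u)` (`W = XP e s X`,
`t = MvPolynomial.X (Sum.inr none)`) and `DY : DivPair` be `(Y × A^1, u)` (in `k^(ι ⊕ Unit)`,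
`t = MvPolynomial.X (Sum.inr ())`). The map `f : DY → DX`, `(x, u) ↦ (x, u, 0)`, is a morphism
of `DivPair`s; `f.D` is a `QI` by `S_absD`, so `f.U` is a `QI` by `S_thomQI`.
Let `g : (P(X), X × G_m) → DX.U = (X'(X) × A^1, E')`, `E' = {(z', w) | w u = 1}`, be the map
`(x, u, w) ↦ ((x, u, s(x) w), w)` (here `X × G_m = {z ∈ P(X) | u w = 1}`).
(1) `g` is a `QI`: the inclusion `(Y × A^2, Y × G_m) → (P(X), X × G_m)` is an excision, its
source is isomorphic to `DY.U` by `(x, u, w) ↔ ((x, u), w)`, and the composite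
`(Y × A^2, Y × G_m) → DX.U` is the isomorphism followed by `f.U` (`s(x) = 0` on `Y`). Use
`QI.of_comp_left`.
(2) Let `G` be the morphism of triples `(P(X), X × G_m, ∅) → (X'(X) × A^1, E', ∅)` given by the
same formula as `g`. `G.XY = g` is a `QI`; `G.YZ : X × G_m → E'` is an isomorphism with inverse
`((x, u, v), w) ↦ (x, u, w)` (on `E'`: `v = w u v = w s(x)`). So `G.XZ : P(X) → X'(X) × A^1` is
a `QI` by `S_triA`.
(3) `φ = G.XZ ≫ proj`, where `proj : X'(X) × A^1 → X'(X)` is a `QI` (`QI.proj`). -/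
def S_abs : Prop := ∀ D : LineDiv k,
  haveI := D.fin
  T.QI (phi D.algX IsAlg.empty (Set.empty_subset _) D.sec)

/-- [GP rel] The relative case. Let `P` be an snc pair, `j` one of the components, `K, I` sets of
other components, `K ∩ I = ∅`. Then `φ : (P(B), P(C)) → (X'(B), X'(C))` is a quasi-isomorphism
for `B = X_K`, `C = X_K ∩ ⋃_{i ∈ I} Y_i` (and the section `s_j`). Uses `S_exc`, `S_triA`,
`S_triB`, `S_abs` and `G_strata` (for `j ∉ K`, `(X_K, s_j)` is a `LineDiv`).

Proof: induction on the finite set `I`, for all `K` (`Set.Finite.induction_on`, or on the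
cardinality). `I = ∅`: `C = ∅` and this is `S_abs` for the `LineDiv` `(X_K, s_j)` (careful:
`SU K ∅ = ∅`, and `P.S K` is the variety of the `LineDiv`).
Step: `I' = I ∪ {i}`, `i ∉ I`, `i ≠ j`. Put `B = X_K`, `C = X_K ∩ ⋃_{I} Y`, `C' = X_K ∩ ⋃_{I'} Y =
C ∪ X_{K ∪ {i}}`. Consider the triples `t = (P(B), P(C'), P(C))` and `t' = (X'(B), X'(C'),
X'(C))` and `φ : t → t'`. `φ.XZ` is a `QI` by induction (for `I`, `K`). `φ.YZ` is a `QI`: by the
excisions `(P(X_{K ∪ i}), P(X_{K ∪ i} ∩ ⋃_I Y)) → (P(C'), P(C))` and similarly for `X'`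
(`P(B ∪ B') = P(B) ∪ P(B')`, `P(B ∩ B') = P(B) ∩ P(B')` and the same for `X'`) it is
identified with `φ` for `K ∪ {i}` and `I`, a `QI` by induction. So `φ.XY`, which is the map for
`K` and `I'`, is a `QI` by `S_triB`. -/
def S_rel : Prop := ∀ (P : SNC k) (j : P.J) (K I : Set P.J), j ∉ K → j ∉ I → Disjoint K I →
  ∀ (hs : LineSection (P.S K) (P.e j) (P.s j)),
  haveI := P.fin
  T.QI (phi (P.S_alg K) (P.SU_alg K I) (P.SU_sub K I) hs)

end Coh

/-! ## G. smoothness -/

section Geom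

variable {k : Type} [Field k]

/-- [GP cutcard] `Cut` with equations indexed by an arbitrary finite type of cardinality `c`.
Proof: reindex by `Fintype.equivFin` (`LinearIndependent` is invariant under the induced
equivalence of the index types, `linearIndependent_equiv`). -/
def S_cutcard (k : Type) [Field k] : Prop := ∀ {ι : Type} (X : Set (ι → k)) (x : ι → k)
  {J α : Type} [Fintype α]
  (l : J → MvPolynomial ι k) (p : α → MvPolynomial ι k) (s : MvPolynomial ι k), eval x s ≠ 0 →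
  (∀ z, eval z s ≠ 0 → (z ∈ X ↔ ∀ a, eval z (p a) = 0)) →
  LinearIndependent k (Sum.elim (fun a => grad x (p a)) (fun j => grad x (l j))) →
  Cut (Fintype.card α) X x l

/-- [GP blowcut] The main smoothness computation. Let `(e, s)` be a line bundle with a section on
`X`, `x ∈ X`, `e(x)_{bb} ≠ 0`; assume that `X` is smooth of codimension `c` at `x` with the
polynomials `l j` and (if `s(x) = 0`) `s_b` having independent differentials on `T_x X`. Then
`X' = {(x,u,v) | u v = s(x), e(x) v = v}` is smooth of codimension `c + m` at every `z` over `x`,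
with the `l j` and (if `u(z) = 0`) `u` having independent differentials on `T_z X'`. Uses
`S_cutcard`.

Proof. Let `p a` (`a < c`), `s0` be the data of the hypothesis. Equations of `X'` near `z` (on
`s0(x) e(x)_{bb} ≠ 0`): the `rename inl (p a)`, `q_i = e_{bb} v_i - e_{ib} v_b` for `i ≠ b`, and
`q_b = u v_b - s_b` (so put `α = Fin c ⊕ Fin m`). Indeed let `w` be a point with
`s0 e_{bb} ≠ 0` at `w ∘ inl`. If `w ∈ X'` then by the minors
`e_{bb} v_i = ∑_c e_{bb} e_{ic} v_c = ∑_c e_{ib} e_{bc} v_c = e_{ib} v_b`. Conversely if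
`w ∘ inl ∈ X`, `e_{bb} v_i = e_{ib} v_b` for all `i` and `u v_b = s_b` then
`e_{bb} (e v)_i = ∑_c e_{ic} e_{cb} v_b = ∑_c e_{ib} e_{cc} v_b = e_{ib} v_b = e_{bb} v_i`
(minors and trace `1`), and `e_{bb} u v_i = e_{ib} u v_b = e_{ib} s_b = ∑_c e_{ib} e_{bc} s_c =
∑_c e_{bb} e_{ic} s_c = e_{bb} s_i`.
Independence at `z = (x, u, v)`. The gradients (in the directions `(x; u; v)`) are
`(∇p_a; 0; 0)`, `(∇l_j; 0; 0)`, `q_i : (*; 0; e_{bb} ε_i - e_{ib} ε_b)` for `i ≠ b`,
`q_b : (-∇s_b; v_b; u ε_b)`, and, if `u = 0`, `u : (0; 1; 0)`.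
Case `u ≠ 0`: in a linear relation the `v`-components give that the coefficients of the `q_i`
and of `q_b` vanish, then the rest is independent by hypothesis.
Case `u = 0`: then `s(x) = u v = 0`, so `∇s_b` belongs to the independent family of the
hypothesis. In a linear relation the `v`-components `i ≠ b` give that the coefficients of the
`q_i`, `i ≠ b`, vanish; then the `x`-component is a relation between `∇p_a`, `∇l_j`, `∇s_b`, so
all these coefficients vanish; then the `u`-component gives that the coefficient of `u`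
vanishes. -/
def S_blowcut (k : Type) [Field k] : Prop := ∀ {ι : Type} [Finite ι] {m c : ℕ} (X : Set (ι → k))
  (e : Fin m → Fin m → MvPolynomial ι k) (s : Fin m → MvPolynomial ι k) (_ : LineSection X e s)
  (x : ι → k) (b : Fin m) {J : Type} (l : J → MvPolynomial ι k), x ∈ X → eval x (e b b) ≠ 0 →
  Cut c X x (Sum.elim l (fun _ : {_u : Unit // ∀ a, eval x (s a) = 0} => s b)) →
  ∀ z ∈ XP e s X, z ∘ Sum.inl = x →
    Cut (c + m) (XP e s X) z (Sum.elim (fun j => rename Sum.inl (l j))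
      (fun _ : {_u : Unit // z (Sum.inr none) = 0} => MvPolynomial.X (Sum.inr none)))

/-- [GP divX] For a `LineDiv` the pair `(X', u)` satisfies the smoothness condition of a
`DivPair` of codimension `c + m`. Uses `S_blowcut` (with `J = Empty`).

Proof: for `z ∈ X'` let `x = z ∘ inl`, take `b` from `D.cut x`; `Cut c X x (fun _ => s b)` gives
the hypothesis of `S_blowcut` with an empty family `l` (reindexing `Empty ⊕ S ≃ S`), and
the conclusion, reindexed, is the claim; `eval z (X (inr none)) = z (inr none)`. -/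
def S_divX (k : Type) [Field k] : Prop := ∀ D : LineDiv k, ∀ z ∈ XP D.e D.s D.X,
  Cut (D.c + D.m) (XP D.e D.s D.X) z
    (fun _ : {_u : Unit // eval z (MvPolynomial.X (Sum.inr none) :
      MvPolynomial (D.ι ⊕ Option (Fin D.m)) k) = 0} => MvPolynomial.X (Sum.inr none))

/-- [GP divY] For a `LineDiv` the pair `({s = 0} × A^1, u)` satisfies the smoothness condition of
a `DivPair` of codimension `c + 1`. Uses `S_cutcard`.

Proof: let `z ∈ {s = 0} × A^1`, `x = z ∘ inl`, `b`, `p a`, `s0` from `D.cut x`. Equations near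
`z`: `rename inl (p a)` and `rename inl (s_b)`, on `s0 e_{bb} ≠ 0` (there `s_b = 0` and
`w ∘ inl ∈ X` imply `s = 0` since `e_{bb} s_i = ∑_c e_{bb} e_{ic} s_c = e_{ib} ∑_c e_{bc} s_c =
e_{ib} s_b`). The gradients `(∇p_a; 0)`, `(∇s_b; 0)`, `(0; 1)` are independent. -/
def S_divY (k : Type) [Field k] : Prop := ∀ D : LineDiv k,
  ∀ z ∈ {z : D.ι ⊕ Unit → k | z ∘ Sum.inl ∈ D.X ∧ ∀ a, eval (z ∘ Sum.inl) (D.s a) = 0},
  Cut (D.c + 1) {z : D.ι ⊕ Unit → k | z ∘ Sum.inl ∈ D.X ∧ ∀ a, eval (z ∘ Sum.inl) (D.s a) = 0} z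
    (fun _ : {_u : Unit // eval z (MvPolynomial.X (Sum.inr ()) :
      MvPolynomial (D.ι ⊕ Unit) k) = 0} => MvPolynomial.X (Sum.inr ()))

/-- [GP strata] In an snc pair, for `j ∉ K`, the section `s_j` defines a smooth divisor in the
smooth variety `X_K`, of codimension `c + |K|`. Uses `S_cutcard`.

Proof: let `x ∈ X_K` and let `b`, `p a`, `s0` be given by `P.cut x`. Near `x` (on
`s0 · ∏_{i ∈ K} e_i(b_i, b_i) ≠ 0`) the equations of `X_K` are `p a = 0` and
`s_i(b_i) = 0`, `i ∈ K` (on `X`, `e_{bb} s_a = e_{ab} s_b`, see `S_divY`), and their gradients are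
independent, also together with that of `s_j(b_j)` if `s_j(x) = 0`: this is a subfamily of the
independent family of `P.cut x`, as all `i ∈ K` satisfy `s_i(x) = 0` and `j ∉ K`. -/
def S_strata (k : Type) [Field k] : Prop := ∀ (P : SNC k) (K : Set P.J) (j : P.J), j ∉ K →
  ∀ x ∈ P.S K, ∃ b : Fin (P.m j), eval x (P.e j b b) ≠ 0 ∧
    Cut (P.c + Nat.card K) (P.S K) x
      (fun _ : {_u : Unit // ∀ a, eval x (P.s j a) = 0} => P.s j b)

/-- [GP blow] The snc pair `X'(X)`, `(X'(Y_i))_{i ≠ j}`: smoothness condition. Uses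
`S_blowcut`.

Proof: let `z ∈ X'`, `x = z ∘ inl ∈ X` and `b` from `P.cut x`. Apply `S_blowcut` with
`e_j, s_j, b_j` and the family `l i = s_i(b_i)`, `i ≠ j`, `s_i(x) = 0`; its hypothesis is the
condition `P.cut x` reindexed along
`{i ≠ j, s_i(x) = 0} ⊕ {s_j(x) = 0} ≃ {i, s_i(x) = 0}`. From the conclusion drop the function
`u` (a subfamily of an independent family is independent). Note
`eval z (rename inl f) = eval (z ∘ inl) f`. -/
def S_blow (k : Type) [Field k] : Prop := ∀ (P : SNC k) (j : P.J), ∀ z ∈ XP (P.e j) (P.s j) P.X,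
  ∃ b : ∀ i : {i : P.J // i ≠ j}, Fin (P.m i),
    (∀ i : {i : P.J // i ≠ j}, eval z (rename Sum.inl (P.e i.1 (b i) (b i)) :
      MvPolynomial (P.ι ⊕ Option (Fin (P.m j))) k) ≠ 0) ∧
    Cut (P.c + P.m j) (XP (P.e j) (P.s j) P.X) z
      (fun i : {i : {i : P.J // i ≠ j} // ∀ a, eval z (rename Sum.inl (P.s i.1 a) :
        MvPolynomial (P.ι ⊕ Option (Fin (P.m j))) k) = 0} =>
        (rename Sum.inl (P.s i.1.1 (b i.1)) : MvPolynomial (P.ι ⊕ Option (Fin (P.m j))) k))

/-- [GP smprod] Products of smooth varieties are smooth. Uses `S_cutcard`.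
Proof: equations `rename inl (p a)`, `rename inr (p' a')`, `s = rename inl s1 * rename inr s2`;
block diagonal gradients. -/
def S_smprod (k : Type) [Field k] : Prop := ∀ {ι ι' : Type} {c c' : ℕ} (X : Set (ι → k))
  (X' : Set (ι' → k)), IsSmooth c X → IsSmooth c' X' →
  IsSmooth (c + c') {z : ι ⊕ ι' → k | z ∘ Sum.inl ∈ X ∧ z ∘ Sum.inr ∈ X'}

/-- [GP smgm] `X × G_m` is smooth. Uses `S_cutcard`.
Proof: one more equation `u w - 1` with gradient `(0; w; u) ≠ 0`. -/
def S_smgm (k : Type) [Field k] : Prop := ∀ {ι : Type} {c : ℕ} (X : Set (ι → k)), IsSmooth c X →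
  IsSmooth (c + 1) {z : ι ⊕ Fin 2 → k | z ∘ Sum.inl ∈ X ∧ z (Sum.inr 0) * z (Sum.inr 1) = 1}

/-- [GP smgraph] The graph of a polynomial map on a smooth variety is smooth. Uses `S_cutcard`.
Proof: more equations `y_j - w_j(x)`, with gradients `(-∇w_j; ε_j)`. -/
def S_smgraph (k : Type) [Field k] : Prop := ∀ {ι κ : Type} [Fintype κ] {c : ℕ}
  (X : Set (ι → k)) (w : κ → MvPolynomial ι k), IsSmooth c X →
  IsSmooth (c + Fintype.card κ) {z : ι ⊕ κ → k | z ∘ Sum.inl ∈ X ∧
    ∀ j, z (Sum.inr j) = eval (z ∘ Sum.inl) (w j)}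

/-- [GP smreindex] Smoothness is invariant under renaming of the coordinates by a bijection.
Proof: transport everything with `MvPolynomial.rename ε`; the gradient of `rename ε p` at `z` is
the gradient of `p` at `z ∘ ε`, composed with `ε.symm`. -/
def S_smreindex (k : Type) [Field k] : Prop := ∀ {ι ι' : Type} (ε : ι ≃ ι') {c : ℕ}
  (X : Set (ι → k)), IsSmooth c X → IsSmooth c {z : ι' → k | z ∘ ε ∈ X}

end Geom

/-! ## P. the inductive step and the conclusion of part A -/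

/-- The snc pair `(X'(X), ⋃_{i ≠ j} X'(Y_i))`. -/
def SNC.blow {k : Type} [Field k] (hblow : S_blow k) (P : SNC k) (j : P.J) : SNC k :=
  haveI := P.fin
  haveI := P.finJ
  { ι := P.ι ⊕ Option (Fin (P.m j))
    fin := inferInstance
    X := XP (P.e j) (P.s j) P.X
    algX := XP_alg _ _ P.algX
    c := P.c + P.m j
    J := {i : P.J // i ≠ j}
    finJ := inferInstance
    m := fun i => P.m i
    e := fun i a b => rename Sum.inl (P.e i a b)
    s := fun i a => rename Sum.inl (P.s i a)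
    sec := fun i => ⟨fun z hz => by simpa only [eval_rename] using (P.sec i).trace _ hz.1,
      fun z hz a b c d => by simpa only [eval_rename] using (P.sec i).minors _ hz.1 a b c d,
      fun z hz a => by simpa only [eval_rename] using (P.sec i).sec _ hz.1 a⟩
    cut := hblow P j }

section Push

variable {k : Type} [Field k] {A : Type u} [Category.{v} A] [Abelian A] [MonoidalCategory A]
  (T : CohTheory k A)

/-- [GP push] `h^i(X, ⋃_i Y_i) ⊗ L` embeds into `h^{i+1}(X'(X), ⋃_{i ≠ j} X'(Y_i))`. Uses `S_k2`,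
`S_rel`, `S_strata`.

Proof: `S_k2` with `B = X`, `s = s_j`, `C = ⋃_{i ≠ j} Y_i`, `D = ⋃_i Y_i` gives a monomorphism
`h^i(P.pair) ⊗ L ⟶ h^{i+1}(P(X), P(C))`, and `φ : (P(X), P(C)) → (X'(X), X'(C))` is a
quasi-isomorphism by `S_rel` with `K = ∅`, `I = {i ≠ j}` (`P.S ∅ = X`,
`P.SU ∅ I = ⋃_{i ≠ j} Y_i = C`). Finally `(X'(X), X'(C))` is `(P.blow j).pair` (equality of the
two sets `Y`). -/
def S_push (hblow : S_blow k) : Prop := ∀ (P : SNC k) (j : P.J) (i : ℤ),
  ∃ f : (T.h i).obj (op P.pair) ⊗ T.L ⟶ (T.h (i + 1)).obj (op (P.blow hblow j).pair), Mono f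

/-- [GP tensmono] `- ⊗ L^{⊗ n}` preserves monomorphisms and epimorphisms.

Proof: `L ⊗ tate ≅ 1`, so `(- ⊗ L)` followed by `(- ⊗ tate)` is isomorphic to the identity
functor (`tensorRight`, associator, unitor); hence if `f ▷ L` ... precisely: `- ⊗ L` is faithful;
we need that it preserves monos: it is an equivalence. Show first that also `tate ⊗ L ≅ 1`:
this needs a braiding; here `A` is symmetric: `β ≪≫ tateIso`. So `tensorRight L` is an equivalence
of categories with inverse `tensorRight tate` and preserves monomorphisms and epimorphisms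
(`Functor.map_mono`, `Functor.map_epi` for an equivalence). Induct on `n`
(`tpow L (n+1) = tpow L n ⊗ L`, `X ◁ ...`; use the associator). -/
def S_tensmono [SymmetricCategory A] : Prop := ∀ {X Y : A} (f : X ⟶ Y) (n : ℕ),
  (Mono f → Mono (f ▷ tpow T.L n)) ∧ (Epi f → Epi (f ▷ tpow T.L n))

/-- [GP snc] Every `h^i(P) ⊗ L^{⊗ |J|}`, `P` an snc pair with components indexed by `J`, embeds
into `h^{i+|J|}` of a smooth affine variety. Uses `S_push`, `S_tensmono`.

Proof: induction on `|J| = Nat.card P.J`. If `J` is empty then `⋃_j Y_j = ∅`, `X` is smooth of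
codimension `c` by `P.cut` (a family indexed by an empty type), and `ρ_` is an isomorphism
`h^i(X) ⊗ 1 ≅ h^i(X)`. If `j ∈ J`: `h^i(P) ⊗ L^{n+1} ≅ (h^i(P) ⊗ L) ⊗ L^n` (by induction on
`n`: `L ⊗ L^n ≅ L^n ⊗ L`, with the associator) `⟶ h^{i+1}(P.blow j) ⊗ L^n` (`S_push`,
`S_tensmono`) `⟶ h^{i+1+n}(X'')` by the induction hypothesis for `P.blow j`, whose index type
`{i // i ≠ j}` has one element less. -/
def S_snc [SymmetricCategory A] : Prop := ∀ (P : SNC k) (i : ℤ),
  ∃ (ι : Type) (_ : Finite ι) (c : ℕ) (X : Set (ι → k)) (hX : IsSmooth c X),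
    ∃ f : (T.h i).obj (op P.pair) ⊗ tpow T.L (Nat.card P.J) ⟶
      (T.h (i + (Nat.card P.J : ℤ))).obj (op (AffPair.abs hX.1)), Mono f

end Push

end

end Pool.Agent.Lib.MP_ae0f86_nt
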