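import Pool.Agent.Lib.MP_ae0f86_nt.StmT

/-!
# MP_ae0f86_nt : statements of the pieces, part D (asymptotic density of the periods)

For `M` in `A` let `T = 1 ⊞ (M ⊞ M^∨)`, `W_n = T^{⊗ n}`, `R = PerAlg HdR HB ⟨M⟩`. The subspace
`V = fw T` of `R` spanned by the symbols of `T` contains `1` and generates `R`, `V^n = fw W_n`,
`dim V^n = dim EndBetti W_n`, and `ev(V^n)` is the span of the periods of `W_n`. We compare the
growth of `dim V^n` and of `dim ev(V^n)`.
-/

open CategoryTheory CategoryTheory.Limits Opposite MonoidalCategory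

universe w v u

namespace Pool.Agent.Lib.MP_ae0f86_nt

noncomputable section

attribute [local instance] CategoryTheory.Abelian.hasFiniteBiproducts

/-! ### growth of the powers of a subspace -/

/-- [GD hilb] Let `V` be a subspace of dimension `≤ m + 1` of a commutative algebra, `1 ∈ V`. Then
`(n + 1) dim V^{n+1} ≤ (n + 1 + m) dim V^n`.

Proof. If `R` is trivial everything is `0`. Otherwise choose `v_1, ..., v_m ∈ V` with
`V = span(1, v_1, ..., v_m)` (e.g. extend `1` to a basis of `V`; fill up with zeros). For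
`a ∈ ℕ^m` let `|a| = ∑ a_i` and `v^a = ∏ v_i^{a_i}`. Then `V^n = span {v^a | |a| ≤ n}` (induction on
`n`). Order `ℕ^m` (`Fin m →₀ ℕ`) by the degree-lexicographic order (`MonomialOrder.degLex`), a
well-order which is compatible with addition and for which `b ≤ a` implies `|b| ≤ |a|`. Let
`B` be the set of all `a` with `v^a ∉ span {v^b | b < a}`.
(1) `{v^a | a ∈ B, |a| ≤ n}` spans `V^n`: well-founded induction shows that
`v^a ∈ span {v^b | b ∈ B, b ≤ a}` for all `a`.
(2) `(v^a)_{a ∈ B}` is linearly independent: in a nontrivial relation consider the largest `a`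
with nonzero coefficient; it would give `v^a ∈ span {v^b | b < a}`. So
`dim V^n = D(n) := #{a ∈ B | |a| ≤ n}`.
(3) `B` is closed under taking divisors: if `b ≤ a` componentwise and `b ∉ B`, then
`v^b ∈ span {v^c | c < b}`, so `v^a = v^{a-b} v^b ∈ span {v^{c+a-b} | c < b}` and
`c + (a - b) < a`, so `a ∉ B`.
(4) Let `h(n+1) = D(n+1) - D(n) = #{a ∈ B | |a| = n + 1}`. The map `(a, i, j) ↦ (i, a - j e_i)`
from the triples with `a ∈ B`, `|a| = n + 1`, `i ≤ m`, `1 ≤ j ≤ a_i` to
`{1, ..., m} × {b ∈ B | |b| ≤ n}` is injective, since `j = n + 1 - |b|` and `a = b + j e_i` can be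
recovered from `(i, b)`. For each `a` there are `∑_i a_i = n + 1` pairs `(i, j)`. So
`(n + 1) h(n+1) ≤ m D(n)`, i.e. `(n + 1) D(n+1) ≤ (n + 1 + m) D(n)`. -/
def S_hilb : Prop := ∀ (K : Type) [Field K] (R : Type w) [CommRing R] [Algebra K R]
  (V : Submodule K R) [Module.Finite K V], (1 : R) ∈ V → ∀ m : ℕ, Module.finrank K V ≤ m + 1 →
  ∀ n : ℕ, (n + 1) * Module.finrank K ↥(V ^ (n + 1)) ≤ (n + 1 + m) * Module.finrank K ↥(V ^ n)

/-- [GD gkup] Upper bound for the growth of `V^n` in a finitely generated domain of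
transcendence degree `d`.

Proof. Noether normalisation (`exists_integral_inj_algHom_of_fg` or
`Algebra.FiniteType.exists...`): an injective integral `g : K[y_1, ..., y_s] → R`; then `s = d`
(`g(y)` is a transcendence basis: see the proof of `p_fgdim` in `P/Fgdim.lean`), and `R` is a
finite module over `K[y]` (integral and of finite type), generated by `w_1, ..., w_k`. As `V` is
finite-dimensional there is `c` with `V w_j ⊆ ∑_l g(K[y]_{≤ c}) w_l` for all `j` and
`1 ∈ ∑_l g(K[y]_{≤ c}) w_l` (`K[y]_{≤ c}` = polynomials of total degree `≤ c`). By induction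
`V^n ⊆ ∑_l g(K[y]_{≤ c(n+1)}) w_l`, which has dimension at most
`k (c(n+1) + 1)^d ≤ k (c + 1)^d (n + 1)^d` (a polynomial of degree `≤ c'` in `d` variables is a
combination of the monomials with exponents in `{0, ..., c'}^d`). -/
def S_gkup : Prop := ∀ (K : Type) [Field K] (R : Type w) [CommRing R] [IsDomain R]
  [Algebra K R] [Algebra.FiniteType K R] (V : Submodule K R) [Module.Finite K V] (d : ℕ),
  Algebra.trdeg K R = (d : Cardinal) →
  ∃ b : ℝ, ∀ n : ℕ, (Module.finrank K ↥(V ^ n) : ℝ) ≤ b * ((n : ℝ) + 1) ^ d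

/-- [GD gklow] Lower bound for the growth of `V^n` in a domain of transcendence degree `d`.

Proof. There are algebraically independent `y_1, ..., y_d ∈ R`
(`exists_isTranscendenceBasis`). By assumption there is `k ≥ 1` with `y_i ∈ V^k` for all `i`
(`V^n ⊆ V^{n+1}` because `1 ∈ V`). So `V^{kn}` contains the linearly independent monomials `y^a`,
`|a| ≤ n`, in particular the `y^a` with `a_i ≤ n / d` (integer division; `d ≥ 1`), so
`dim V^{kn} ≥ (n/d + 1)^d ≥ ((n + 1) / d)^d`. For general `n` put `q = n / k`: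
`V^n ⊇ V^{kq}` and `q + 1 ≥ (n + 1) / k`. So `dim V^n ≥ ((n+1) / (k d))^d`. For `d = 0` use
`dim V^n ≥ 1` (`1 ∈ V^n`). `V^n` is finite-dimensional (`Submodule.FG.pow`). -/
def S_gklow : Prop := ∀ (K : Type) [Field K] (R : Type w) [CommRing R] [IsDomain R]
  [Algebra K R] (V : Submodule K R) [Module.Finite K V] (d : ℕ), (1 : R) ∈ V →
  (∀ x : R, ∃ n : ℕ, x ∈ V ^ n) → Algebra.trdeg K R = (d : Cardinal) →
  ∃ a : ℝ, 0 < a ∧ ∀ n : ℕ, a * ((n : ℝ) + 1) ^ d ≤ (Module.finrank K ↥(V ^ n) : ℝ)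

/-! ### rings which are finite products of domains -/

/-- `e_1, ..., e_r` are orthogonal idempotents with sum `1`, and `e_i R` is a domain for each
`i`; so `R` is the product of the `r` domains `e_i R`. -/
structure Dec (R : Type w) [CommRing R] (r : ℕ) (e : Fin r → R) : Prop where
  ne : ∀ i, e i ≠ 0
  idem : ∀ i, e i * e i = e i
  orth : ∀ i j, i ≠ j → e i * e j = 0
  sum : ∑ i, e i = 1
  dom : ∀ i a b, e i * (a * b) = 0 → e i * a = 0 ∨ e i * b = 0

/-- [GD decomp] A Noetherian ring all of whose local rings at maximal ideals are domains is a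
finite product of domains.

Proof. For a maximal ideal `m` let `q_m = {a | ∃ s ∉ m, s a = 0}`. By hypothesis (applied to
`s a` and `b` if `s a b = 0`) `q_m` is a prime ideal, and `q_m ⊆ p` for every prime ideal
`p ⊆ m` (`s a = 0 ∈ p`, `s ∉ p`). So `q_m` is the only minimal prime ideal contained in `m`. Let
`p_1, ..., p_r` be the minimal prime ideals (`minimalPrimes.finite_of_isNoetherianRing`). Two
different ones are comaximal: otherwise they are contained in a common `m`, so both are equal to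
`q_m`. The intersection of the `p_i` is `0`: an element `a` of all `p_i` is in all `q_m` (the
minimal prime contained in `m` is `q_m`), so its annihilator is not contained in any maximal
ideal, so `a = 0`. By the Chinese remainder theorem (`Ideal.quotientInfRingEquivPiQuotient`)
`R ≅ ∏ R/p_i`; let `e_i` be the preimage of the `i`-th standard idempotent. -/
def S_decomp : Prop := ∀ (R : Type w) [CommRing R] [IsNoetherianRing R],
  (∀ (m : Ideal R), m.IsMaximal → ∀ a b : R, a * b = 0 →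
    (∃ s, s ∉ m ∧ s * a = 0) ∨ (∃ s, s ∉ m ∧ s * b = 0)) →
  ∃ (r : ℕ) (e : Fin r → R), Dec R r e

/-- [GD comps] The spectrum of a product of `r` domains has `r` connected components.

Proof. `p_i = {a | e_i a = 0}` is a prime ideal (`dom`, and `e_i ≠ 0`). For a prime ideal `p`
exactly one `e_i` is not in `p` (`∑ e_i = 1`, `e_i e_j = 0`), and then `p_i ⊆ p`. So the open sets
`U_i = basicOpen (e_i)` form a partition, are open and closed, and `U_i = closure {p_i}` is
irreducible (`zeroLocus p_i`), hence connected. So the locally constant map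
`Spec R → Fin r`, `p ↦ i` for `p ∈ U_i`, which is surjective and has connected fibres, induces a
bijection `ConnectedComponents (Spec R) ≃ Fin r` (`Continuous.connectedComponentsLift`,
`ConnectedComponents.coe_eq_coe`, `IsClopen.connectedComponent_subset`). The last statement: `Spec R`
is connected iff it has exactly one connected component (if `r = 1` then `Spec R = U_0`; if
`Spec R` is connected, all points are in one component). -/
def S_comps : Prop := ∀ (R : Type w) [CommRing R] (r : ℕ) (e : Fin r → R), Dec R r e →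
  Finite (_root_.ConnectedComponents (PrimeSpectrum R)) ∧
  Nat.card (_root_.ConnectedComponents (PrimeSpectrum R)) = r ∧
  (ConnectedSpace (PrimeSpectrum R) ↔ r = 1)

/-- [GD decdom] `R / (1 - e_i) ≅ e_i R`.
Proof: if `a = (1 - e_i) b` then `e_i a = 0` (`idem`); if `e_i a = 0` then
`a = (1 - e_i) a`. `R / (1 - e_i)` is nontrivial as `e_i * 1 ≠ 0`, and has no zero divisors by
`dom`. -/
def S_decdom : Prop := ∀ (R : Type w) [CommRing R] (r : ℕ) (e : Fin r → R), Dec R r e → ∀ i,
  IsDomain (R ⧸ Ideal.span {1 - e i}) ∧ ∀ a, a ∈ Ideal.span {1 - e i} ↔ e i * a = 0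

/-- [GD dimdec] If the `e_i` are permuted transitively by ring automorphisms then each factor has
the dimension of `R`. Uses `S_decdom`.

Proof. `≤`: `ringKrullDim_quotient_le`. `≥`: `ringKrullDim` is the supremum of the lengths of
chains `p_0 < ... < p_n` of primes of `R`. As `∑ e_j = 1` there is `j` with `e_j ∉ p_n`, so
`e_j ∉ p_l` for all `l`, so `1 - e_j ∈ p_l` for all `l` (`e_j (1 - e_j) = 0`). So the chain comes from
a chain of primes of `R / (1 - e_j)` (`ringKrullDim_quotient`, `PrimeSpectrum` of a quotient is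
`zeroLocus`), and `n ≤ ringKrullDim (R / (1 - e_j))`. An automorphism with `τ e_i = e_j` maps
`(1 - e_i)` onto `(1 - e_j)` and induces an isomorphism `R / (1 - e_i) ≅ R / (1 - e_j)`
(`Ideal.quotientEquiv`, `ringKrullDim_eq_of_ringEquiv`). (`r ≥ 1` because of the index `i`.) -/
def S_dimdec : Prop := ∀ (R : Type w) [CommRing R] (r : ℕ) (e : Fin r → R), Dec R r e →
  (∀ i j, ∃ τ : R ≃+* R, τ (e i) = e j) →
  ∀ i, ringKrullDim (R ⧸ Ideal.span {1 - e i}) = ringKrullDim R

/-- The image of the subspace `F` in the factor `R / (1 - e) ≅ e R`. -/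
def comp (K : Type) [Field K] {R : Type w} [CommRing R] [Algebra K R] (e : R)
    (F : Submodule K R) : Submodule K (R ⧸ Ideal.span {1 - e}) :=
  F.map (Ideal.Quotient.mkₐ K (Ideal.span {1 - e})).toLinearMap

/-- [GD cut] Dimensions of the images of a finite-dimensional subspace `F` in the factors. Uses
`S_decdom`.

Proof. (1) `R → ∏ R/(1 - e_i)` is injective: if `e_i a = 0` for all `i` then `a = (∑ e_i) a = 0`. So
`F` embeds into `∏ comp e_i F`, whose dimension is the sum. (2) Let `F_i = e_i F` (image of `F`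
under multiplication by `e_i`). `F_i ⊆ F' * F`, the sum of the `F_i` is direct (multiply by `e_i`),
and `F_i → comp e_i F` is bijective: the class of `e_i f` is the class of `f`, and if
`e_i f` is in `(1 - e_i)` then `e_i (e_i f) = 0`, i.e. `e_i f = 0`. So
`∑ dim comp e_i F = ∑ dim F_i = dim (⨆ F_i) ≤ dim F' * F`. (`F' * F` is finite-dimensional:
`Submodule.FG.mul`.) (3) `τ` maps `(1 - e_i)` onto `(1 - e_j)`, so it induces an isomorphism of the
quotients which maps `comp e_i F` onto `comp e_j (τ F) = comp e_j F`. (4) `comp` of a power is the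
power of `comp` (`Submodule.map_pow`) and `comp e V` contains `1` if `V` does, and exhausts the
quotient if the powers of `V` exhaust `R`. -/
def S_cut : Prop := ∀ (K : Type) [Field K] (R : Type w) [CommRing R] [Algebra K R] (r : ℕ)
  (e : Fin r → R), Dec R r e →
  (∀ (F : Submodule K R) [Module.Finite K F],
    Module.finrank K F ≤ ∑ i, Module.finrank K (comp K (e i) F)) ∧
  (∀ (F F' : Submodule K R) [Module.Finite K F] [Module.Finite K F'], (∀ j, e j ∈ F') →
    ∑ i, Module.finrank K (comp K (e i) F) ≤ Module.finrank K ↥(F' * F)) ∧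
  (∀ (F : Submodule K R) (i j : Fin r) (τ : R ≃ₐ[K] R), τ (e i) = e j →
    F.map τ.toLinearMap = F →
    Module.finrank K (comp K (e i) F) = Module.finrank K (comp K (e j) F)) ∧
  (∀ (V : Submodule K R) (i : Fin r) (n : ℕ), comp K (e i) (V ^ n) = (comp K (e i) V) ^ n) ∧
  (∀ (V : Submodule K R) (i : Fin r), (1 : R) ∈ V → 1 ∈ comp K (e i) V) ∧
  (∀ (V : Submodule K R) (i : Fin r), (∀ x : R, ∃ n : ℕ, x ∈ V ^ n) →
    ∀ x : R ⧸ Ideal.span {1 - e i}, ∃ n : ℕ, x ∈ (comp K (e i) V) ^ n) ∧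
  (∀ (F : Submodule K R) [Module.Finite K F] (i : Fin r), Module.Finite K (comp K (e i) F)) ∧
  (∀ (F : Submodule K R) [Module.Finite K F] (i : Fin r),
    Module.finrank K (comp K (e i) F) ≤ Module.finrank K F)

/-- [GD evcut] A homomorphism `ev` to a field is supported in one factor.

Proof. (1) `∑ ev(e_i) = 1` and `ev(e_i) ev(e_j) = 0` for `i ≠ j`, `ev(e_i)^2 = ev(e_i)`; so some
`ev(e_i) ≠ 0` and then it is `1`. (2) `ev` kills `1 - e_i`, so it factors through
`R / (1 - e_i)` (`Ideal.Quotient.liftₐ`), and `ev(F)` is the image of `comp e_i F`. (3) If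
`ev(e_i a) = 0` implies `e_i a = 0` then the induced map on `R / (1 - e_i)` is injective: if
`ev(a) = 0` then `ev(e_i a) = 0`, so `e_i a = 0`, so `a = (1 - e_i) a`. So the dimensions are
equal. -/
def S_evcut : Prop := ∀ (K : Type) [Field K] (R : Type w) [CommRing R] [Algebra K R] (r : ℕ)
  (e : Fin r → R), Dec R r e → ∀ (L : Type) [Field L] [Algebra K L] (ev : R →ₐ[K] L),
  (∃ i, ev (e i) = 1) ∧ ∀ i, ev (e i) = 1 → ∀ (F : Submodule K R) [Module.Finite K F],
    Module.finrank K (F.map ev.toLinearMap) ≤ Module.finrank K (comp K (e i) F) ∧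
    ((∀ a, ev (e i * a) = 0 → e i * a = 0) →
      Module.finrank K (F.map ev.toLinearMap) = Module.finrank K (comp K (e i) F))

/-- [GD injdim] If the image of `ev` has the dimension of the factor `e_i R` then `ev` is
injective on `e_i R`. Uses `S_decdom`, `S_fgdim`, `S_surjdim`.

Proof. Let `R_i = R / (1 - e_i)`, a finitely generated domain (`S_decdom`). `ev` kills
`1 - e_i`, so it induces `ev' : R_i → L` with the same range, and
`ev.range ≅ R_i / ker ev'` as rings (`RingHom.quotientKerEquivRange` or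
`Ideal.quotientKerAlgEquivOfSurjective` for `ev'.rangeRestrict`). So
`ringKrullDim ev.range = ringKrullDim (R_i / ker ev') ≤ ringKrullDim R_i`
(`ringKrullDim_quotient_le`). If there is equality then `ker ev' = ⊥` by `S_surjdim`
(`ringKrullDim R_i ≠ ⊤` by `S_fgdim`; `ker ev' ≠ ⊤` because `ev' 1 = 1`). If `ev(e_i a) = 0`
then `ev'(a) = ev(a) = ev(e_i) ev(a) = 0`, so `a ∈ (1 - e_i)` and `e_i a = 0`. -/
def S_injdim : Prop := ∀ (K : Type) [Field K] (R : Type w) [CommRing R] [Algebra K R]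
  [Algebra.FiniteType K R] (r : ℕ) (e : Fin r → R), Dec R r e →
  ∀ (L : Type) [Field L] [Algebra K L] (ev : R →ₐ[K] L) (i : Fin r), ev (e i) = 1 →
  ringKrullDim ev.range ≤ ringKrullDim (R ⧸ Ideal.span {1 - e i}) ∧
  (ringKrullDim ev.range = ringKrullDim (R ⧸ Ideal.span {1 - e i}) →
    ∀ a, ev (e i * a) = 0 → e i * a = 0)

/-- [GD grown] Growth of `dim V^n` in a product of domains of transcendence degree `g`. Uses
`S_gkup`, `S_gklow`, `S_cut`, `S_decdom`.

Proof. Lower bound: let `i : Fin r`; `dim V^n ≥ dim comp e_i (V^n) = dim (comp e_i V)^n` and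
`S_gklow` for `comp e_i V` in the domain `R / (1 - e_i)`. Upper bound:
`dim V^n ≤ ∑_i dim (comp e_i V)^n` (`S_cut`) and `S_gkup` for each `i`
(the sum of the constants; `R / (1 - e_i)` is of finite type). -/
def S_grown : Prop := ∀ (K : Type) [Field K] (R : Type w) [CommRing R] [Algebra K R]
  [Algebra.FiniteType K R] (r : ℕ) (e : Fin r → R), Dec R r e → 1 ≤ r → ∀ g : ℕ,
  (∀ i, Algebra.trdeg K (R ⧸ Ideal.span {1 - e i}) = (g : Cardinal)) →
  ∀ (V : Submodule K R) [Module.Finite K V], (1 : R) ∈ V → (∀ x : R, ∃ n : ℕ, x ∈ V ^ n) →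
  ∃ a b : ℝ, 0 < a ∧ ∀ n : ℕ, a * ((n : ℝ) + 1) ^ g ≤ (Module.finrank K ↥(V ^ n) : ℝ) ∧
    (Module.finrank K ↥(V ^ n) : ℝ) ≤ b * ((n : ℝ) + 1) ^ g

/-- [GD growp] Growth of `dim ev(V^n)`. Uses `S_gkup`, `S_gklow`.

Proof. Let `C = ev.range`, a finitely generated domain, `ρ = ev.rangeRestrict : R → C`
(surjective) and `V' = ρ(V)`. `1 ∈ V'`, the powers `V'^n = ρ(V^n)` (`Submodule.map_pow`) exhaust
`C`, and `ev(V^n)` is the image of `V'^n` under the injective `C → L` (`Subalgebra.val`,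
`ev = C.val ∘ ρ`), so it has the dimension of `V'^n`. Apply `S_gklow`, `S_gkup` to `V'`. -/
def S_growp : Prop := ∀ (K : Type) [Field K] (R : Type w) [CommRing R] [Algebra K R]
  [Algebra.FiniteType K R] (L : Type) [Field L] [Algebra K L] (ev : R →ₐ[K] L) (t : ℕ),
  Algebra.trdeg K ev.range = (t : Cardinal) →
  ∀ (V : Submodule K R) [Module.Finite K V], (1 : R) ∈ V → (∀ x : R, ∃ n : ℕ, x ∈ V ^ n) →
  ∃ a b : ℝ, 0 < a ∧ ∀ n : ℕ,
    a * ((n : ℝ) + 1) ^ t ≤ (Module.finrank K ((V ^ n).map ev.toLinearMap) : ℝ) ∧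
    (Module.finrank K ((V ^ n).map ev.toLinearMap) : ℝ) ≤ b * ((n : ℝ) + 1) ^ t

/-! ### two lemmas on sequences -/

/-- [GD ratio] An elementary lemma.

Proof. `N n ≥ 1` as `N n ≥ D n ≥ 1`. Lower bound: `N n ≤ r D n`. Upper bound for `n = l + k`:
`N (l + k) ≥ r D l`, and by induction on `k`
`D (l + k) ≤ D l · ∏_{j=1}^{k} (1 + m / (l + j)) ≤ D l (1 + m / (l + 1))^k`; with `x = m / (l + 1) ≤ m`,
`(1 + x)^k - 1 = x ∑_{j<k} (1 + x)^j ≤ x k (1 + m)^k`. So
`D (l+k) / N (l+k) ≤ (1/r) (1 + C0 / (l + 1))`, `C0 = m k (1 + m)^k`, and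
`1 / (l + 1) ≤ (k + 1) / (l + k + 1)`. For `n < k`: `D n / N n ≤ 1 ≤ k / (n + 1)`... so take
`C = C0 (k + 1) + k`. -/
def S_ratio : Prop := ∀ (N D : ℕ → ℕ) (r k m : ℕ), 1 ≤ r → (∀ n, 1 ≤ D n) →
  (∀ n, D n ≤ N n) → (∀ n, N n ≤ r * D n) → (∀ n, r * D n ≤ N (n + k)) →
  (∀ n, (n + 1) * D (n + 1) ≤ (n + 1 + m) * D n) →
  ∃ C : ℝ, ∀ n : ℕ, (1 : ℝ) / r ≤ (D n : ℝ) / N n ∧
    (D n : ℝ) / N n ≤ 1 / r + C / ((n : ℝ) + 1)

/-- [GD freq] An elementary lemma on limits.

Proof. `P n / N n → 1/r` if `t = g` (squeeze) and `→ 0` if `t < g`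
(`0 ≤ P n / N n ≤ (b/a) (n+1)^t / (n+1)^g ≤ (b/a) / (n + 1)`). If `δ N n ≤ P n` for infinitely many
`n` then the limit is `≥ δ`: so if `δ > 0` then `t = g`, and if `δ > 1/2` then `t = g` and
`1/r > 1/2`, i.e. `r = 1`. Conversely if `t = g` then `P n / N n ≥ 1/r` for all `n`, so
`δ = 1/r` works for the first equivalence and, if `r = 1`, `δ = 1` for the second. -/
def S_freq : Prop := ∀ (N P : ℕ → ℝ) (r g t : ℕ), 1 ≤ r → t ≤ g → (∀ n, 0 < N n) →
  (∀ n, 0 ≤ P n) →
  (∃ a b : ℝ, 0 < a ∧ ∀ n : ℕ, a * ((n : ℝ) + 1) ^ g ≤ N n ∧ P n ≤ b * ((n : ℝ) + 1) ^ t) →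
  (t = g → ∃ C : ℝ, ∀ n : ℕ, (1 : ℝ) / r ≤ P n / N n ∧
    P n / N n ≤ 1 / r + C / ((n : ℝ) + 1)) →
  Filter.Tendsto (fun n => P n / N n) Filter.atTop (nhds (if t = g then (1 : ℝ) / r else 0)) ∧
  (t = g ↔ ∃ δ : ℝ, 0 < δ ∧ ∃ᶠ n in Filter.atTop, δ * N n ≤ P n) ∧
  (r = 1 ∧ t = g ↔ ∃ δ : ℝ, 1 / 2 < δ ∧ ∃ᶠ n in Filter.atTop, δ * N n ≤ P n)

/-! ### the subspaces spanned by the symbols of one object -/

section Fw

variable {A : Type u} [Category.{v} A] [Abelian A] [MonoidalCategory A] [SymmetricCategory A]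
  {K : Type} [Field K] (H : A ⥤ ModuleCat.{0} K) (HB : A ⥤ ModuleCat.{0} ℚ)
  [FibreFunctor H] [FibreFunctor HB]

/-- The subspace of the formal period algebra spanned by the symbols of `W`. -/
def fw {S : A → Prop} {W : A} (hW : S W) : Submodule K (PerAlg H HB S) :=
  Submodule.span K {r | ∃ ω σ, r = asym H HB hW ω σ}

/-- [GD arel] The relations between the classes of symbols in the formal period algebra. Uses
`S_fprel` (for `H`, `HB`), `S_algrel`. Proof: apply the linear map `toPerAlg`, which maps `sym` to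
`asym`, to the relations of `S_fprel`. -/
def S_arel : Prop := ∀ (S : A → Prop),
  (∀ {N : A} (hN : S N) (ω ω' : H.obj N) (σ : Module.Dual ℚ (HB.obj N)),
    asym H HB hN (ω + ω') σ = asym H HB hN ω σ + asym H HB hN ω' σ) ∧
  (∀ {N : A} (hN : S N) (a : K) (ω : H.obj N) (σ : Module.Dual ℚ (HB.obj N)),
    asym H HB hN (a • ω) σ = a • asym H HB hN ω σ) ∧
  (∀ {N : A} (hN : S N) (ω : H.obj N) (σ σ' : Module.Dual ℚ (HB.obj N)),
    asym H HB hN ω (σ + σ') = asym H HB hN ω σ + asym H HB hN ω σ') ∧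
  (∀ {N : A} (hN : S N) (q : ℚ) (ω : H.obj N) (σ : Module.Dual ℚ (HB.obj N)),
    asym H HB hN ω (q • σ) = (q : K) • asym H HB hN ω σ) ∧
  (∀ {N N' : A} (hN : S N) (hN' : S N') (f : N ⟶ N') (ω : H.obj N)
    (σ' : Module.Dual ℚ (HB.obj N')),
    asym H HB hN ω (σ' ∘ₗ (HB.map f).hom) = asym H HB hN' ((H.map f).hom ω) σ') ∧
  (∀ {N : A} (hN : S N) (σ : Module.Dual ℚ (HB.obj N)), asym H HB hN 0 σ = 0) ∧
  (∀ {N : A} (hN : S N) (ω : H.obj N), asym H HB hN ω 0 = 0)

/-- [GD fwfin] `fw W` is finite-dimensional. Uses `S_arel`.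
Proof: by bilinearity it is spanned by the `asym W (ω i) (β j)` for finite bases `ω` of `H(W)` and
`β` of `HB(W)^∨`. -/
def S_fwfin : Prop := ∀ {S : A → Prop} {W : A} (hW : S W), Module.Finite K (fw H HB hW)

/-- [GD fwlin] The symbols of the subquotients of `W^n` are in `fw W`. Uses `S_arel`, `S_lincl`.

Proof (as for `S_range`, see `P/Range.lean`): let `i : N' ↪ W^n`, `p : N' ↠ N`. `W^n` and `N'` are
in `S` (`S_lincl`: `Lin W` is closed and contained in `S`). `H(p)` is surjective: `ω = H(p) ω'`, so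
`asym N ω σ = asym N' ω' (σ ∘ HB(p))`. `HB(i)` is injective, so `σ ∘ HB(p) = σ' ∘ HB(i)` for a
functional `σ'` on `HB(W^n)`; so it equals `asym W^n (H(i) ω') σ'`. Finally for `η ∈ H(W^n)`,
`η = ∑ H(ι_l) η_l` with `η_l = H(pr_l) η` and `asym W^n η σ' = ∑ asym W η_l (σ' ∘ HB(ι_l))`. -/
def S_fwlin : Prop := ∀ {S : A → Prop}, Closed S → ∀ {N W : A} (hN : S N) (hW : S W),
  Lin W N → fw H HB hN ≤ fw H HB hW

/-- [GD fwprod] `fw (M ⊗ N) = fw M * fw N` and `fw 1 = K`. Uses `S_arel`, `S_algrel`.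

Proof. `≥`: `Submodule.mul_le` and span induction, `asym M ω σ * asym N η τ =
asym (M ⊗ N) (mul ω η) (σ ⊠ τ)` (`S_algrel`). `≤`: every element of `H(M ⊗ N)` is a sum of elements
`mul ω η`, and every functional on `HB(M ⊗ N)` is a sum of functionals `σ ⊠ τ = tdual HB σ τ`
(`FibreFunctor.bij`; the spaces are finite-dimensional, `TensorProduct.dualDistribEquiv`);
use bilinearity. `fw 1`: `asym 1 (a • one) σ = a σ(one) • 1` (a functional `σ` on the
one-dimensional `HB(1)` is `σ(one) φ`, `φ(one) = 1`); `Submodule.one_eq_span` or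
`Submodule.mem_one`. -/
def S_fwprod : Prop :=
  (∀ {S : A → Prop} {M N : A} (hM : S M) (hN : S N) (hMN : S (M ⊗ N)),
    fw H HB hMN = fw H HB hM * fw H HB hN) ∧
  ∀ {S : A → Prop} (h1 : S (𝟙_ A)), fw H HB h1 = 1

/-- [GD trans] `K`-points are permuted transitively by automorphisms of the formal period algebra
induced by automorphisms of the fibre functor `H`. Uses `S_pointbij`, `S_points` (for
`Λ = PerAlg H HB S`), `S_algrel`, `S_arel`.

Proof. For `N ∈ S`, `ω ∈ H(N)` let `θ ω = θ_N ω ∈ H(N)` be the unique element with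
`x(asym N (θ ω) σ) = y(asym N ω σ)` for all `σ` (`S_pointbij` for `x` and the `ℚ`-linear map
`σ ↦ y(asym N ω σ)`). By uniqueness `θ` is `K`-linear, natural (`H(f)(θ ω) = θ(H(f) ω)`),
multiplicative (`θ(mul ω η) = mul (θ ω) (θ η)`: it suffices to compare the values of
`x(asym (M ⊗ N) _ ρ)` for `ρ = tdual σ τ`, since these span the dual of `HB(M ⊗ N)`), and
`θ one = one`. Exchanging `x` and `y` gives `θ'` with
`y(asym N (θ' ω) σ) = x(asym N ω σ)`, and `θ θ' = θ' θ = id` by uniqueness. The pairings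
`p N ω σ = asym N (θ ω) σ` define a `Pt` with values in `PerAlg H HB S`, so `S_points` gives an
algebra homomorphism `τ` with `τ(asym N ω σ) = asym N (θ ω) σ`; similarly `τ'` for `θ'`. They are
inverse to each other because they are so on the symbols, which generate (see
`MvPolynomial.algHom_ext` and `Ideal.Quotient.algHom_ext`). `x ∘ τ = y` on the symbols, so
everywhere. `τ(fw W) ⊆ fw W`, `τ'(fw W) ⊆ fw W`. -/
def S_trans [RigidCategory A] [CharZero K] : Prop := ∀ (S : A → Prop), DClosed S →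
  ∀ (x y : PerAlg H HB S →ₐ[K] K), ∃ (τ : PerAlg H HB S ≃ₐ[K] PerAlg H HB S)
    (θ : ∀ {N : A}, S N → (H.obj N ≃ₗ[K] H.obj N)),
    (∀ {N : A} (hN : S N) ω σ, τ (asym H HB hN ω σ) = asym H HB hN (θ hN ω) σ) ∧
    (∀ a, x (τ a) = y a) ∧
    ∀ {W : A} (hW : S W), (fw H HB hW).map τ.toLinearMap = fw H HB hW

variable [RigidCategory A]

/-- The object `T = 1 ⊞ (M ⊞ M^∨)`. -/
abbrev gT (M : A) : A := 𝟙_ A ⊞ (M ⊞ Mᘁ)

omit [SymmetricCategory A] in
theorem gT_mem (M : A) : Gen M (gT M) :=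
  Gen.sum Gen.unit (Gen.sum Gen.base (Gen.dual Gen.base))

omit [SymmetricCategory A] in
theorem gTpow_mem (M : A) (n : ℕ) : Gen M (tpow (gT M) n) := by
  induction n with
  | zero => exact Gen.unit
  | succ n ih => exact Gen.tensor ih (gT_mem M)

/-- [GD fwgen] `V = fw T` contains `1`, generates the formal period algebra of `⟨M⟩`, and
`fw (T^{⊗ n}) = V^n`. Uses `S_fwprod`, `S_fwlin`, `S_gens`, `S_genclosed`, `S_subq`.

Proof. `1`, `M`, `M^∨` are direct summands of `T`, so they are in `Lin T` (subobjects of `T`, which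
is isomorphic to `⨁ over Fin 1`; or use `S_fwlin` only for `Lin T N` with `N ↪ T`), so
`fw 1 = K ≤ V`, `fw M ≤ V`, `fw M^∨ ≤ V` (`S_fwlin`, `Closed (Gen M)` from `S_genclosed`). As
`1 ∈ V` the `V^n` increase and their union is a subalgebra (`V^n * V^l = V^{n+l}`), which contains
the symbols of `M` and of `M^∨`, so is everything (`S_gens`, `Algebra.adjoin_le`). The last
statement by induction: `tpow T 0 = 1`, `tpow T (n+1) = tpow T n ⊗ T` and `S_fwprod`. -/
def S_fwgen : Prop := ∀ M : A, (1 : PerAlg H HB (Gen M)) ∈ fw H HB (gT_mem M) ∧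
  (∀ x : PerAlg H HB (Gen M), ∃ n : ℕ, x ∈ (fw H HB (gT_mem M)) ^ n) ∧
  ∀ n : ℕ, fw H HB (gTpow_mem M n) = (fw H HB (gT_mem M)) ^ n

end Fw

section Lin5

variable {A : Type u} [Category.{v} A] [Abelian A] [MonoidalCategory A] [SymmetricCategory A]

/-- [GD fwdim] `dim fw W = dim EndBetti W`. Uses `S_univ`, `S_psi`, `S_rank`, `S_endbetti`,
`S_lincl`, `S_heredity`, `S_fpring`, `S_algrel`, `S_fwlin`.

Proof. The map `FP (Lin W) → FP S → PerAlg S` (`fpMap`, `toPerAlg`) is injective by `S_heredity`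
(`Lin W` and `S` are closed, `Lin W ⊆ S` by `S_lincl`) and `S_fpring`. It maps `sym N ω σ` to
`asym N ω σ`, so its image is spanned by the `asym N ω σ` with `N ∈ Lin W`, i.e. it is `fw W`
(`S_fwlin`; `W ∈ Lin W`). With `Q`, `π`, `σQ` of `S_univ` for `W` we have a bijection
`Ψ : FP (Lin W) → HdR(Q)` (`S_psi`; `Q ∈ Lin W` as a quotient of `W^n`), and
`dim HdR(Q) = dim HB(Q) = dim EndBetti W` (`S_rank`, `S_endbetti`). See also `P/Linear.lean`. -/
def S_fwdim : Prop := [Linear ℚ A] → ∀ {K : Type} [Field K] [CharZero K] [Algebra K ℂ]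
  {HdR : A ⥤ ModuleCat.{0} K}
  {HB : A ⥤ ModuleCat.{0} ℚ} [FibreFunctor HdR] [FibreFunctor HB] (_ : Comparison HdR HB)
  {S : A → Prop}, TClosed S → ∀ {W : A} (hW : S W),
  Module.finrank K (fw HdR HB hW) = Module.finrank ℚ (EndBetti HB W)

/-- [GD fwev] The image of `fw W` under the evaluation is the span of the periods of `W`.
Proof: `Submodule.map_span`, `evAlg (asym W ω σ) = per W ω σ` (`Ideal.Quotient.liftₐ`,
`MvPolynomial.aeval_X`). -/
def S_fwev : Prop := ∀ {K : Type} [Field K] [Algebra K ℂ] {HdR : A ⥤ ModuleCat.{0} K}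
  {HB : A ⥤ ModuleCat.{0} ℚ} [FibreFunctor HdR] [FibreFunctor HB] (c : Comparison HdR HB)
  {S : A → Prop} {W : A} (hW : S W),
  (fw HdR HB hW).map (c.evAlg S).toLinearMap = Submodule.span K (c.Per W)

end Lin5

section Q1D

variable {A : Type u} [Category.{v} A] [Abelian A] [MonoidalCategory A] [SymmetricCategory A]
  [RigidCategory A] {HdR : A ⥤ ModuleCat.{0} QBar} {HB : A ⥤ ModuleCat.{0} ℚ}
  [FibreFunctor HdR] [FibreFunctor HB]

/-- [GD pdec] The formal period algebra of `⟨M⟩` is a finite product of domains. Uses `S_decomp`,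
`S_cartier`, `S_phi`, `S_nullst`, `S_fintype`, `S_genclosed`. Proof: exactly as `S_domain`, see
`P/Domain.lean`. -/
def S_pdec (HdR : A ⥤ ModuleCat.{0} QBar) (HB : A ⥤ ModuleCat.{0} ℚ)
    [FibreFunctor HdR] [FibreFunctor HB] : Prop :=
  ∀ M : A, ∃ (r : ℕ) (e : Fin r → PerAlg HdR HB (Gen M)), Dec (PerAlg HdR HB (Gen M)) r e

/-- [GD perm] The factors of the formal period algebra of `⟨M⟩` are permuted transitively by
automorphisms which preserve all `fw W`. Uses `S_trans`, `S_nullst`, `S_fintype`, `S_genclosed`,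
`S_decdom`.

Proof. `R / (1 - e_i)` is nontrivial (`S_decdom`), so there is a maximal ideal of `R` containing
`1 - e_i`, and by `S_nullst` a point `x_i : R → QBar` with `x_i(1 - e_i) = 0`, i.e. `x_i(e_i) = 1`.
Given `i`, `j` let `τ` be the automorphism of `S_trans` for `x = x_j`, `y = x_i`:
`x_j(τ a) = x_i(a)`, so `x_j(τ(e_i)) = 1`. Put `f = τ(e_i)`, an idempotent. `f e_j (1 - f) = 0`, i.e.
`e_j (f (1 - f)) = 0`, so by `dom` `e_j f = 0` or `e_j (1 - f) = 0`; the first is impossible since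
`x_j(e_j f) = 1`. So `e_j f = e_j`. Put `h = τ⁻¹(e_j)`, an idempotent with
`h e_i = h` (apply `τ⁻¹`). By `dom` applied to `e_i (h (1 - h)) = 0`: `e_i h = 0`
or `e_i (1 - h) = 0`; the first gives `h = 0`, `e_j = 0`, a contradiction; so `e_i = e_i h = h`, and
`τ(e_i) = e_j`. (`Gen M` is `DClosed`: `S_genclosed` and `Gen.dual`.) -/
def S_perm (HdR : A ⥤ ModuleCat.{0} QBar) (HB : A ⥤ ModuleCat.{0} ℚ)
    [FibreFunctor HdR] [FibreFunctor HB] : Prop :=
  ∀ (M : A) (r : ℕ) (e : Fin r → PerAlg HdR HB (Gen M)), Dec (PerAlg HdR HB (Gen M)) r e →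
  ∀ i j, ∃ τ : PerAlg HdR HB (Gen M) ≃ₐ[QBar] PerAlg HdR HB (Gen M), τ (e i) = e j ∧
    ∀ {W : A} (hW : Gen M W), (fw HdR HB hW).map τ.toLinearMap = fw HdR HB hW

/-- [GD dims] The dimensions. Uses `S_dimdec`, `S_decdom`, `S_fgdim` (in universe `u` and in
universe `0`), `S_basedim`, `S_trdeg`, `S_perfield`, `S_fintype`, `S_perm`, `S_evcut`.

Proof. Let `R = PerAlg HdR HB (Gen M)`. `R_i = R / (1 - e_i)` is a finitely generated domain
(`S_decdom`, `S_fintype`), so `ringKrullDim R_i = toENat (trdeg R_i) ≠ ⊤` (`S_fgdim`), hence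
it is a natural number `g_i` and `trdeg R_i = g_i` (`Cardinal.toENat` is injective on natural
numbers; `Cardinal.toENat_eq_nat`). By `S_dimdec` with `S_perm` `ringKrullDim R_i = ringKrullDim R`,
which is `ringKrullDim (PerAlg HB HB (Gen M))` by `S_basedim`; so all `g_i` are equal (`r ≥ 1`: by
`S_evcut` for `c.evAlg` there is an index). `C = (c.evAlg (Gen M)).range` is a finitely generated
domain, so as before `trdeg C = t`, `ringKrullDim C = t` for a natural number `t`; and
`trdeg C = trdeg ℚ(Per M)` by `S_trdeg` and `S_perfield`. -/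
def S_dims (c : Comparison HdR HB) : Prop :=
  ∀ (M : A) (r : ℕ) (e : Fin r → PerAlg HdR HB (Gen M)), Dec (PerAlg HdR HB (Gen M)) r e →
  1 ≤ r ∧ ∃ g t : ℕ, ringKrullDim (PerAlg HB HB (Gen M)) = g ∧
    (∀ i, ringKrullDim (PerAlg HdR HB (Gen M) ⧸ Ideal.span {1 - e i}) = g ∧
      Algebra.trdeg QBar (PerAlg HdR HB (Gen M) ⧸ Ideal.span {1 - e i}) = (g : Cardinal)) ∧
    ringKrullDim (c.evAlg (Gen M)).range = t ∧
    Algebra.trdeg QBar (c.evAlg (Gen M)).range = (t : Cardinal) ∧
    Algebra.trdeg ℚ (IntermediateField.adjoin ℚ (c.Per M)) = (t : Cardinal)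

end Q1D

end

end Pool.Agent.Lib.MP_ae0f86_nt
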