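import Pool.Agent.Lib.MP_ae0f86_nt.StmD
import Pool.Agent.Lib.MP_ae0f86_nt.StmU

/-!
# MP_ae0f86_nt : statements of the pieces, part D2 (density for general generators, cubics)

Part D for tensor powers of an arbitrary object `T` which has the unit as a subquotient of some
power (no duals), and the application to the cubic hypersurfaces.
-/

open CategoryTheory CategoryTheory.Limits MvPolynomial Opposite MonoidalCategory

universe w v u

namespace Pool.Agent.Lib.MP_ae0f86_nt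

noncomputable section

attribute [local instance] CategoryTheory.Abelian.hasFiniteBiproducts

/-! ### subspaces which generate up to inverting one element -/

/-- `V` generates the algebra `R` up to inverting an element `δ` (a unit of `R`) of the subalgebra
generated by `V`. -/
def GenLoc (K : Type) [Field K] {R : Type w} [CommRing R] [Algebra K R]
    (V : Submodule K R) : Prop :=
  ∃ δ : R, IsUnit δ ∧ (∃ n : ℕ, δ ∈ V ^ n) ∧ ∀ x : R, ∃ m n : ℕ, δ ^ m * x ∈ V ^ n

/-- [GE gklow2] Lower bound for the growth of `V^n` in a domain of transcendence degree `d`.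

Proof (compare `D/Gklow.lean`). Every `x ∈ R` is algebraic over `S = Algebra.adjoin K V` (it is a
root of `δ^m X - δ^m x`, `δ^m ≠ 0`, with `δ^m`, `δ^m x ∈ V^n ⊆ S`). So there is a transcendence basis
of `R` over `K` contained in `V` (`exists_isTranscendenceBasis_between` with `s = ∅`, `t = V`); it
has `d` elements `y_1, ..., y_d`. The monomials `y^a`, `|a| ≤ n`, are linearly independent elements
of `V^n` (`1 ∈ V`), in particular those with `a_i ≤ n / d` (`d ≥ 1`), so
`dim V^n ≥ (n/d + 1)^d ≥ ((n + 1)/d)^d`. For `d = 0`: `dim V^n ≥ 1`. -/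
def S_gklow2 : Prop := ∀ (K : Type) [Field K] (R : Type w) [CommRing R] [IsDomain R]
  [Algebra K R] (V : Submodule K R) [Module.Finite K V] (d : ℕ), (1 : R) ∈ V →
  GenLoc K V → Algebra.trdeg K R = (d : Cardinal) →
  ∃ a : ℝ, 0 < a ∧ ∀ n : ℕ, a * ((n : ℝ) + 1) ^ d ≤ (Module.finrank K ↥(V ^ n) : ℝ)

/-- [GE cut2] Variant of `S_cut` (2). Uses `S_decdom`, `S_cut`.

Proof (compare `D/Cut.lean`). First part: let `F_i = s_i F ⊆ F' * F`. As `s_i = e_i s_i`, the sum of
the `F_i` is direct (multiply by `e_i`). The map `F_i → comp e_i F`... more precisely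
`dim F_i = dim comp e_i F`: for `f ∈ F` we have `s_i f = 0` iff `e_i f = 0` (`s_i = s_i e_i`, and the
hypothesis) iff `f ∈ (1 - e_i)` iff the class of `f` is `0`; so the maps `F → F_i` and
`F → comp e_i F` are surjective with the same kernel. Second part: the image of `δ` in
`R / (1 - e_i)`. -/
def S_cut2 : Prop := ∀ (K : Type) [Field K] (R : Type w) [CommRing R] [Algebra K R] (r : ℕ)
  (e : Fin r → R), Dec R r e →
  (∀ (F F' : Submodule K R) [Module.Finite K F] [Module.Finite K F'] (s : Fin r → R),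
    (∀ i, s i ∈ F') → (∀ i, e i * s i = s i) → (∀ i a, s i * a = 0 → e i * a = 0) →
    ∑ i, Module.finrank K (comp K (e i) F) ≤ Module.finrank K ↥(F' * F)) ∧
  (∀ (V : Submodule K R) (i : Fin r), GenLoc K V → GenLoc K (comp K (e i) V))

/-- [GE grown2] Growth of `dim V^n`. Uses `S_gkup`, `S_gklow2`, `S_cut`, `S_cut2`, `S_decdom`. Proof:
as for `S_grown` (see `D/Grown.lean`), with `S_gklow2` and the second part of `S_cut2`. -/
def S_grown2 : Prop := ∀ (K : Type) [Field K] (R : Type w) [CommRing R] [Algebra K R]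
  [Algebra.FiniteType K R] (r : ℕ) (e : Fin r → R), Dec R r e → 1 ≤ r → ∀ g : ℕ,
  (∀ i, Algebra.trdeg K (R ⧸ Ideal.span {1 - e i}) = (g : Cardinal)) →
  ∀ (V : Submodule K R) [Module.Finite K V], (1 : R) ∈ V → GenLoc K V →
  ∃ a b : ℝ, 0 < a ∧ ∀ n : ℕ, a * ((n : ℝ) + 1) ^ g ≤ (Module.finrank K ↥(V ^ n) : ℝ) ∧
    (Module.finrank K ↥(V ^ n) : ℝ) ≤ b * ((n : ℝ) + 1) ^ g

/-- [GE growp2] Growth of `dim ev(V^n)`. Uses `S_gkup`, `S_gklow2`. Proof: as for `S_growp` (see
`D/Growp.lean`); `ρ(V)` satisfies `GenLoc` with `ρ(δ)`, `ρ = ev.rangeRestrict`. -/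
def S_growp2 : Prop := ∀ (K : Type) [Field K] (R : Type w) [CommRing R] [Algebra K R]
  [Algebra.FiniteType K R] (L : Type) [Field L] [Algebra K L] (ev : R →ₐ[K] L) (t : ℕ),
  Algebra.trdeg K ev.range = (t : Cardinal) →
  ∀ (V : Submodule K R) [Module.Finite K V], (1 : R) ∈ V → GenLoc K V →
  ∃ a b : ℝ, 0 < a ∧ ∀ n : ℕ,
    a * ((n : ℝ) + 1) ^ t ≤ (Module.finrank K ((V ^ n).map ev.toLinearMap) : ℝ) ∧
    (Module.finrank K ((V ^ n).map ev.toLinearMap) : ℝ) ≤ b * ((n : ℝ) + 1) ^ t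

/-- [GE injdim2] Converse of `S_injdim`. Uses `S_decdom`.
Proof: `ev` induces `R / (1 - e_i) → L` with range `ev.range`; it is injective: if `ev a = 0` then
`ev (e_i a) = 0`, `e_i a = 0`, `a ∈ (1 - e_i)`. So `R / (1 - e_i) ≅ ev.range`. -/
def S_injdim2 : Prop := ∀ (K : Type) [Field K] (R : Type w) [CommRing R] [Algebra K R]
  (r : ℕ) (e : Fin r → R), Dec R r e →
  ∀ (L : Type) [Field L] [Algebra K L] (ev : R →ₐ[K] L) (i : Fin r), ev (e i) = 1 →
  (∀ a, ev (e i * a) = 0 → e i * a = 0) →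
  ringKrullDim ev.range = ringKrullDim (R ⧸ Ideal.span {1 - e i})

/-- [GE abssub] Subalgebras. Let `j : R' → R` be injective, and let the factors of `R` be permuted
transitively by automorphisms of `R` which preserve `R'`.

Proof. For an idempotent `f` of `R` and each `i` we have `e_i f = 0` or `e_i f = e_i` (`dom` applied
to `e_i (f (1 - f)) = 0`); similarly in `R'`.
(1) For each `i` there is exactly one `k` with `e_i j(e'_k) ≠ 0` (existence: `∑_k j(e'_k) = 1`;
uniqueness: if `e_i j(e'_k) = e_i = e_i j(e'_l)`, `k ≠ l`, then `e_i = e_i j(e'_k e'_l) = 0`). This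
defines a map from the `i` to the `k`, which is surjective because `j(e'_k) ≠ 0` is the sum of the
`e_i j(e'_k)`. So `r' ≤ r`.
(2) `ev(e_i0 j(e'_k0)) = 1`, so `e_i0 j(e'_k0) = e_i0`. Let `ev(j(e'_k0 a)) = 0` and
`x = e'_k0 a`. `ev(e_i0 j(x)) = 0`, so `e_i0 j(x) = 0` by hypothesis. Let `l` be an index with
`e_l j(e'_k0) ≠ 0`, and let `τ`, `τ'` be automorphisms with `τ e_i0 = e_l`, `τ j = j τ'`. Then
`e_l j(τ' x) = τ(e_i0 j(x)) = 0`, and `e_l j(τ' e'_k0) = τ(e_i0 j(e'_k0)) = τ(e_i0) = e_l`, so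
`e_l j(e'_k0 τ'(e'_k0)) = e_l ≠ 0`; so the idempotent `e'_k0 τ'(e'_k0)` is not `0`, so it is
`e'_k0`, and (apply `τ'⁻¹`, using that `e'_k0 τ'⁻¹(e'_k0)` is `0` or `e'_k0`) `τ'(e'_k0) = e'_k0`. So
`x_l = τ' x` satisfies `e'_k0 x_l = x_l`, `e_l j(x_l) = 0`. Let `y` be `e'_k0` times the product of
the `x_l` over all such `l`. Then `e_l j(y) = 0` for all `l` (for the other `l` since
`e_l j(e'_k0) = 0`), so `j(y) = 0`, `y = 0`, and by `dom` for `e'_k0` some `x_l = e'_k0 x_l = 0`, so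
`x = 0`. -/
def S_abssub : Prop := ∀ (K : Type) [Field K] (R R' : Type w) [CommRing R] [CommRing R']
  [Algebra K R] [Algebra K R'] (j : R' →ₐ[K] R), Function.Injective j →
  ∀ (r r' : ℕ) (e : Fin r → R) (e' : Fin r' → R'), Dec R r e → Dec R' r' e' →
  (∀ i l, ∃ (τ : R ≃ₐ[K] R) (τ' : R' ≃ₐ[K] R'), τ (e i) = e l ∧ ∀ a, τ (j a) = j (τ' a)) →
  r' ≤ r ∧ ∀ (L : Type) [Field L] [Algebra K L] (ev : R →ₐ[K] L) (i0 : Fin r) (k0 : Fin r'),
    ev (e i0) = 1 → ev (j (e' k0)) = 1 → (∀ a, ev (e i0 * a) = 0 → e i0 * a = 0) →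
    ∀ a, ev (j (e' k0 * a)) = 0 → e' k0 * a = 0

/-! ### the symbols of one object, general generators -/

section Fw2

variable {A : Type u} [Category.{v} A] [Abelian A] [MonoidalCategory A] [SymmetricCategory A]
  [RigidCategory A]

omit [SymmetricCategory A] in
theorem genpow_mem (T : A) (n : ℕ) : Gen T (tpow T n) := by
  induction n with
  | zero => exact Gen.unit
  | succ n ih => exact Gen.tensor ih Gen.base

/-- [GE fwgen2] `V = fw T` contains `1`, generates the formal period algebra of `⟨T⟩` up to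
inverting an element, and `fw (T^{⊗ n}) = V^n`, if the unit is a subquotient of a power of `T`. Uses
`S_fwprod`, `S_fwlin`, `S_gens`, `S_genclosed`, `S_xmat`, `S_arel`.

Proof (compare `D/Fwgen.lean`). `1 ∈ fw 1 ≤ V` by `S_fwlin`. Let `X`, `Y` be the matrices of
`S_xmat` for `N = T` (and `S = Gen T`, which is `DClosed` by `S_genclosed` and `Gen.dual`) and some
finite bases `ω` of `H(T)`, `b` of `HB(T)`. The entries of `X` are in `V`; by bilinearity every
symbol of `T^∨` is a `K`-linear combination of the entries of `Y`. If the ring `PerAlg` is trivial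
everything is clear. Otherwise the index types `I`, `J` have the same cardinality `s`
(`Matrix.square_of_invertible`); reindex by a bijection, `δ = det X ∈ V^s` is a unit,
`δ Y = adj X` has entries in `V^s` (`Matrix.adjugate_apply`, minors; or: an entry of the adjugate is
a determinant of a matrix with entries in `V`, since `0, 1 ∈ V`). The set of all `x` with
`δ^m x ∈ V^n` for some `m`, `n` is a subalgebra, and it contains the symbols of `T` and of `T^∨`, so
it is everything (`S_gens`). Last statement: induction, `S_fwprod`. -/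
def S_fwgen2 {K : Type} [Field K] (H : A ⥤ ModuleCat.{0} K) (HB : A ⥤ ModuleCat.{0} ℚ)
    [FibreFunctor H] [FibreFunctor HB] : Prop := ∀ T : A, Lin T (𝟙_ A) →
  (1 : PerAlg H HB (Gen T)) ∈ fw H HB (S := Gen T) (W := T) Gen.base ∧
  GenLoc K (fw H HB (S := Gen T) (W := T) Gen.base) ∧
  ∀ n : ℕ, fw H HB (genpow_mem T n) = (fw H HB (S := Gen T) (W := T) Gen.base) ^ n

end Fw2

/-! ### predicted and actual number of linearly independent periods -/

section Numbers

variable {A : Type u} [Category.{v} A] [Abelian A] [MonoidalCategory A] [SymmetricCategory A]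
  [RigidCategory A] {HdR : A ⥤ ModuleCat.{0} QBar} {HB : A ⥤ ModuleCat.{0} ℚ}
  [FibreFunctor HdR] [FibreFunctor HB]

/-- The number of linearly independent periods of `W` predicted by the period conjecture: the
dimension of the algebra of endomorphisms of `H_B` on the subquotients of the powers of `W`. -/
abbrev Nf (HB : A ⥤ ModuleCat.{0} ℚ) [FibreFunctor HB] (W : A) : ℕ :=
  Module.finrank ℚ (EndBetti HB W)

/-- The number of periods of `W` which are linearly independent over `QBar`. -/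
abbrev Pf (c : Comparison HdR HB) (W : A) : ℕ :=
  Module.finrank QBar (Submodule.span QBar (c.Per W))

/-- The number of connected components of `X(M)`. -/
abbrev ncomp (HdR : A ⥤ ModuleCat.{0} QBar) (HB : A ⥤ ModuleCat.{0} ℚ)
    [FibreFunctor HdR] [FibreFunctor HB] (M : A) : ℕ :=
  Nat.card (_root_.ConnectedComponents (PrimeSpectrum (PerAlg HdR HB (Gen M))))

/-- The dimension formula `dim G(M) = trdeg ℚ(Per M)`. -/
abbrev DimFormula (c : Comparison HdR HB) (M : A) : Prop :=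
  ringKrullDim (PerAlg HB HB (Gen M)) =
    ((Cardinal.toENat (Algebra.trdeg ℚ (IntermediateField.adjoin ℚ (c.Per M))) : ℕ∞) :
      WithBot ℕ∞)

/-- [GE fwtop] The numbers `Nf W`, `Pf W` in terms of `fw W ⊆ PerAlg ⊤`. Uses `S_fwdim`, `S_fwev`,
`S_genclosed` (`TClosed ⊤`). Immediate. -/
def S_fwtop (c : Comparison HdR HB) : Prop := [Linear ℚ A] → ∀ W : A,
  Nf HB W = Module.finrank QBar (fw HdR HB (S := fun _ : A => True) (W := W) trivial) ∧
  Pf c W = Module.finrank QBar ((fw HdR HB (S := fun _ : A => True) (W := W) trivial).map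
    (c.evAlg (fun _ : A => True)).toLinearMap)

/-- [GE lineqv] `Nf` and `Pf` only depend on the linear class, and are monotone. Uses `S_fwtop`,
`S_fwlin`, `S_genclosed`, `S_fwfin`. Proof: `fw W' ≤ fw W` if `Lin W W'`. -/
def S_lineqv (c : Comparison HdR HB) : Prop := [Linear ℚ A] → ∀ W W' : A, Lin W W' →
  Nf HB W' ≤ Nf HB W ∧ Pf c W' ≤ Pf c W

/-- [GE twisteqv] Twists do not change `Nf` and `Pf`. Uses `S_fwtop`, `S_fwprod`, `S_lef`,
`S_arel`.

Proof. Work in `PerAlg ⊤`. `H(L)` and `HB(L)` are one-dimensional (`FibreFunctor.bij`, `one_bij`: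
`dim H(L) · dim H(L') = dim H(1) = 1`, also for `HB`), so with the unit `ℓ = asym L ω σ` of `S_lef`
(`ω ≠ 0`, `σ ≠ 0` because `ℓ ≠ 0`: the ring is nontrivial since it has the homomorphism `evAlg` to `ℂ`)
we have `fw L = K ℓ`. So `fw (W ⊗ L^e) = fw W * (K ℓ)^e = ℓ^e fw W` (`S_fwprod`; `fw 1 = K` for
`e = 0`), which has the dimension of `fw W` as `ℓ` is a unit, and
`ev(fw (W ⊗ L^e)) = ev(ℓ)^e ev(fw W)`, `ev(ℓ) ≠ 0`. -/
def S_twisteqv (c : Comparison HdR HB) : Prop := [Linear ℚ A] →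
  ∀ (L L' W : A) (_ : L ⊗ L' ≅ 𝟙_ A) (e : ℕ),
    Nf HB (W ⊗ tpow L e) = Nf HB W ∧ Pf c (W ⊗ tpow L e) = Pf c W

/-- [GE herdim] The dimension formula is hereditary, and the number of components is monotone.
Uses `S_abssub`, `S_injdim`, `S_injdim2`, `S_dims`, `S_comps`, `S_pdec`, `S_perm`, `S_evcut`,
`S_heredity`, `S_fpring`, `S_single`, `S_algrel`, `S_genclosed`, `S_points` (for the map `j`) and
`S_fintype`.

Proof. Let `Gen T M`; `Gen M ⊆ Gen T` (`S_genclosed`). Let `R' = PerAlg HdR HB (Gen M)`,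
`R = PerAlg HdR HB (Gen T)`. There is a homomorphism `j : R' → R` with
`j (asym N ω σ) = asym N ω σ` (`S_points` for `Λ = R` and the pairings `asym`, by `S_arel` and
`S_algrel`; or by `Ideal.Quotient.liftₐ`). It is injective: `R' ≅ FP (Gen M) → FP (Gen T) ≅ R` is
injective (`S_fpring`, `S_heredity`). Clearly `evAlg ∘ j = evAlg`. Let `e`, `e'` be the
decompositions (`S_pdec`). If `τ` is an automorphism of `R` as in `S_perm`, then
`τ(fw N) = fw N` for `N ∈ Gen T`; every element of `R'` is in `fw N` for some `N ∈ Gen M` (it is a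
symbol: `S_single`, `S_fpring`) and `j(fw N) = fw N`, so `τ` and `τ⁻¹` map `j(R')` into itself and
`τ` restricts to an automorphism `τ'` of `R'`. So `S_abssub` applies: `ncomp M = r' ≤ r = ncomp T`
(`S_comps`). If the dimension formula holds for `T` then `g = t` (`S_dims`) and
`ev` is injective on `e_i0 R` (`S_injdim`), so on `e'_k0 R'` by `S_abssub`, so by `S_injdim2` and
`S_dims` (for `M`) the dimension formula holds for `M`. -/
def S_herdim (c : Comparison HdR HB) : Prop := [Linear ℚ A] → ∀ T M : A, Gen T M →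
  ncomp HdR HB M ≤ ncomp HdR HB T ∧ (DimFormula c T → DimFormula c M)

/-- [GE gentate] The inverse of an invertible object of `⟨W⟩` is in `⟨W⟩`.

Proof. Let `L ⊗ L' ≅ 1`. The coevaluation `η : 1 → L ⊗ L^∨` becomes a split monomorphism after
tensoring with `L` (zigzag identity), hence also after tensoring with `L ⊗ L' ≅ 1`, so `η` itself is
a split monomorphism. Tensoring with `L'`: `L' ≅ L' ⊗ 1 → L' ⊗ (L ⊗ L^∨) ≅ (L' ⊗ L) ⊗ L^∨ ≅ L^∨` is
a (split) monomorphism (`L' ⊗ L ≅ L ⊗ L' ≅ 1` by the braiding). So `L'` is a subobject of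
`L^∨ ∈ ⟨W⟩`. -/
def S_gentate (A : Type u) [Category.{v} A] [Abelian A] [MonoidalCategory A]
    [SymmetricCategory A] [RigidCategory A] : Prop :=
  ∀ (L L' : A) (_ : L ⊗ L' ≅ 𝟙_ A) (W : A), Gen W L → Gen W L'

end Numbers

/-! ### geometry -/

section Geo3

variable {k : Type} [Field k] {A : Type u} [Category.{v} A] [Abelian A] [MonoidalCategory A]
  (T : CohTheory k A)

/-- The Künneth formula `h^m(X × X') ≅ ⨁_{i + i' = m} h^i(X) ⊗ h^{i'}(X')` for affine algebraic
sets. -/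
def CohTheory.Kunneth : Prop :=
  ∀ {ι ι' : Type} [Finite ι] [Finite ι'] {X : Set (ι → k)} {X' : Set (ι' → k)} (hX : IsAlg X)
    (hX' : IsAlg X') {Y : Set (ι ⊕ ι' → k)} (hY : IsAlg Y),
    Y = {z | z ∘ Sum.inl ∈ X ∧ z ∘ Sum.inr ∈ X'} → ∀ m : ℕ,
    Nonempty ((T.h (m : ℤ)).obj (op (AffPair.abs hY)) ≅
      ⨁ fun i : Fin (m + 1) => (T.h ((i : ℕ) : ℤ)).obj (op (AffPair.abs hX)) ⊗
        (T.h ((m : ℤ) - ((i : ℕ) : ℤ))).obj (op (AffPair.abs hX')))

/-- The positive degree cohomology `⨁_{i ≥ 1} h^i(X, Y)`. -/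
def CohTheory.pos (P : AffPair k) : A :=
  ⨁ fun i : Fin (2 * Nat.card P.ι) => (T.h (((i : ℕ) : ℤ) + 1)).obj (op P)

/-- [GE unitq] The unit is a subquotient of a power of the cohomology of a nonempty algebraic set.
Uses `S_prodsub`.

Proof. Let `pt` be the point (the algebraic set `univ` in `k^(Fin 0)`, or `PEmpty → k`).
(1) `h^0(pt) ≅ 1`: by `kunneth` for the pair `(pt, ∅)` (and `i = 0`)
`h^1((pt, ∅).gm) ≅ h^0(pt) ⊗ L`; the pair `(pt, ∅).gm` is isomorphic to `gmOne` (forget the empty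
set of coordinates: `isIso_of_inv`), so `L ≅ h^0(pt) ⊗ L`. Tensor with `tate` (`L ⊗ tate ≅ 1`).
(2) `X` nonempty: `pt → X → pt` is the identity, so `h^0(pt)` is a direct summand of `h^0(X)`,
which is a direct summand of the total cohomology. So `1` is a subobject of `T.total X`, which is
isomorphic to `⨁ over Fin 1` of itself. -/
def S_unitq : Prop := ∀ {ι : Type} [Finite ι] {X : Set (ι → k)} (hX : IsAlg X), X.Nonempty →
  Lin (T.total (AffPair.abs hX)) (𝟙_ A)

/-- [GE cubic2] The cohomology of `V = {∑ y_j g_j = 1}` in positive degrees: for `Z = {g = 0}`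
smooth of codimension `c ≥ 1` in affine space, `h^j(V) ≅ h^i(Z) ⊗ L^c` for `j = i + 2c - 1 ≥ 1`.

Proof (compare `P/Cubic1.lean`). `h^i(Z) ⊗ L^c ≅ h^{i+2c}(A^N, V)` (`purity`), and the boundary
`h^j(V) → h^{j+1}(A^N, V)` of the triple `(A^N, V, ∅)` is an isomorphism for `j ≥ 1` because
`h^j(A^N) = 0 = h^{j+1}(A^N)` (`p_cubic_affine` in `P/Cubic.lean`, which you may import). -/
def S_cubic2 : Prop := ∀ {ι κ : Type} [Finite ι] [Fintype κ] (g : κ → MvPolynomial ι k) (c : ℕ),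
  1 ≤ c → IsSmooth c (zl g) → ∀ i : ℤ, 1 ≤ i + 2 * c - 1 →
    Nonempty ((T.h (i + 2 * c - 1)).obj (op (AffPair.abs (hyp_alg g))) ≅
      (T.h i).obj (op (AffPair.abs (zl_alg g))) ⊗ tpow T.L c)

/-- [GE poseqv] The positive degree cohomology of `V = {∑ y_j g_j = 1}` and the total cohomology
of `Z = {g = 0}`, twisted by `L^c`, are linearly equivalent. Uses `S_cubic2`, `S_subsum`, `S_subq`,
`S_subtens`.

Proof. (a) `T.total Z ⊗ L^c` is the direct sum of the `h^i(Z) ⊗ L^c`, `0 ≤ i ≤ 2|ι|`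
(`S_subtens` with `G = {h^i(Z)}`, or `Functor.mapBiproduct` for `tensorRight`), and
`h^i(Z) ⊗ L^c ≅ h^j(V)`, `j = i + 2c - 1 ≥ 1`, which is a summand of `T.pos V` if
`j ≤ 2 (|ι| + |κ|)` and zero otherwise (`bounded`). (b) `T.pos V` is the direct sum of the
`h^j(V)`, `1 ≤ j ≤ 2 (|ι| + |κ|)`, and `h^j(V) ≅ h^i(Z) ⊗ L^c`, `i = j + 1 - 2c`; for
`0 ≤ i ≤ 2|ι|` it is a summand of `T.total Z ⊗ L^c`; otherwise `h^i(Z) = 0` (`bounded`), and
`0 ⊗ L^c = 0`. Use `Lin W N ↔ SubSum {W} N` (`S_subsum`). -/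
def S_poseqv [MonoidalPreadditive A] [SymmetricCategory A] : Prop :=
  ∀ {ι κ : Type} [Finite ι] [Fintype κ]
  (g : κ → MvPolynomial ι k) (c : ℕ), 1 ≤ c → IsSmooth c (zl g) →
    Lin (T.pos (AffPair.abs (hyp_alg g))) (T.total (AffPair.abs (zl_alg g)) ⊗ tpow T.L c) ∧
    Lin (T.total (AffPair.abs (zl_alg g)) ⊗ tpow T.L c) (T.pos (AffPair.abs (hyp_alg g)))

/-- [GE kuneqv] The total cohomology of a product. Uses `S_subsum`, `S_subq`.

Proof. `T.total X ⊗ T.total X'` is the direct sum of the `h^i(X) ⊗ h^{i'}(X')`,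
`0 ≤ i ≤ 2|ι|`, `0 ≤ i' ≤ 2|ι'|` (`MonoidalPreadditive`: `- ⊗ -` is additive in both variables), and
`T.total Y` is the direct sum of the `h^m(Y)`, `0 ≤ m ≤ 2(|ι| + |ι'|)`, each of which is the direct
sum of the `h^i(X) ⊗ h^{m-i}(X')`, `0 ≤ i ≤ m` (`Kunneth`); such a summand is zero if
`i > 2|ι|` or `m - i > 2|ι'|` (`bounded`, and `0 ⊗ N = 0`), otherwise it is a summand of
`T.total X ⊗ T.total X'`; and conversely. -/
def S_kuneqv [MonoidalPreadditive A] : Prop := T.Kunneth →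
  ∀ {ι ι' : Type} [Finite ι] [Finite ι'] {X : Set (ι → k)} {X' : Set (ι' → k)} (hX : IsAlg X)
    (hX' : IsAlg X') {Y : Set (ι ⊕ ι' → k)} (hY : IsAlg Y),
    Y = {z | z ∘ Sum.inl ∈ X ∧ z ∘ Sum.inr ∈ X'} →
    Lin (T.total (AffPair.abs hY)) (T.total (AffPair.abs hX) ⊗ T.total (AffPair.abs hX')) ∧
    Lin (T.total (AffPair.abs hX) ⊗ T.total (AffPair.abs hX')) (T.total (AffPair.abs hY))

end Geo3

section Geo4

/-- The zero locus `{q = 0}` in `QBar^n` of the polynomials `q_j` with integer coefficients. -/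
def zq {n r : ℕ} (q : Fin r → MvPolynomial (Fin n) ℤ) : Set (Fin n → QBar) :=
  zl (fun j => MvPolynomial.map (Int.castRingHom QBar) (q j))

theorem zq_alg {n r : ℕ} (q : Fin r → MvPolynomial (Fin n) ℤ) : IsAlg (zq q) := zl_alg _

variable {A : Type u} [Category.{v} A] [Abelian A] [MonoidalCategory A]
  (T : CohTheory QBar A)

/-- The total cohomology of `{q = 0}`. -/
abbrev CohTheory.tq {n r : ℕ} (q : Fin r → MvPolynomial (Fin n) ℤ) : A :=
  T.total (AffPair.abs (zq_alg q))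

/-- [GE qprod] Products of zero loci of sign quadrics. Uses `S_smprod`, `S_smreindex`,
`S_kuneqv`, `S_lincl`, `S_subq`, `S_subsum`.

Proof. `n'' = n + n'`, `r'' = r + r'`, `q''` the polynomials `q j` renamed along
`Fin n → Fin (n + n')` and `q' j` renamed along `Fin n' → Fin (n + n')` (`SignQuadric` is preserved
by `rename` along an injection; reindex along `finSumFinEquiv` for both the variables and the
equations). `{q'' = 0}` is the image of the product
`Y = {z | z ∘ inl ∈ {q = 0}, z ∘ inr ∈ {q' = 0}}` under the renaming of the coordinates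
`finSumFinEquiv`: smooth by `S_smprod` and `S_smreindex`, nonempty, and isomorphic to `Y` (as a
pair with empty second component, `isIso_of_inv`), and the cardinalities of the sets of
coordinates agree, so `T.total` of the two are isomorphic. Now use `S_kuneqv`. -/
def S_qprod [MonoidalPreadditive A] : Prop := T.Kunneth → ∀ {n r n' r' : ℕ} (c c' : ℕ)
  (q : Fin r → MvPolynomial (Fin n) ℤ) (q' : Fin r' → MvPolynomial (Fin n') ℤ),
  (∀ j, SignQuadric (q j)) → (∀ j, SignQuadric (q' j)) → IsSmooth c (zq q) →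
  IsSmooth c' (zq q') → (zq q).Nonempty → (zq q').Nonempty →
  ∃ (n'' r'' : ℕ) (q'' : Fin r'' → MvPolynomial (Fin n'') ℤ),
    (∀ j, SignQuadric (q'' j)) ∧ IsSmooth (c + c') (zq q'') ∧ (zq q'').Nonempty ∧
    Lin (T.tq q'') (T.tq q ⊗ T.tq q') ∧ Lin (T.tq q ⊗ T.tq q') (T.tq q'')

/-- [GE geoz] Every object has a twist in `Lin (h^*(Z))` for a nonempty smooth zero locus `Z` of
sign quadrics of codimension `≥ 1`, and `L` itself is in `Lin (h^*(Z))`. Uses `S_domall`,
`S_quadrics`, `S_clopen`, `S_gmsub`, `S_prodsub`, `S_smgm`, `S_smreindex`, `S_unitq`, `S_subtens`,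
`S_subsum`, `S_subq`, `S_twist`, `S_lincl`.

Proof. `S_domall`: `N ⊗ L^e ∈ SubSum (cl X)` for a smooth `X`. `S_quadrics`: `X` is a clopen part
of `U = {q0 = 0}`, smooth of codimension `≥ 1`, `q0` sign quadrics; by `S_clopen` every `h^i(X)` is a
quotient of `h^i(U)`, so `N ⊗ L^e ∈ SubSum (cl U)`, i.e. `N ⊗ L^e ∈ Lin (T.total U)` (`h^i(U)` is a
summand of `T.total U` or zero by `bounded`). If `U` is nonempty let `Z = U × G_m`, i.e.
`{q0 = 0, u w - 1 = 0}` in the variables `Fin n ⊕ Fin 2 ≃ Fin (n + 2)` (`u w - 1` is a sign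
quadric), smooth by `S_smgm`, `S_smreindex`, nonempty; `h^i(U)` embeds into `h^i(Z)`
(`S_prodsub`), so `N ⊗ L^e ∈ Lin (T.total Z)`; `1 ∈ Lin (T.total U)`... for `L`: `1` embeds into
`h^0(U)` (proof of `S_unitq`: or: `1 ∈ Lin (T.total U)`, so `L ≅ 1 ⊗ L ∈ SubSum` of the
`h^i(U) ⊗ L` by `S_subtens`) and `h^i(U) ⊗ L` embeds into `h^{i+1}(Z)` (`S_gmsub`), so
`L ∈ Lin (T.total Z)`. If `U = ∅` then all `h^i(U) = 0`, `N ⊗ L^e = 0`; take `Z = G_m` (apply the
above to the point `U = {}`: `n = 1`, `q0 = X_0`, the origin in the line), as `0 ∈ Lin`. -/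
def S_geoz [MonoidalPreadditive A] [SymmetricCategory A] : Prop := ∀ N : A,
  ∃ (e n r c : ℕ) (q : Fin r → MvPolynomial (Fin n) ℤ), 1 ≤ c ∧ (∀ j, SignQuadric (q j)) ∧
    IsSmooth c (zq q) ∧ (zq q).Nonempty ∧ Lin (T.tq q) (N ⊗ tpow T.L e) ∧ Lin (T.tq q) T.L

/-- [GE powq] Powers of `Z = {q = 0}`: for every `k ≥ 1` there is a zero locus `Z_k` of sign
quadrics (namely `Z^k`) such that `fw h^*(Z_k) = fw (h^*(Z)^{⊗ k})` in `PerAlg ⊤`. Uses `S_qprod`,
`S_fwlin`, `S_fwprod`, `S_genclosed`.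

Proof. Induction on `k`. `k = 1`: `Z_1 = Z`, and `tpow T 1 = 1 ⊗ T`, `fw (1 ⊗ T) = fw 1 * fw T =
fw T`. Step: `Z_{k+1} = Z_k × Z` by `S_qprod`; `fw h^*(Z_{k+1}) = fw (h^*(Z_k) ⊗ h^*(Z))` by
`S_fwlin` in both directions, and `= fw h^*(Z_k) * fw h^*(Z) = fw (tpow T k) * fw T =
fw (tpow T (k+1))` by `S_fwprod`. -/
def S_powq [MonoidalPreadditive A] [SymmetricCategory A] [RigidCategory A]
    (HdR : A ⥤ ModuleCat.{0} QBar) (HB : A ⥤ ModuleCat.{0} ℚ)
    [FibreFunctor HdR] [FibreFunctor HB] : Prop :=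
  T.Kunneth → ∀ {n r : ℕ} (c : ℕ) (q : Fin r → MvPolynomial (Fin n) ℤ), 1 ≤ c →
  (∀ j, SignQuadric (q j)) → IsSmooth c (zq q) → (zq q).Nonempty → ∀ k : ℕ, 1 ≤ k →
  ∃ (n' r' c' : ℕ) (q' : Fin r' → MvPolynomial (Fin n') ℤ), 1 ≤ c' ∧
    (∀ j, SignQuadric (q' j)) ∧ IsSmooth c' (zq q') ∧ (zq q').Nonempty ∧
    fw HdR HB (S := fun _ : A => True) (W := T.tq q') trivial =
      fw HdR HB (S := fun _ : A => True) (W := tpow (T.tq q) k) trivial

end Geo4

end

end Pool.Agent.Lib.MP_ae0f86_nt
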