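import Pool.Agent.Lib.MP_ae0f86_nt.StmD2

/-!
# MP_ae0f86_nt : statements of the pieces, part D3 (the finite part of `⟨M⟩`)

There is an object `U` of `⟨M⟩` whose symbols span the algebra of locally constant functions on
`X(M)`; so `dim EndBetti U` is the number of connected components of `X(M)`, and all periods of
`U` are algebraic. We write `R = PerAlg HdR HB ⟨M⟩`, `B = PerAlg HB HB ⟨M⟩`; a `QBar`-point of `R`
gives an isomorphism `R ≅ QBar ⊗ B`.
-/

open CategoryTheory CategoryTheory.Limits Opposite MonoidalCategory TensorProduct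

universe w v u

namespace Pool.Agent.Lib.MP_ae0f86_nt

noncomputable section

attribute [local instance] CategoryTheory.Abelian.hasFiniteBiproducts

/-! ### algebra -/

/-- [GF intspan] In a product of domains over an algebraically closed field the integral elements
are the locally constant functions.

Proof. (⇐) An idempotent is a root of `X^2 - X`, and sums and multiples of integral elements are
integral. (⇒) Let `p(a) = 0`, `p` monic, `p = ∏ (X - c_j)` (`IsAlgClosed.splits`). Then
`e_i ∏ (a - c_j) = 0`, so by `dom` (induction on the number of factors; `e_i ≠ 0`)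
`e_i (a - c_j) = 0` for some `j`, i.e. `e_i a = c_j e_i`. So `a = ∑ e_i a` is in the span. -/
def S_intspan : Prop := ∀ (K : Type) [Field K] [IsAlgClosed K] (R : Type w) [CommRing R]
  [Algebra K R] (r : ℕ) (e : Fin r → R), Dec R r e →
  ∀ a : R, IsIntegral K a ↔ a ∈ Submodule.span K (Set.range e)

/-- [GF homfin] A locally constant function has finitely many images under endomorphisms.

Proof. Every idempotent `f` of `R` satisfies `e_i f ∈ {0, e_i}` for all `i` (`dom` applied to
`e_i (f (1 - f)) = 0`), so `f = ∑ e_i f` is one of finitely many elements. If `a = ∑ c_i e_i` then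
`τ a = ∑ c_i τ(e_i)` and the `τ(e_i)` are idempotents. -/
def S_homfin : Prop := ∀ (K : Type) [Field K] (R : Type w) [CommRing R]
  [Algebra K R] (r : ℕ) (e : Fin r → R), Dec R r e →
  ∀ a ∈ Submodule.span K (Set.range e), {b : R | ∃ τ : R →ₐ[K] R, b = τ a}.Finite

/-- [GF finval] An element with finitely many values at points is integral. Uses `S_nullst`.

Proof. Let `p = ∏ (X - c_j)` over the finitely many values of `a`. `y(p(a)) = 0` for all points
`y`, so `p(a)` is in every maximal ideal (`S_nullst`). `R` is a Jacobson ring (finitely generated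
algebra over a field), so `p(a)` is nilpotent, and `R` is reduced (`Dec`: if `b^n = 0` then
`e_i b^n = 0`, so `e_i b = 0` for all `i`, so `b = 0`). So `p(a) = 0`. -/
def S_finval : Prop := ∀ (K : Type) [Field K] [IsAlgClosed K] (R : Type w) [CommRing R]
  [Algebra K R] [Algebra.FiniteType K R] (r : ℕ) (e : Fin r → R), Dec R r e →
  ∀ a : R, {z : K | ∃ y : R →ₐ[K] K, z = y a}.Finite → IsIntegral K a

/-- [GF galdesc] Rationality of integral elements: if `κ_1, ..., κ_n ∈ QBar` are linearly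
independent over `ℚ` and `∑ κ_i ⊗ a_i ∈ QBar ⊗ B` is integral over `ℚ`, then every `a_i ∈ B` is
integral over `ℚ`.

Proof. Let `L ⊆ QBar` be a finite Galois extension of `ℚ` which contains all `κ_i`
(`IntermediateField.normalClosure`, characteristic `0`), and extend the `κ_i` to a basis
`κ_1, ..., κ_m` of `L` over `ℚ` (put `a_i = 0` for `i > n`). Let `κ*_i` be the dual basis for the
trace form (`Algebra.traceForm`, nondegenerate; `BilinForm.dualBasis`). For `g ∈ Gal(L/ℚ)` choose
an extension `g'` to an automorphism of `QBar` (`IsAlgClosure`/`AlgEquiv.liftNormal`), and let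
`g' ⊗ id` act on `QBar ⊗ B` (`Algebra.TensorProduct.map`); it maps integral elements to integral
elements. `∑_g (g(κ*_i) ⊗ 1) (g' ⊗ id)(∑_j κ_j ⊗ a_j) = ∑_j (∑_g g(κ*_i κ_j)) ⊗ a_j =
∑_j Tr(κ*_i κ_j) ⊗ a_j = 1 ⊗ a_i` (`trace_eq_sum_automorphisms`). So `1 ⊗ a_i` is integral over
`ℚ` (`g(κ*_i) ⊗ 1` is integral), and `B → QBar ⊗ B` is injective
(`Algebra.TensorProduct.includeRight_injective`), so `a_i` is integral
(`isIntegral_algHom_iff`). -/
def S_galdesc : Prop := ∀ (B : Type w) [CommRing B] [Algebra ℚ B] (n : ℕ) (κ : Fin n → QBar)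
  (a : Fin n → B), LinearIndependent ℚ κ →
  IsIntegral ℚ (∑ i, κ i ⊗ₜ[ℚ] a i : QBar ⊗[ℚ] B) → ∀ i, IsIntegral ℚ (a i)

/-! ### the two forms of the period algebra -/

section Base2

variable {A : Type u} [Category.{v} A] [Abelian A] [MonoidalCategory A] [SymmetricCategory A]
  {K : Type} [Field K] (H : A ⥤ ModuleCat.{0} K) (HB : A ⥤ ModuleCat.{0} ℚ)
  [FibreFunctor H] [FibreFunctor HB] [RigidCategory A]

/-- [GF base2] The isomorphism `R ≅ K ⊗ B` given by a point `x` of `R = PerAlg H HB S`. Uses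
`S_pointbij`, `S_points`, `S_arel`, `S_algrel`.

Proof. Everything is in `P/Base.lean` (which you may import): `ι = p_base_iota`, the homomorphisms
`β : B → R`, `β(asym N b σ) = asym N (ι b) σ`, and `α : R → K ⊗ B` with `α(β r) = 1 ⊗ r`; and every
element of `R` is a `K`-linear combination of elements of the image of `β` (`S_base`). The map
`K ⊗ B → R`, `k ⊗ r ↦ k β(r)` (`Algebra.TensorProduct.lift` or `productMap`) is inverse to `α`:
`α(k β(r)) = k ⊗ r`, and it is surjective. The last statement: by `p_base_expand`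
`ω = ∑_j x(asym N ω (b.coord j)) ι(b j)`; choose a `ℚ`-basis `κ` of the span of the coefficients
and collect. -/
def S_base2 [CharZero K] : Prop := ∀ (S : A → Prop), DClosed S → ∀ (x : PerAlg H HB S →ₐ[K] K),
  ∃ (ι : ∀ {N : A}, S N → HB.obj N → H.obj N)
    (α : PerAlg H HB S ≃ₐ[K] (K ⊗[ℚ] PerAlg HB HB S)),
    (∀ {N : A} (hN : S N) (b b' : HB.obj N), ι hN (b + b') = ι hN b + ι hN b') ∧
    (∀ {N : A} (hN : S N) (q : ℚ) (b : HB.obj N), ι hN (q • b) = (q : K) • ι hN b) ∧
    (∀ {N : A} (hN : S N) (b : HB.obj N) (σ : Module.Dual ℚ (HB.obj N)),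
      x (asym H HB hN (ι hN b) σ) = ((σ b : ℚ) : K)) ∧
    (∀ {N : A} (hN : S N) (b : HB.obj N) (σ : Module.Dual ℚ (HB.obj N)),
      α (asym H HB hN (ι hN b) σ) = (1 : K) ⊗ₜ[ℚ] asym HB HB hN b σ) ∧
    (∀ {N : A} (hN : S N) (ω : H.obj N), ∃ (n : ℕ) (κ : Fin n → K) (b : Fin n → HB.obj N),
      LinearIndependent ℚ κ ∧ ω = ∑ i, κ i • ι hN (b i))

/-- [GF trans2] The right translations. Let `x`, `y` be points of `R = PerAlg H HB S` and `ι` as in
`S_base2` for `x`. There is an endomorphism `ρ` of `R` with `x ∘ ρ = y` and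
`ρ(asym N ω σ) = ∑_j y(asym N (ι (b j)) σ) asym N ω (b.coord j)` for every basis `b` of `HB(N)`. Uses
`S_pointbij`, `S_points` (`Λ = R`), `S_arel`, `S_algrel`.

Proof (compare `p_base_ptA` and the lemmas about `p_base_iota` in `P/Base.lean`, which you may
import; `ι = p_base_iota` by the uniqueness in `S_pointbij`, so `ι` is additive, natural and
multiplicative). Put `z_N(b, σ) = y(asym N (ι b) σ) ∈ K`, bilinear, and let
`p N ω σ = ∑_j z_N(b j, σ) asym N ω (b.coord j)` for `b = Module.finBasis`; this does not depend on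
the basis `b` (both sides are the contraction of the bilinear map
`(b, τ) ↦ z_N(b, σ) asym N ω τ` with the identity of `HB(N)`). `p` is bilinear. Naturality:
`p N ω (σ' ∘ HB(f)) = ∑_j z_{N'}(HB(f) b_j, σ') asym N ω b_j^*` and
`p N' (H(f) ω) σ' = ∑_l z_{N'}(b'_l, σ') asym N ω (b'_l^* ∘ HB(f))`, which agree because
`b'_l^* ∘ HB(f) = ∑_j b'_l^*(HB(f) b_j) b_j^*`. Multiplicativity: use the basis
`mul (b_j) (b'_l)` of `HB(M ⊗ N)` with dual basis `b_j^* ⊠ b'_l^*` and
`z(mul b b', σ ⊠ τ) = z(b, σ) z(b', τ)`. Unit: `z(one, φ) = 1`. So `S_points` gives `ρ`.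
`x(ρ(asym N ω σ)) = ∑_j y(asym N (ι b_j) σ) x(asym N ω b_j^*) =
y(asym N (∑_j x(asym N ω b_j^*) ι(b_j)) σ) = y(asym N ω σ)` by `p_base_expand`, and the symbols
generate. -/
def S_trans2 [CharZero K] : Prop := ∀ (S : A → Prop), DClosed S →
  ∀ (x y : PerAlg H HB S →ₐ[K] K) (ι : ∀ {N : A}, S N → HB.obj N → H.obj N),
    (∀ {N : A} (hN : S N) (b : HB.obj N) (σ : Module.Dual ℚ (HB.obj N)),
      x (asym H HB hN (ι hN b) σ) = ((σ b : ℚ) : K)) →
    ∃ ρ : PerAlg H HB S →ₐ[K] PerAlg H HB S, (∀ a, x (ρ a) = y a) ∧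
      ∀ {N : A} (hN : S N) {J : Type} [Fintype J] [DecidableEq J]
        (b : Module.Basis J ℚ (HB.obj N)) (ω : H.obj N) (σ : Module.Dual ℚ (HB.obj N)),
        ρ (asym H HB hN ω σ) = ∑ j, y (asym H HB hN (ι hN (b j)) σ) • asym H HB hN ω (b.coord j)

end Base2

section Van

variable {A : Type u} [Category.{v} A] [Abelian A] [MonoidalCategory A] [SymmetricCategory A]

/-- [GF vans] A symbol vanishes in the formal period algebra of a tensor-closed class only for a
trivial reason. Uses `S_vanish`, `S_fpring`, `S_algrel`.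

Proof. `asym = toPerAlg sym` (`S_algrel`) and `toPerAlg` is injective (`S_fpring`), so `sym = 0` in
`FP S`; apply `fpMap` to `FP ⊤` (it maps `sym` to `sym`) and `S_vanish`. -/
def S_vans : Prop := ∀ {K : Type} [Field K] [CharZero K] (H : A ⥤ ModuleCat.{0} K)
  (HB : A ⥤ ModuleCat.{0} ℚ) [FibreFunctor H] [FibreFunctor HB] [Linear ℚ A] (S : A → Prop),
  TClosed S → ∀ {N : A} (hN : S N) (ω : H.obj N) (σ : Module.Dual ℚ (HB.obj N)),
  asym H HB hN ω σ = 0 → Trivially H HB ω σ

/-- `b` generates `N`: no proper subobject `N'` satisfies `b ∈ HB(N')`. -/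
def Generates (HB : A ⥤ ModuleCat.{0} ℚ) {N : A} (b : HB.obj N) : Prop :=
  ∀ (N' : A) (i : N' ⟶ N), Mono i → (∃ b' : HB.obj N', (HB.map i).hom b' = b) → IsIso i

/-- `σ` cogenerates `N`: `σ` does not vanish on `HB(N')` for any nonzero subobject `N'`. -/
def Cogenerates (HB : A ⥤ ModuleCat.{0} ℚ) {N : A} (σ : Module.Dual ℚ (HB.obj N)) : Prop :=
  ∀ (N' : A) (i : N' ⟶ N), Mono i → σ ∘ₗ (HB.map i).hom = 0 → IsZero N'

/-- [GF minrep] Minimal representation. Uses `S_single`, `S_fpring`, `S_algrel`, `S_arel` (all for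
`H = HB`).

Proof. By `S_fpring` and `S_single` `f` is the class of a symbol `(N, b, σ)`, `N ∈ S`; choose one
with `dim HB(N)` minimal. (1) If `i : N' ↪ N` and `b = HB(i) b'` then
`f = asym N' b' (σ ∘ HB(i))`, so `dim HB(N') = dim HB(N)`, `HB(i)` (injective) is bijective, so `i`
is an isomorphism (`HB` is faithful and exact: `coker i` is killed by `HB`, so it is zero). (2) If
`σ ∘ HB(i) = 0`, let `π : N → N'' = coker i`; `HB(π)` is surjective with kernel the range of
`HB(i)`, so `σ = σ'' ∘ HB(π)` and `f = asym N'' (HB(π) b) σ''`; minimality gives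
`dim HB(N'') = dim HB(N)`, so `HB(N') = 0` (`HB(i)` is injective with range `ker HB(π) = 0`), so
`N' = 0`. -/
def S_minrep (HB : A ⥤ ModuleCat.{0} ℚ) [FibreFunctor HB] : Prop := ∀ (S : A → Prop),
  TClosed S → ∀ f : PerAlg HB HB S, ∃ (N : A) (hN : S N) (b : HB.obj N)
    (σ : Module.Dual ℚ (HB.obj N)), f = asym HB HB hN b σ ∧ Generates HB b ∧ Cogenerates HB σ

end Van

section Fin

variable {A : Type u} [Category.{v} A] [Abelian A] [MonoidalCategory A] [SymmetricCategory A]
  [RigidCategory A] {HdR : A ⥤ ModuleCat.{0} QBar} {HB : A ⥤ ModuleCat.{0} ℚ}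
  [FibreFunctor HdR] [FibreFunctor HB]

/-- [GF stepa] If `σ` cogenerates `N` and `asym_B N b σ` is integral, then `asym_B N b σ'` is
integral for all `σ'`. Uses `S_base2`, `S_trans`, `S_intspan`, `S_homfin`, `S_finval`, `S_vans`,
`S_nullst`, `S_fintype`, `S_pdec`, `S_genclosed`, `S_arel`.

Proof. `R = PerAlg HdR HB (Gen M)` is nontrivial (`evAlg`), so it has a point `x` (`S_fintype`,
`S_nullst`); let `ι`, `α` be as in `S_base2`, `ω = ι(b)`. `f = asym N ω σ = α⁻¹(1 ⊗ asym_B N b σ)` is
integral over `ℚ`, so over `QBar`, so `f ∈ span e` (`S_pdec`, `S_intspan`). For a point `y` let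
`τ_y`, `θ_y` be as in `S_trans` for `(x, y)`: `τ_y(f) = asym N (θ_y ω) σ`, which takes only finitely
many values (`S_homfin`). The map `ω' ↦ asym N ω' σ` is injective on `HdR(N)`: if
`asym N (ω' - ω'') σ = 0` then by `S_vans` there is `i : N' ↪ N` with `ω' - ω'' = HdR(i) ω_0` and
`σ ∘ HB(i) = 0`, so `N' = 0`, `HdR(N') = 0`, `ω' = ω''`. So the `θ_y ω` take finitely many values,
and so do the `y(asym N ω σ') = x(τ_y(asym N ω σ')) = x(asym N (θ_y ω) σ')`. By `S_finval`
`asym N ω σ'` is integral over `QBar`, hence over `ℚ` (`QBar / ℚ` is algebraic: `isIntegral_trans`),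
so `α(asym N ω σ') = 1 ⊗ asym_B N b σ'` is integral over `ℚ`, and `asym_B N b σ'` is
(`Algebra.TensorProduct.includeRight` is injective, `isIntegral_algHom_iff`). -/
def S_stepa (HdR : A ⥤ ModuleCat.{0} QBar) (HB : A ⥤ ModuleCat.{0} ℚ)
    [FibreFunctor HdR] [FibreFunctor HB] : Prop :=
  [Linear ℚ A] → ∀ (_ : Comparison HdR HB) (M : A) {N : A} (hN : Gen M N) (b : HB.obj N)
    (σ : Module.Dual ℚ (HB.obj N)), Cogenerates HB σ → IsIntegral ℚ (asym HB HB hN b σ) →
    ∀ σ' : Module.Dual ℚ (HB.obj N), IsIntegral ℚ (asym HB HB hN b σ')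

/-- [GF stepb] If `b` generates `N` and `asym_B N b σ` is integral, then `asym_B N b' σ` is
integral for all `b'`. Uses `S_base2`, `S_trans2`, `S_intspan`, `S_homfin`, `S_finval`, `S_vans`,
`S_nullst`, `S_fintype`, `S_pdec`, `S_genclosed`, `S_arel`.

Proof. As in `S_stepa` let `x`, `ι`, `α`, `ω = ι(b)`, `f = asym N ω σ ∈ span e`, and let `b_j` be a
basis of `HB(N)` with dual basis `b_j^*`. For a point `y` let `ρ_y` be as in `S_trans2`:
`ρ_y(f) = ∑_j y(asym N (ι b_j) σ) asym N ω b_j^*` takes only finitely many values (`S_homfin`). The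
map `(c_j) ↦ ∑_j c_j asym N ω b_j^*` is injective on `QBar^J`: let the value be `0`. Let `κ_t` be a
`ℚ`-basis of the span of the `c_j`, `c_j = ∑_t q_{jt} κ_t` and `σ_t = ∑_j q_{jt} b_j^*`. Then
`∑_t κ_t asym N ω σ_t = 0`; apply `α`: `∑_t κ_t ⊗ asym_B N b σ_t = 0`, so `asym_B N b σ_t = 0` for all
`t` (linear independence of the `κ_t`). By `S_vans` (for `H = HB`) there is `i : N' ↪ N` with
`b ∈ HB(N')` and `σ_t ∘ HB(i) = 0`; as `b` generates `N`, `i` is an isomorphism, so `σ_t = 0`, so
all `q_{jt} = 0` and `c_j = 0`. So the vectors `(y(asym N (ι b_j) σ))_j` take finitely many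
values. For `b' = ∑ r_j b_j` the values `y(asym N (ι b') σ) = ∑_j r_j y(asym N (ι b_j) σ)` are
finitely many, so `asym N (ι b') σ` is integral (`S_finval`), so `asym_B N b' σ` is (as in
`S_stepa`). -/
def S_stepb (HdR : A ⥤ ModuleCat.{0} QBar) (HB : A ⥤ ModuleCat.{0} ℚ)
    [FibreFunctor HdR] [FibreFunctor HB] : Prop :=
  [Linear ℚ A] → ∀ (_ : Comparison HdR HB) (M : A) {N : A} (hN : Gen M N) (b : HB.obj N)
    (σ : Module.Dual ℚ (HB.obj N)), Generates HB b → IsIntegral ℚ (asym HB HB hN b σ) →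
    ∀ b' : HB.obj N, IsIntegral ℚ (asym HB HB hN b' σ)

/-- [GF finpart] There is `U ∈ ⟨M⟩` with `fw U = span e`, the algebra of locally constant
functions. Uses `S_base2`, `S_intspan`, `S_galdesc`, `S_minrep`, `S_stepa`, `S_stepb`, `S_fwlin`,
`S_arel`, `S_nullst`, `S_fintype`, `S_genclosed`, `S_lincl`.

Proof. Let `x`, `ι`, `α` be as in `S_stepa`. Call `N ∈ ⟨M⟩` finite if all `asym_B N b σ` are
integral over `ℚ`. (1) If `N` is finite then `fw N ⊆ span e`: `ω = ∑ κ_t ι(b_t)` (`S_base2`), so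
`asym N ω σ = ∑ κ_t α⁻¹(1 ⊗ asym_B N b_t σ)` is integral over `QBar` (`S_intspan`). (2) Every
`f ∈ B` integral over `ℚ` is in `fw_B N` for a finite `N`, more precisely `f = asym_B N b σ` with
`N` finite: take the minimal representation (`S_minrep`): `asym_B N b' σ` is integral for all `b'`
(`S_stepb`), so `asym_B N b' σ'` is integral for all `b'`, `σ'` (`S_stepa`). (3) Write
`α(e_i) = ∑_t κ_t ⊗ a_t` with `κ_t ∈ QBar` linearly independent over `ℚ` (use a basis of `QBar` over
`ℚ`). `e_i` is integral over `ℚ` (`e_i^2 = e_i`), so `α(e_i)` is, so the `a_t` are integral over `ℚ`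
(`S_galdesc`), `a_t = asym_B N_t b_t σ_t` with finite `N_t` by (2), and
`e_i = ∑_t κ_t asym N_t (ι b_t) σ_t`. (4) Let `U` be the direct sum of the finitely many objects
`N_t` for all `i` (iterated `⊞`; for the empty sum take the unit if `r = 0`, in which case the ring
is trivial, or start with the finite object `1`). A direct sum of finite objects is finite
(`asym_B (N ⊞ N') b σ = asym_B N (HB(fst) b) (σ ∘ HB(inl)) + asym_B N' (HB(snd) b) (σ ∘ HB(inr))`),
so `fw U ⊆ span e` by (1), and `N_t` is a direct summand of `U`, so `fw N_t ⊆ fw U` (`S_fwlin`,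
`S_lincl`), so `e_i ∈ fw U`. -/
def S_finpart (HdR : A ⥤ ModuleCat.{0} QBar) (HB : A ⥤ ModuleCat.{0} ℚ)
    [FibreFunctor HdR] [FibreFunctor HB] : Prop :=
  [Linear ℚ A] → ∀ (_ : Comparison HdR HB) (M : A) (r : ℕ)
    (e : Fin r → PerAlg HdR HB (Gen M)), Dec (PerAlg HdR HB (Gen M)) r e →
    ∃ (U : A) (hU : Gen M U), fw HdR HB hU = Submodule.span QBar (Set.range e)

/-- [GF attain] There is `U ∈ ⟨M⟩` such that `Nf U` is the number of connected components of
`X(M)` and all periods of `U` are algebraic. Uses `S_finpart`, `S_pdec`, `S_comps`, `S_fwdim`,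
`S_fwev`, `S_evcut`, `S_genclosed`.

Proof. `fw U = span e`; the `e_i` are linearly independent (multiply by `e_j`), so
`Nf U = dim fw U = r = ncomp M` (`S_fwdim`, `S_comps`), and `span (Per U) = ev(span e)` (`S_fwev`) is
spanned by the `ev(e_i)`, which are idempotents of `ℂ`, i.e. `0` or `1`, one of them being `1`
(`S_evcut`); so it is the line `QBar · 1`. -/
def S_attain (c : Comparison HdR HB) : Prop := [Linear ℚ A] → ∀ M : A,
  ∃ U : A, Gen M U ∧ Nf HB U = ncomp HdR HB M ∧ Pf c U = 1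

/-- [GF nfpos] `Nf W ≥ 1` if `W` is not zero, `Pf W = 0` if `W` is zero. Proof: the identity is in
`EndBetti HB W` and `HB(W) ≠ 0` (`HB` is faithful), `EndBetti` is finite-dimensional. If `W` is zero
then `HdR(W) = 0` and all periods are `0`. -/
def S_nfpos (c : Comparison HdR HB) : Prop := ∀ W : A,
  (¬ IsZero W → 1 ≤ Nf HB W) ∧ (IsZero W → Pf c W = 0)

end Fin

end

end Pool.Agent.Lib.MP_ae0f86_nt
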