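import Pool.Agent.Lib.MP_ae0f86_nt.StmB

/-!
# MP_ae0f86_nt : statements of the pieces, part E (formal periods, linear part)
-/

open CategoryTheory CategoryTheory.Limits Opposite MonoidalCategory

universe v u

namespace Pool.Agent.Lib.MP_ae0f86_nt

noncomputable section

attribute [local instance] CategoryTheory.Abelian.hasFiniteBiproducts

section FormalPeriods

variable {A : Type u} [Category.{v} A] [Abelian A] {K : Type} [Field K]
  (H : A ⥤ ModuleCat.{0} K) (HB : A ⥤ ModuleCat.{0} ℚ)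

/-- The class of the symbol `(N, ω, σ)` in `FP`. -/
def sym {S : A → Prop} {N : A} (hN : S N) (ω : H.obj N) (σ : Module.Dual ℚ (HB.obj N)) :
    FP H HB S := Submodule.Quotient.mk (Symb.fin ⟨N, hN, ω, σ⟩)

/-- [GP fprel] The relations between the classes of symbols.
Proof: `Submodule.Quotient.eq`, `Submodule.subset_span`; the last two from bilinearity. -/
def S_fprel : Prop := ∀ (S : A → Prop),
  (∀ {N : A} (hN : S N) (ω ω' : H.obj N) (σ : Module.Dual ℚ (HB.obj N)),
    sym H HB hN (ω + ω') σ = sym H HB hN ω σ + sym H HB hN ω' σ) ∧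
  (∀ {N : A} (hN : S N) (a : K) (ω : H.obj N) (σ : Module.Dual ℚ (HB.obj N)),
    sym H HB hN (a • ω) σ = a • sym H HB hN ω σ) ∧
  (∀ {N : A} (hN : S N) (ω : H.obj N) (σ σ' : Module.Dual ℚ (HB.obj N)),
    sym H HB hN ω (σ + σ') = sym H HB hN ω σ + sym H HB hN ω σ') ∧
  (∀ {N : A} (hN : S N) (q : ℚ) (ω : H.obj N) (σ : Module.Dual ℚ (HB.obj N)),
    sym H HB hN ω (q • σ) = (q : K) • sym H HB hN ω σ) ∧
  (∀ {N N' : A} (hN : S N) (hN' : S N') (f : N ⟶ N') (ω : H.obj N)
    (σ' : Module.Dual ℚ (HB.obj N')),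
    sym H HB hN ω (σ' ∘ₗ (HB.map f).hom) = sym H HB hN' ((H.map f).hom ω) σ') ∧
  (∀ {N : A} (hN : S N) (σ : Module.Dual ℚ (HB.obj N)), sym H HB hN 0 σ = 0) ∧
  (∀ {N : A} (hN : S N) (ω : H.obj N), sym H HB hN ω 0 = 0)

/-- `S` is closed under direct sums and subquotients, and contains some object. -/
structure Closed (S : A → Prop) : Prop where
  sum : ∀ {N N' : A}, S N → S N' → S (N ⊞ N')
  sub : ∀ {N N' : A} (i : N' ⟶ N) [Mono i], S N → S N'
  quot : ∀ {N N' : A} (p : N ⟶ N') [Epi p], S N → S N'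
  ne : ∃ N, S N

/-- [GP single] Every formal period is the class of a single symbol. Uses `S_fprel`.
Here `H`, `HB` are additive.

Proof: induction on the element of `Symb →₀ K` (`Finsupp.induction_linear`). `0`:
`sym hN 0 0` for some `N` with `S N`. `a • (N, ω, σ) = (N, a • ω, σ)`. Sum: `(N, ω, σ) + (N', ω', σ')
= (N ⊞ N', H(inl) ω + H(inr) ω', σ ∘ HB(fst) + σ' ∘ HB(snd))`: expand the right side by
bilinearity and functoriality along `inl`, `inr` (`inl ≫ fst = 𝟙`, `inl ≫ snd = 0`, additivity of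
`HB`). -/
def S_single : Prop := [H.Additive] → [HB.Additive] → ∀ (S : A → Prop), Closed S →
  ∀ x : FP H HB S, ∃ (N : A) (hN : S N) (ω : H.obj N) (σ : Module.Dual ℚ (HB.obj N)),
    x = sym H HB hN ω σ

/-- The map on symbols for `S ⊆ S'`. -/
def symbMap {S S' : A → Prop} (h : ∀ N, S N → S' N) (s : Symb H HB S) : Symb H HB S' :=
  ⟨s.N, h _ s.mem, s.ω, s.σ⟩

theorem symbMap_rel {S S' : A → Prop} (h : ∀ N, S N → S' N) (r : Symb H HB S →₀ K)
    (hr : LinRel H HB S r) : LinRel H HB S' (Finsupp.mapDomain (symbMap H HB h) r) := by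
  rcases hr with ⟨N, hN, ω, ω', σ⟩ | ⟨N, hN, a, ω, σ⟩ | ⟨N, hN, ω, σ, σ'⟩ | ⟨N, hN, q, ω, σ⟩ |
      ⟨N, N', hN, hN', f, ω, σ'⟩
  · rw [sub_eq_add_neg, sub_eq_add_neg, Finsupp.mapDomain_add, Finsupp.mapDomain_add,
      ← Finsupp.single_neg, ← Finsupp.single_neg, Finsupp.mapDomain_single,
      Finsupp.mapDomain_single, Finsupp.mapDomain_single, Finsupp.single_neg,
      Finsupp.single_neg, ← sub_eq_add_neg, ← sub_eq_add_neg]
    exact LinRel.add_left N (h N hN) ω ω' σ
  · rw [sub_eq_add_neg, Finsupp.mapDomain_add, Finsupp.smul_single, ← Finsupp.single_neg,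
      Finsupp.mapDomain_single, Finsupp.mapDomain_single, Finsupp.single_neg,
      ← Finsupp.smul_single, ← sub_eq_add_neg]
    exact LinRel.smul_left N (h N hN) a ω σ
  · rw [sub_eq_add_neg, sub_eq_add_neg, Finsupp.mapDomain_add, Finsupp.mapDomain_add,
      ← Finsupp.single_neg, ← Finsupp.single_neg, Finsupp.mapDomain_single,
      Finsupp.mapDomain_single, Finsupp.mapDomain_single, Finsupp.single_neg,
      Finsupp.single_neg, ← sub_eq_add_neg, ← sub_eq_add_neg]
    exact LinRel.add_right N (h N hN) ω σ σ'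
  · rw [sub_eq_add_neg, Finsupp.mapDomain_add, Finsupp.smul_single, ← Finsupp.single_neg,
      Finsupp.mapDomain_single, Finsupp.mapDomain_single, Finsupp.single_neg,
      ← Finsupp.smul_single, ← sub_eq_add_neg]
    exact LinRel.smul_right N (h N hN) q ω σ
  · rw [sub_eq_add_neg, Finsupp.mapDomain_add, ← Finsupp.single_neg,
      Finsupp.mapDomain_single, Finsupp.mapDomain_single, Finsupp.single_neg,
      ← sub_eq_add_neg]
    exact LinRel.funct N N' (h N hN) (h N' hN') f ω σ'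

/-- The map `FP S → FP S'` for `S ⊆ S'`. -/
def fpMap {S S' : A → Prop} (h : ∀ N, S N → S' N) : FP H HB S →ₗ[K] FP H HB S' :=
  Submodule.mapQ _ _ (Finsupp.lmapDomain K K (symbMap H HB h)) (by
    rw [Submodule.span_le]
    intro r hr
    exact Submodule.subset_span (symbMap_rel H HB h r hr))

/-- [GP univ] The universal object `Q` of the subquotients of the powers of `W` for functionals
on `H_B`: a quotient `π : W^n → Q` with `σ_Q ∈ H_B(Q)^∨` such that each functional
`σ ∈ H_B(N)^∨`, `N ∈ Lin W`, is `σ_Q ∘ H_B(f)` for a unique `f : N → Q`.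
Here `A` is `ℚ`-linear and `HB` is exact and faithful with finite-dimensional values.

Proof. Let `b_1, ..., b_n` be a basis of `H_B(W)^∨` and `σ_0 = ∑ b_l ∘ pr_l` on `H_B(W^n)`. Among
the subobjects `κ : N' ↪ W^n` with `σ_0 ∘ H_B(κ) = 0` choose one with `dim H_B(N')` maximal. It
contains every morphism `f : N → W^n` with `σ_0 ∘ H_B(f) = 0`: the image of
`(κ, f) : N' ⊞ N → W^n` is again killed by `σ_0` (its `H_B` is spanned by the images of `H_B(κ)`
and `H_B(f)`, as `H_B` is exact) and contains `N'`, so by maximality `N'` → image is an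
isomorphism on `H_B`, hence an isomorphism (`H_B` is faithful and exact, so reflects
isomorphisms). Let `Q = coker κ`, `π : W^n → Q`; `σ_0` vanishes on
`H_B(N') = ker H_B(π)`, so `σ_0 = σ_Q ∘ H_B(π)`.
(1) If `f : N → Q` satisfies `σ_Q ∘ H_B(f) = 0` then `f = 0`: let `P = W^n ×_Q N` be the pullback,
`P → N` epi, `P → W^n` is killed by `σ_0`, so it factors through `κ`, so `P → W^n → Q` is
zero, so `P → N → Q` is zero, so `f = 0`. Hence uniqueness (difference of two maps, `HB`
additive).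
(2) Existence for `N = W`: `σ = ∑ q_l b_l`, `f = π ∘ (q_l id)_l` (`biproduct.lift`,
`HB.map (q • g) = q • HB.map g` for rational `q` because `HB` is additive: `map_ratCast_smul` /
`map_rat_smul`). For `N = ⨁_{Fin n} W`: sum of the `f_a ∘ pr_a`. For a subobject `i : N' → N`:
extend `σ' ∈ H_B(N')^∨` along the injective `H_B(i)`. For a quotient `p : N → N''` and
`σ'' ∈ H_B(N'')^∨`: `f : N → Q` for `σ'' ∘ H_B(p)`; `f` vanishes on `ker p` by (1), so factors. -/
def S_univ (HB : A ⥤ ModuleCat.{0} ℚ) : Prop := [Linear ℚ A] → [HB.Additive] → [HB.Faithful] →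
  [PreservesFiniteLimits HB] → [PreservesFiniteColimits HB] →
  (∀ M, Module.Finite ℚ (HB.obj M)) → ∀ W : A,
  ∃ (n : ℕ) (Q : A) (π : (⨁ fun _ : Fin n => W) ⟶ Q) (σQ : Module.Dual ℚ (HB.obj Q)), Epi π ∧
    (∀ (N : A) (f : N ⟶ Q), σQ ∘ₗ (HB.map f).hom = 0 → f = 0) ∧
    (∀ (N : A), Lin W N → ∀ σ : Module.Dual ℚ (HB.obj N), ∃ f : N ⟶ Q,
      σ = σQ ∘ₗ (HB.map f).hom) ∧
    n = Module.finrank ℚ (HB.obj W) ∧
    ∃ b : Module.Basis (Fin n) ℚ (Module.Dual ℚ (HB.obj W)), ∀ l,
      σQ ∘ₗ (HB.map (biproduct.ι (fun _ : Fin n => W) l ≫ π)).hom = b l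

/-- [GP lincl] The class `Lin W` of the subquotients of powers of `W` is closed; if `S` is closed
and `S W` then `Lin W ⊆ S`; finitely many objects are contained in a common `Lin W`: for every
finite family of objects `M_a` of a closed class `S` there is `W` in `S` with all
`M_a ∈ Lin W`. Uses `S_subq`, `S_subsum`.
Proof: sums: `Lin W N ↔ SubSum {W} N` and `S_subsum`; sub/quot by transitivity of subquotients;
`W = ⨁ M_a` (by induction binary sums), `M_a` is a direct summand. Zero object: quotient of any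
object. -/
def S_lincl (A : Type u) [Category.{v} A] [Abelian A] : Prop :=
  (∀ W : A, Closed (Lin W)) ∧ (∀ W : A, Lin W W) ∧
  (∀ (S : A → Prop) (W : A), Closed S → S W → ∀ N, Lin W N → S N) ∧
  (∀ (S : A → Prop), Closed S → ∀ (r : ℕ) (M : Fin r → A), (∀ a, S (M a)) →
    ∃ W, S W ∧ ∀ a, Lin W (M a)) ∧
  (∀ W W' N : A, Lin W W' → Lin W' N → Lin W N)

/-- [GP psi] Coefficient functional. Let `Q, σQ` be as in `S_univ` for `W`. There is a `K`-linear
map `Ψ` from the formal combinations of symbols of `A` to `H(Q)` with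
`Ψ(N, ω, σ) = H(f)(ω)` if `N ∈ Lin W` and `σ = σQ ∘ HB(f)`, which kills every relation `LinRel`
all of whose objects are in `Lin W`: if `r` is a relation and the support of `r` consists of
symbols with object in `Lin W`... we record it for the five kinds of relations, as: `Ψ` kills
the span of the relations for the class `Lin W`.

So the statement is: there is a linear map `Ψ : FP (Lin W) → H(Q)` with
`Ψ (sym N ω σ) = H(f) ω` whenever `σ = σQ ∘ HB(f)`. Moreover `Ψ` is bijective.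

Proof: for `N ∈ Lin W` and `σ` choose `f_σ : N → Q`, unique by the properties of `Q`; by
uniqueness `f_{σ+σ'} = f_σ + f_{σ'}`, `f_{qσ} = q f_σ`, `f_{σ' ∘ HB(g)} = g ≫ f_{σ'}`. Define
`Ψ` on `Symb →₀ K` by `Finsupp.linearCombination` of `H(f_σ) ω` and check the five relations
(`H` is additive; `(H.map (q • f)).hom ω = (q : K) • (H.map f).hom ω` for rational `q`).
Injective: by `S_single` an element is `sym N ω σ = sym N ω (σQ ∘ HB(f)) = sym Q (H(f) ω) σQ`, so
it is `0` if `H(f) ω = 0` (`S_fprel`). Surjective: `Ψ (sym Q ω σQ) = ω` (`Q ∈ Lin W` as a quotient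
of `W^n`). Uses `S_fprel`, `S_single`, `S_lincl`. -/
def S_psi : Prop := [Linear ℚ A] → [H.Additive] → [HB.Additive] → [CharZero K] →
  ∀ (W Q : A) (hQ : Lin W Q) (σQ : Module.Dual ℚ (HB.obj Q)),
    (∀ (N : A) (f : N ⟶ Q), σQ ∘ₗ (HB.map f).hom = 0 → f = 0) →
    (∀ (N : A), Lin W N → ∀ σ : Module.Dual ℚ (HB.obj N), ∃ f : N ⟶ Q,
      σ = σQ ∘ₗ (HB.map f).hom) →
    ∃ Ψ : FP H HB (Lin W) →ₗ[K] H.obj Q, Function.Bijective Ψ ∧
      ∀ (N : A) (hN : Lin W N) (ω : H.obj N) (f : N ⟶ Q),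
        Ψ (sym H HB hN ω (σQ ∘ₗ (HB.map f).hom)) = (H.map f).hom ω

/-- [GP fincat] If a formal period of `S` becomes zero in `FP S'` (`S ⊆ S'` closed), and it is the
class of the symbol `(N, ω, σ)`, then there is `W ∈ S'` with `N ∈ Lin W` such that the class of
`(N, ω, σ)` in `FP (Lin W)` is zero. Uses `S_lincl`.

Proof: `Symb.fin ⟨N, _, ω, σ⟩` is in the span of the relations for `S'`, hence a finite linear
combination of relations (`Submodule.mem_span_set` or `Submodule.span_induction`); finitely many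
objects occur in these relations. Choose `W ∈ S'` with all of them and `N` in `Lin W`
(`S_lincl`). By `span_induction` one proves: for every `x` in the span of the relations for `S'`
there is `W ∈ S'` and `y` in the span of the relations for `Lin W` with `x` the image of `y` in
`Symb S' →₀ K` (`Lin W ⊆ S'`) - for sums take `W` containing both (`Lin W1 ⊆ Lin W` by the last
property of `S_lincl`). Finally enlarge `W` so that `N ∈ Lin W` and use the injectivity of
`Symb (Lin W) → Symb S'`. -/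
def S_fincat : Prop := ∀ (S' : A → Prop), Closed S' → ∀ {N : A} (hN : S' N) (ω : H.obj N)
  (σ : Module.Dual ℚ (HB.obj N)), sym H HB hN ω σ = 0 →
    ∃ (W : A) (_ : S' W) (hN' : Lin W N), sym H HB (S := Lin W) hN' ω σ = 0

/-- [GP heredity] The map `FP S → FP S'` is injective for closed classes `S ⊆ S'`. Uses
`S_fprel`, `S_single`, `S_univ`, `S_psi`, `S_fincat`.

Proof: let `x = sym N ω σ ∈ FP S` (`S_single`) map to `0`. By `S_fincat` there is `W` with
`N ∈ Lin W` and `sym N ω σ = 0` in `FP (Lin W)`. With `Q, σQ` from `S_univ` and `σ = σQ ∘ HB(f)`,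
`f : N → Q`, we get `H(f) ω = 0` from `S_psi`. Factor `f = p ≫ i`, `p : N → N''` epi, `i` mono
(`Abelian.image`); `N'' ∈ S`. `H(i)` is injective (`H` preserves monos), so `H(p) ω = 0`, and
`x = sym N ω ((σQ ∘ HB(i)) ∘ HB(p)) = sym N'' (H(p) ω) (σQ ∘ HB(i)) = 0` in `FP S`. -/
def S_heredity : Prop := [Linear ℚ A] → [H.Additive] → [HB.Additive] → [HB.Faithful] →
  [PreservesFiniteLimits HB] → [PreservesFiniteColimits HB] → [PreservesFiniteLimits H] →
  [CharZero K] → (∀ M, Module.Finite ℚ (HB.obj M)) →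
  ∀ (S S' : A → Prop) (h : ∀ N, S N → S' N), Closed S → Closed S' →
    Function.Injective (fpMap H HB h)

end FormalPeriods

section Lin4

variable {A : Type u} [Category.{v} A] [Abelian A] [MonoidalCategory A] [SymmetricCategory A]

/-- [GP rank] The two fibre functors have the same dimensions. Proof: the bijection `c.bij` is
`ℂ`-linear, `finrank ℂ (ℂ ⊗ H_dR(N)) = finrank K H_dR(N)` (`Module.finrank_baseChange`) and
`finrank ℂ (Hom_ℚ(V, ℂ)) = finrank ℚ V` for the finite-dimensional `V = H_B(N)^∨`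
(choose a basis: `Basis.constr`), `finrank V = finrank H_B(N)`
(`Subspace.dual_finrank_eq`). -/
def S_rank : Prop := ∀ {K : Type} [Field K] [Algebra K ℂ] {HdR : A ⥤ ModuleCat.{0} K}
  {HB : A ⥤ ModuleCat.{0} ℚ} [FibreFunctor HdR] [FibreFunctor HB] (_ : Comparison HdR HB) (N : A),
  Module.finrank K (HdR.obj N) = Module.finrank ℚ (HB.obj N)

/-- [GP endbetti] `EndBetti W` is isomorphic to `H_B(Q)^∨` for the universal object `Q` of
`S_univ`, hence has the same dimension.

Proof: with `π_l = biproduct.ι _ l ≫ π : W → Q` and `σQ ∘ HB(π_l) = b_l` (basis of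
`H_B(W)^∨`). Map `τ ∈ H_B(Q)^∨` to the endomorphism `e` of `H_B(W)` with
`b_l ∘ e = τ ∘ HB(π_l)` for all `l` (exists uniquely since `b` is a basis of the dual; e.g. via the
dual basis). `e ∈ EndBetti W`: let `f_j : W → U`, `∑ HB(f_j) m_j = 0`, `j < n'`. Let
`f : ⨁_j W → U` and `m ∈ HB(⨁ W)` the element with components `m_j`; `m ∈ ker HB(f) =
HB(ker f)`, `κ : ker f → ⨁ W`. To show `∑ HB(f_j)(e m_j) = 0`, i.e. that `v = (e m_j)_j` is in
`HB(ker f)`: a functional `ρ` on `HB(⨁_j W)` that vanishes on `HB(ker f)`, i.e.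
`ρ ∘ HB(κ) = 0`, is `σQ ∘ HB(g)` for some `g : ⨁ W → Q` (`⨁ W ∈ Lin W`), and `κ ≫ g = 0`. Then
`ρ(v) = ∑_j (σQ ∘ HB(g_j))(e m_j)`, `g_j = ι_j ≫ g`. Claim: `(σQ ∘ HB(g')) ∘ e = τ ∘ HB(g')` for all
`g' : W → Q`: write `σQ ∘ HB(g') = ∑ q_l b_l = σQ ∘ HB(∑ q_l π_l)`, so `g' = ∑ q_l π_l` by
uniqueness, and the claim follows from the definition of `e`. So
`ρ(v) = ∑_j τ(HB(g_j) m_j) = τ(HB(g) m) = 0` since `m ∈ HB(ker f)` and `κ ≫ g = 0`. As `ρ` was
arbitrary, `v ∈ HB(ker f)`.
Conversely, for `e ∈ EndBetti W` the functional `∑_l b_l ∘ e ∘ pr_l` on `HB(⨁_{Fin n} W)` kills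
`ker HB(π)`: if `HB(π) m = ∑ HB(π_l) m_l = 0` then `∑ HB(π_l)(e m_l) = 0`, apply `σQ`:
`∑ b_l(e m_l) = 0`. So it is `τ ∘ HB(π)` for a unique `τ` (`HB(π)` surjective), and
`b_l ∘ e = τ ∘ HB(π_l)`. These maps are inverse to each other. -/
def S_endbetti (A : Type u) [Category.{v} A] [Abelian A] : Prop :=
  ∀ (HB : A ⥤ ModuleCat.{0} ℚ), [Linear ℚ A] → [HB.Additive] →
  [HB.Faithful] → [PreservesFiniteLimits HB] → [PreservesFiniteColimits HB] →
  (∀ M, Module.Finite ℚ (HB.obj M)) →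
  ∀ (W Q : A) (n : ℕ) (π : (⨁ fun _ : Fin n => W) ⟶ Q) (σQ : Module.Dual ℚ (HB.obj Q)),
    Epi π → (∀ (N : A) (f : N ⟶ Q), σQ ∘ₗ (HB.map f).hom = 0 → f = 0) →
    (∀ (N : A), Lin W N → ∀ σ : Module.Dual ℚ (HB.obj N), ∃ f : N ⟶ Q,
      σ = σQ ∘ₗ (HB.map f).hom) →
    (∃ b : Module.Basis (Fin n) ℚ (Module.Dual ℚ (HB.obj W)), ∀ l,
      σQ ∘ₗ (HB.map (biproduct.ι (fun _ : Fin n => W) l ≫ π)).hom = b l) →
    Module.finrank ℚ (EndBetti HB W) = Module.finrank ℚ (HB.obj Q)

/-- [GP range] The image of the evaluation on `FP (Lin W)` is the `K`-span of the periods of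
`W`. Uses `S_fprel`.

Proof: `⊇`: `per W ω σ = ev (sym W ω σ)`. `⊆`: it suffices that `per N ω σ` is in the span for
`N ∈ Lin W`, i.e. `N' ↪ W^n` (`i`), `N' ↠ N` (`p`). `HdR(p)` is surjective: `ω = HdR(p) ω'`, so
`per N ω σ = per N' ω' (σ ∘ HB(p))`. `HB(i)` is injective, so `σ ∘ HB(p) = σ' ∘ HB(i)` for a
functional `σ'` on `HB(W^n)`; so it equals `per W^n (HdR(i) ω') σ'`. Finally for `η ∈ HdR(W^n)`,
`η = ∑ HdR(ι_l) η_l` with `η_l = HdR(pr_l) η` and `per W^n η σ' = ∑ per W η_l (σ' ∘ HB(ι_l))`. -/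
def S_range : Prop := ∀ {K : Type} [Field K] [Algebra K ℂ] {HdR : A ⥤ ModuleCat.{0} K}
  {HB : A ⥤ ModuleCat.{0} ℚ} [FibreFunctor HdR] [FibreFunctor HB] (c : Comparison HdR HB) (W : A),
  LinearMap.range (c.ev (Lin W)) = Submodule.span K (c.Per W)

/-- [GP linear] The linear period statement: `ev` is injective on `FP (Lin W)` iff
`dim_K span(Per W) = dim_ℚ EndBetti W`. Uses `S_univ`, `S_psi`, `S_rank`, `S_endbetti`,
`S_range`, `S_lincl`.

Proof: `FP (Lin W) ≅ HdR(Q)` (`S_psi`) is finite-dimensional over `K` of dimension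
`dim HdR(Q) = dim HB(Q) = dim EndBetti W`. A linear map from a finite-dimensional space is
injective iff the dimension of its range is the dimension of the space. -/
def S_linear : Prop := [Linear ℚ A] → ∀ {K : Type} [Field K] [Algebra K ℂ]
  {HdR : A ⥤ ModuleCat.{0} K}
  {HB : A ⥤ ModuleCat.{0} ℚ} [FibreFunctor HdR] [FibreFunctor HB] (c : Comparison HdR HB) (W : A),
  Function.Injective (c.ev (Lin W)) ↔
    Module.finrank K (Submodule.span K (c.Per W)) = Module.finrank ℚ (EndBetti HB W)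

/-! ### the algebra of formal periods -/

/-- `S` is a closed class which is also closed under tensor products and contains the unit. -/
structure TClosed (S : A → Prop) : Prop extends Closed S where
  unit : S (𝟙_ A)
  tensor : ∀ {N N' : A}, S N → S N' → S (N ⊗ N')

/-- The class of the symbol in the formal period algebra. -/
def asym {K : Type} [Field K] (H : A ⥤ ModuleCat.{0} K) (HB : A ⥤ ModuleCat.{0} ℚ)
    [FibreFunctor H] [FibreFunctor HB] {S : A → Prop} {N : A} (hN : S N) (ω : H.obj N)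
    (σ : Module.Dual ℚ (HB.obj N)) : PerAlg H HB S :=
  Ideal.Quotient.mk _ (MvPolynomial.X ⟨N, hN, ω, σ⟩)

/-- The functional `σ ⊠ τ` on `HB(M ⊗ N)`. -/
def tdual (HB : A ⥤ ModuleCat.{0} ℚ) [FibreFunctor HB] {M N : A}
    (σ : Module.Dual ℚ (HB.obj M)) (τ : Module.Dual ℚ (HB.obj N)) :
    Module.Dual ℚ (HB.obj (M ⊗ N)) :=
  (TensorProduct.dualDistrib ℚ (HB.obj M) (HB.obj N) (σ ⊗ₜ τ)) ∘ₗ
    (LinearEquiv.ofBijective _ (FibreFunctor.bij (H := HB) M N)).symm.toLinearMap

/-- [GP algrel] The relations between the classes of symbols in the formal period algebra, and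
`toPerAlg`.
Proof: `Ideal.Quotient.eq`, `Ideal.subset_span`, `AlgRel`. For the product:
`tdual σ τ (mul x y) = σ x * τ y`. -/
def S_algrel : Prop := ∀ {K : Type} [Field K] (H : A ⥤ ModuleCat.{0} K)
  (HB : A ⥤ ModuleCat.{0} ℚ) [FibreFunctor H] [FibreFunctor HB] (S : A → Prop),
  (∀ {N : A} (hN : S N) (ω : H.obj N) (σ : Module.Dual ℚ (HB.obj N)),
    toPerAlg H HB S (sym H HB hN ω σ) = asym H HB hN ω σ) ∧
  (∀ {M N : A} (hM : S M) (hN : S N) (hMN : S (M ⊗ N)) (ω : H.obj M) (η : H.obj N)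
    (σ : Module.Dual ℚ (HB.obj M)) (τ : Module.Dual ℚ (HB.obj N)),
    asym H HB hM ω σ * asym H HB hN η τ =
      asym H HB hMN (FibreFunctor.mul M N ω η) (tdual HB σ τ)) ∧
  (∀ (h1 : S (𝟙_ A)) (σ : Module.Dual ℚ (HB.obj (𝟙_ A))), σ FibreFunctor.one = 1 →
    asym H HB h1 FibreFunctor.one σ = 1) ∧
  (∀ {M N : A} (x : HB.obj M) (y : HB.obj N)
    (σ : Module.Dual ℚ (HB.obj M)) (τ : Module.Dual ℚ (HB.obj N)),
    tdual HB σ τ (FibreFunctor.mul M N x y) = σ x * τ y)

/-- [GP fpring] For a tensor-closed class `S` the natural map `FP S → PerAlg S` is bijective.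
Uses `S_fprel`, `S_single`, `S_algrel`.

Proof. Surjective: `PerAlg` is spanned as a `K`-module by products of classes of symbols, which
are classes of symbols (`S_algrel`), and `1 = (1, one, σ)`. So the range of `toPerAlg` is a
subring containing the generators (`MvPolynomial.induction_on`).
Injective: we construct a left inverse. `FP S` has a commutative ring structure:
define the bilinear product `(N, ω, σ) · (N', ω', σ') = (N ⊗ N', mul ω ω', σ ⊠ σ')` on
`Symb →₀ K` and check that it descends to `FP S` in both variables: bilinearity is clear (`mul`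
and `tdual` are bilinear), functoriality from `mul_nat` with `f ⊗ₘ 𝟙` and
`(σ' ∘ HB(f)) ⊠ τ = (σ' ⊠ τ) ∘ HB(f ⊗ₘ 𝟙)` (check on the elements `mul x y`, which span).
Associativity, commutativity, unit from functoriality for `α_`, `β_`, `λ_` (fields `mul_assoc`,
`mul_comm`, `one_mul`): e.g. `(N, ω, σ)(N', ω', σ') = (N' ⊗ N, mul ω' ω, σ' ⊠ σ)` since
`HB(β)`: `(σ' ⊠ σ) ∘ HB(β) = σ ⊠ σ'`. This gives a `CommRing` and `Algebra K` structure on `FP S`
(local `letI`). Then `MvPolynomial.aeval` of the symbols kills `AlgRel` (the functional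
`σ` in `AlgRel.mul` is `tdual s.σ s'.σ` because the elements `mul x y` span) and gives a ring
homomorphism `PerAlg S → FP S`, `asym ↦ sym`, whose composite with `toPerAlg` is the identity on
`FP S`. -/
def S_fpring : Prop := ∀ {K : Type} [Field K] [CharZero K] (H : A ⥤ ModuleCat.{0} K)
  (HB : A ⥤ ModuleCat.{0} ℚ) [FibreFunctor H] [FibreFunctor HB] (S : A → Prop), TClosed S →
    Function.Bijective (toPerAlg H HB S)

/-- [GP evcomp] `evAlg (toPerAlg x) = ev x`; so `evAlg` is injective iff `ev` is, for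
tensor-closed `S`. Uses `S_fpring`. Proof: check on symbols. -/
def S_evcomp : Prop := ∀ {K : Type} [Field K] [CharZero K] [Algebra K ℂ]
  {HdR : A ⥤ ModuleCat.{0} K}
  {HB : A ⥤ ModuleCat.{0} ℚ} [FibreFunctor HdR] [FibreFunctor HB] (c : Comparison HdR HB)
  (S : A → Prop), (∀ x, c.evAlg S (toPerAlg HdR HB S x) = c.ev S x) ∧
    (TClosed S → (Function.Injective (c.evAlg S) ↔ Function.Injective (c.ev S)))

/-- [GP genclosed] The classes `Gen M` and everything are tensor-closed, and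
`Lin M N → Gen M N`, `Gen M N → Gen N P → Gen M P`.
Proof: constructors of `Gen`; for `Lin`: `⨁ over Fin n` is an iterated `⊞` (or zero: a
quotient of the unit). -/
def S_genclosed [RigidCategory A] : Prop := (∀ M : A, TClosed (Gen M)) ∧
  TClosed (fun _ : A => True) ∧ (∀ M N : A, Lin M N → Gen M N) ∧
  (∀ M N P : A, Gen M N → Gen N P → Gen M P)

/-- [GP lef] A formal period of the Lefschetz object is invertible. Uses `S_algrel`.
If `L ⊗ L' ≅ 1` then there are `ω ∈ HdR(L)`, `σ ∈ HB(L)^∨` with `asym L ω σ` a unit of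
`PerAlg S` (`S` everything).

Proof: by `bij` and `one_bij`, `dim H(L) · dim H(L') = 1` for `H = HdR, HB`, so all are of dimension
one; choose `ω, ω'` nonzero with `H(iso)(mul ω ω') = one` (scale), and `σ, σ'` with
`(σ ⊠ σ') = φ ∘ HB(iso)`, `φ(one) = 1` (scale). Then `asym L ω σ * asym L' ω' σ' =
asym (L ⊗ L') (mul ω ω') (φ ∘ HB(iso)) = asym 1 one φ = 1`. -/
def S_lef : Prop := ∀ {K : Type} [Field K] [CharZero K] (H : A ⥤ ModuleCat.{0} K)
  (HB : A ⥤ ModuleCat.{0} ℚ) [FibreFunctor H] [FibreFunctor HB] (L L' : A), (L ⊗ L' ≅ 𝟙_ A) →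
    ∃ (ω : H.obj L) (σ : Module.Dual ℚ (HB.obj L)),
      IsUnit (asym H HB (S := fun _ : A => True) (N := L) trivial ω σ)

/-- [GP reduce] The reduction: if every object has a twist in some `Lin W`, `W ∈ 𝒲`, and `ev` is
injective on `FP (Lin W)` for `W ∈ 𝒲`, then `evAlg` is injective on all of `A`. Uses `S_lef`,
`S_algrel`, `S_single`, `S_fpring`, `S_fprel`, `S_evcomp`.

Proof: let `x ∈ PerAlg` (everything) with `evAlg x = 0`. By `S_fpring` and `S_single`,
`x = asym N ω σ`. Choose `W ∈ 𝒲` and `e` with `N ⊗ L^e ∈ Lin W`. Let `ℓ = asym L ω_L σ_L` be a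
unit (`S_lef`). Then `x ℓ^e = asym (N ⊗ L^e) ω' σ'` for suitable `ω', σ'` (`S_algrel`; induction
on `e`, `tpow L (e+1) = tpow L e ⊗ L` and associativity isomorphisms; note
`asym 1 one φ = 1` for `e = 0`). This is the image of `y = sym (N ⊗ L^e) ω' σ' ∈ FP (Lin W)`,
and `ev y = evAlg (x ℓ^e) = 0`, so `y = 0`, so `x ℓ^e = 0` (the map `FP (Lin W) → FP ⊤ →
PerAlg ⊤`), so `x = 0`. -/
def S_reduce : Prop := [Linear ℚ A] → ∀ {K : Type} [Field K] [CharZero K] [Algebra K ℂ]
  {HdR : A ⥤ ModuleCat.{0} K}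
  {HB : A ⥤ ModuleCat.{0} ℚ} [FibreFunctor HdR] [FibreFunctor HB] (c : Comparison HdR HB)
  (L L' : A) (_ : L ⊗ L' ≅ 𝟙_ A) (𝒲 : A → Prop),
  (∀ N : A, ∃ (e : ℕ) (W : A), 𝒲 W ∧ Lin W (N ⊗ tpow L e)) →
  (∀ W, 𝒲 W → Function.Injective (c.ev (Lin W))) →
    Function.Injective (c.evAlg (fun _ => True))

/-- [GP herAlg] Heredity for the formal period conjecture. Uses `S_heredity`, `S_fpring`,
`S_evcomp`, `S_single`, `S_algrel`, `S_genclosed`, `S_lincl`.

(a) If `S ⊆ S'` are closed and `ev` is injective on `FP S'` then it is injective on `FP S`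
(`ev_S = ev_{S'} ∘ fpMap`). (b) If `evAlg` is injective on `PerAlg (Gen M)` for all `M` then it is
injective on everything: `x = asym N ω σ` (`S_single`, `S_fpring`), `evAlg (asym N ω σ) = 0` in
`PerAlg (Gen N)`, so `asym N ω σ = 0` there; the inclusion induces a map
`FP (Gen N) → FP ⊤` mapping `sym` to `sym`. -/
def S_herAlg [RigidCategory A] : Prop := [Linear ℚ A] →
  ∀ {K : Type} [Field K] [CharZero K] [Algebra K ℂ] {HdR : A ⥤ ModuleCat.{0} K}
  {HB : A ⥤ ModuleCat.{0} ℚ} [FibreFunctor HdR] [FibreFunctor HB] (c : Comparison HdR HB),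
  (∀ S S' : A → Prop, (∀ N, S N → S' N) → Closed S → Closed S' →
    Function.Injective (c.ev S') → Function.Injective (c.ev S)) ∧
  ((∀ M : A, Function.Injective (c.evAlg (Gen M))) →
    Function.Injective (c.evAlg (fun _ => True)))

end Lin4

end

end Pool.Agent.Lib.MP_ae0f86_nt
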