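import Pool.Agent.Lib.MP_ae0f86_nt.StmE

/-!
# MP_ae0f86_nt : statements of the pieces, part T (the torsor `X(M)`, the group `G(M)`, Q1)
-/

open CategoryTheory CategoryTheory.Limits Opposite MonoidalCategory

universe w v u

namespace Pool.Agent.Lib.MP_ae0f86_nt

noncomputable section

attribute [local instance] CategoryTheory.Abelian.hasFiniteBiproducts

section Points

variable {A : Type u} [Category.{v} A] [Abelian A] [MonoidalCategory A] [SymmetricCategory A]
  {K : Type} [Field K] (H : A ⥤ ModuleCat.{0} K) (HB : A ⥤ ModuleCat.{0} ℚ)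
  [FibreFunctor H] [FibreFunctor HB]

/-- A `Λ`-valued point: a family of pairings `H(N) × HB(N)^∨ → Λ`, `N ∈ S`, bilinear, natural and
compatible with tensor products. -/
structure Pt (S : A → Prop) (Λ : Type w) [CommRing Λ] [Algebra K Λ] where
  /-- the pairings -/
  p : ∀ {N : A}, S N → H.obj N → Module.Dual ℚ (HB.obj N) → Λ
  add_left : ∀ {N : A} (hN : S N) ω ω' σ, p hN (ω + ω') σ = p hN ω σ + p hN ω' σ
  smul_left : ∀ {N : A} (hN : S N) (a : K) ω σ, p hN (a • ω) σ = a • p hN ω σ
  add_right : ∀ {N : A} (hN : S N) ω σ σ', p hN ω (σ + σ') = p hN ω σ + p hN ω σ'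
  smul_right : ∀ {N : A} (hN : S N) (q : ℚ) ω σ, p hN ω (q • σ) = (q : K) • p hN ω σ
  nat : ∀ {N N' : A} (hN : S N) (hN' : S N') (f : N ⟶ N') ω σ',
    p hN ω (σ' ∘ₗ (HB.map f).hom) = p hN' ((H.map f).hom ω) σ'
  mul : ∀ {M N : A} (hM : S M) (hN : S N) (hMN : S (M ⊗ N)) ω η σ τ,
    p hMN (FibreFunctor.mul M N ω η) (tdual HB σ τ) = p hM ω σ * p hN η τ
  one : ∀ (h1 : S (𝟙_ A)) σ, σ FibreFunctor.one = 1 → p h1 FibreFunctor.one σ = 1

/-- [GP points] Universal property of the formal period algebra.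
Proof: `MvPolynomial.aeval (fun s => P.p s.mem s.ω s.σ)` kills every relation of `AlgRel` (in
`AlgRel.mul` the functional `σ` equals `tdual HB s.σ s'.σ` because the elements `mul x y` span
`HB(M ⊗ N)`: `FibreFunctor.bij`), so it factors through the quotient
(`Ideal.Quotient.liftₐ`). -/
def S_points : Prop := ∀ (S : A → Prop) (Λ : Type w) [CommRing Λ] [Algebra K Λ]
  (P : Pt H HB S Λ), ∃ f : PerAlg H HB S →ₐ[K] Λ, ∀ {N : A} (hN : S N) ω σ,
    f (asym H HB hN ω σ) = P.p hN ω σ

/-- The coordinate `H(1) ≅ K`. -/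
def coord : H.obj (𝟙_ A) ≃ₗ[K] K :=
  (LinearEquiv.ofBijective (LinearMap.toSpanSingleton K _ (FibreFunctor.one (H := H)))
    FibreFunctor.one_bij).symm

/-- The evaluation pairing `H(N^∨) × H(N) → K`. -/
def epair (N : A) [HasRightDual N] : H.obj (Nᘁ) →ₗ[K] H.obj N →ₗ[K] K :=
  ((FibreFunctor.mul (H := H) (Nᘁ) N).compr₂ (H.map (ε_ N (Nᘁ))).hom).compr₂
    (coord H).toLinearMap

omit [FibreFunctor HB] in
/-- [GP dualbasis] Dual bases for `H(N)` and `H(N^∨)`.

Proof. Write `H(η)(one) = ∑_i mul (ω i) (a i)` with `a i ∈ H(N^∨)` (unique, as `ω` is a basis and by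
`FibreFunctor.bij`). Apply `H` to the zigzag identity `η ▷ N ≫ α ≫ N ◁ ε = λ ≫ ρ⁻¹`
(`ExactPairing.evaluation_coevaluation`) and evaluate at `mul one x`: with the compatibilities
`mul_nat`, `mul_assoc`, `one_mul` (and the analogous formula for `ρ`, which follows from
`mul_comm` and `braiding_rightUnitor`/`braiding_leftUnitor`) one gets
`∑_i epair(a i, x) ω i = x` for `x ∈ H(N)`; hence `epair(a i, ω k) = δ_{ik}`. The other zigzag
identity (`coevaluation_evaluation`) gives `∑_i epair(y, ω i) a i = y` for `y ∈ H(N^∨)`. So the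
`a i` span `H(N^∨)` and are linearly independent: they form the basis `ω'`. -/
def S_dualbasis : Prop := ∀ (N : A) [HasRightDual N] {I : Type} [Fintype I] [DecidableEq I]
  (ω : Module.Basis I K (H.obj N)), ∃ ω' : Module.Basis I K (H.obj (Nᘁ)),
    (∀ i k, epair H N (ω' i) (ω k) = if i = k then 1 else 0) ∧
    (H.map (η_ N (Nᘁ))).hom FibreFunctor.one =
      ∑ i, FibreFunctor.mul N (Nᘁ) (ω i) (ω' i)

variable [RigidCategory A]

/-- `S` is tensor-closed and closed under duals. -/
structure DClosed (S : A → Prop) : Prop extends TClosed S where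
  dual : ∀ {N : A}, S N → S (Nᘁ)

/-- [GP xmat] The matrix of symbols of `N` is invertible, its inverse is a matrix of symbols of
`N^∨`. Uses `S_dualbasis` for `H` and for `HB`, `S_algrel`.

Proof. Let `ω'` be the dual basis of `ω` and `b'` the dual basis of `b` (`S_dualbasis`), and
`β' j = epair_B(·, b j)`, which is a basis of `HB(N^∨)^∨` (the dual basis of `b'`). Let
`φ ∈ HB(1)^∨` with `φ(one) = 1`.
(1) `X * Y = 1`: `φ ∘ HB(ε) = ∑_j (β' j) ⊠ (b.coord j)` on `HB(N^∨ ⊗ N)` (evaluate on
`mul (b' l) (b m)`), so `∑_j Y j i * X k j = ∑_j asym(N^∨, ω' i, β' j) asym(N, ω k, b.coord j) =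
asym(N^∨ ⊗ N, mul (ω' i) (ω k), φ ∘ HB(ε)) = asym(1, H(ε)(mul (ω' i) (ω k)), φ) =
epair(ω' i, ω k) = δ_{ik}`.
(2) `Y * X = 1`: `∑_i X i j * Y l i = ∑_i asym(N, ω i, b.coord j) asym(N^∨, ω' i, β' l) =
asym(N ⊗ N^∨, H(η)(one), b.coord j ⊠ β' l) = asym(1, one, (b.coord j ⊠ β' l) ∘ HB(η))` and
`(b.coord j ⊠ β' l)(HB(η)(one)) = ∑_m b.coord j (b m) * epair_B(b' m, b l) = δ_{jl}`, so the
functional is `δ_{jl} φ` and the value is `δ_{jl}`. -/
def S_xmat : Prop := ∀ (S : A → Prop) (hS : DClosed S) {N : A} (hN : S N) {I J : Type}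
  [Fintype I] [DecidableEq I] [Fintype J] [DecidableEq J] (ω : Module.Basis I K (H.obj N))
  (b : Module.Basis J ℚ (HB.obj N)),
  ∃ (ω' : Module.Basis I K (H.obj (Nᘁ)))
    (β' : Module.Basis J ℚ (Module.Dual ℚ (HB.obj (Nᘁ)))),
    (Matrix.of fun i j => asym H HB hN (ω i) (b.coord j)) *
      (Matrix.of fun j i => asym H HB (hS.dual hN) (ω' i) (β' j)) = 1 ∧
    (Matrix.of fun j i => asym H HB (hS.dual hN) (ω' i) (β' j)) *
      (Matrix.of fun i j => asym H HB hN (ω i) (b.coord j)) = 1

/-- [GP gens] The formal period algebra of `⟨M⟩` is generated by the symbols of `M` and of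
`M^∨`. Uses `S_xmat`, `S_algrel`, `S_genclosed`.

Proof. Let `R0` be the subalgebra generated by the symbols of `M` and `M^∨`. For `N ∈ ⟨M⟩` say
that `N` is good if all symbols of `N` are in `R0` and, for some finite bases `ω` of `H(N)` and
`b` of `HB(N)`, the matrix `X = (asym N (ω i) (b.coord j))` has an inverse with entries in `R0`
(then this holds for all bases, by change of bases with entries in `K`; and as `X` has a
two-sided inverse `Y` over `R = PerAlg` by `S_xmat`, every one-sided inverse of `X` equals `Y`).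
Induct on `Gen M N`:
base: `S_xmat` for `M`. unit: symbols of `1` are scalars. sum: the symbols of `N ⊞ N'` are sums
of symbols of `N` and `N'`, block diagonal matrix. tensor: `mul (ω i) (ω' i')` and
`b.coord j ⊠ b'.coord j'` are bases (`FibreFunctor.bij`), Kronecker product of matrices.
dual: by `S_xmat` the matrix of symbols of `N^∨` in the bases `ω'`, `β'` is the transpose of the
inverse `Y` of `X`, and its inverse is the transpose of `X`.
sub, `i : N' ↪ N`: `H(i)` is injective and `σ ↦ σ ∘ HB(i)` is surjective; `asym N' ω' (σ ∘ HB(i)) =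
asym N (H(i) ω') σ` is in `R0`. Choose a basis of `H(N)` extending (the image of) a basis of
`H(N')` and a basis of `HB(N)` extending a basis of `HB(N')`; then the coordinate functionals of
the second part vanish on `HB(N')`, so `X_N = [[X_{N'}, 0], [*, *]]` and `X_N Y_N = 1` gives
`X_{N'} Y_{11} = 1` with `Y_{11}` over `R0`.
quot, `p : N ↠ N''`: similarly `asym N'' (H(p) ω) σ'' = asym N ω (σ'' ∘ HB(p)) ∈ R0`. Choose bases of
`H(N)`, `HB(N)` consisting of bases of the kernels and of lifts of bases of `H(N'')`,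
`HB(N'')`: `X_N = [[*, 0], [*, X_{N''}]]` (kernel part first) and `Y_N X_N = 1` gives
`Y_{22} X_{N''} = 1`. -/
def S_gens : Prop := ∀ (M : A), Algebra.adjoin K
  ({r : PerAlg H HB (Gen M) | ∃ ω σ, r = asym H HB (S := Gen M) (N := M) Gen.base ω σ} ∪
    {r | ∃ ω σ, r = asym H HB (S := Gen M) (N := Mᘁ) (Gen.dual Gen.base) ω σ}) = ⊤

/-- [GP fintype] The formal period algebra of `⟨M⟩` is a finitely generated algebra. Uses
`S_gens`. Proof: by bilinearity the symbols of `M` are `K`-linear combinations of the finitely many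
`asym M (ω i) (b.coord j)`, and the same for `M^∨`. -/
def S_fintype : Prop := ∀ (M : A), Algebra.FiniteType K (PerAlg H HB (Gen M))

/-- [GP pointbij] A `K`-valued point identifies `H(N)` with `Hom(HB(N)^∨, K)`. Uses `S_xmat`.
Proof: apply `x` to the matrices of `S_xmat`: the matrix `x(asym N (ω i) (b.coord j))` is
invertible over `K`. (`φ` is determined by its values on the basis `b.coord j` of the dual; the
equations for the coordinates of `ω` form a linear system with this invertible matrix.) -/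
def S_pointbij [CharZero K] : Prop := ∀ (S : A → Prop), DClosed S →
  ∀ (x : PerAlg H HB S →ₐ[K] K) {N : A} (hN : S N) (φ : Module.Dual ℚ (HB.obj N) →ₗ[ℚ] K),
    ∃! ω : H.obj N, ∀ σ, x (asym H HB hN ω σ) = φ σ

/-- [GP theta] Logarithmic derivative. Let `x` be a `K`-point and `D` a derivation at `x`. There
are endomorphisms `θ_N` of `H(N)`, natural, with the Leibniz rule for tensor products, with
`D(asym N ω σ) = x(asym N (θ_N ω) σ)`. Uses `S_pointbij`, `S_algrel`.

Proof: `σ ↦ D(asym N ω σ)` is a `ℚ`-linear map `HB(N)^∨ → K`, so `S_pointbij` gives a unique `θ_N ω`;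
linearity and naturality of `θ` follow from uniqueness. Leibniz: `D(asym (M ⊗ N) (mul ω η) (σ ⊠ τ)) =
D(asym M ω σ · asym N η τ) = x(asym M ω σ) D(asym N η τ) + x(asym N η τ) D(asym M ω σ) =
x(asym (M ⊗ N) (mul (θ ω) η + mul ω (θ η)) (σ ⊠ τ))` and the `σ ⊠ τ` span the dual of
`HB(M ⊗ N)`; so uniqueness applies. `θ_1 = 0` because `D(asym 1 one φ) = D(1) = 0`. -/
def S_theta [CharZero K] : Prop := ∀ (S : A → Prop), DClosed S →
  ∀ (x : PerAlg H HB S →ₐ[K] K) (D : PerAlg H HB S →ₗ[K] K),
  (∀ a b, D (a * b) = x a * D b + x b * D a) →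
  ∃ θ : ∀ {N : A}, S N → (H.obj N →ₗ[K] H.obj N),
    (∀ {N : A} (hN : S N) ω σ, D (asym H HB hN ω σ) = x (asym H HB hN (θ hN ω) σ)) ∧
    (∀ {N N' : A} (hN : S N) (hN' : S N') (f : N ⟶ N') ω,
      (H.map f).hom (θ hN ω) = θ hN' ((H.map f).hom ω)) ∧
    (∀ {M N : A} (hM : S M) (hN : S N) (hMN : S (M ⊗ N)) ω η,
      θ hMN (FibreFunctor.mul M N ω η) =
        FibreFunctor.mul M N (θ hM ω) η + FibreFunctor.mul M N ω (θ hN η)) ∧
    (∀ (h1 : S (𝟙_ A)), θ h1 FibreFunctor.one = 0)

/-- [GP phi] The formal one parameter subgroup with tangent vector `D` through `x`: an algebra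
homomorphism `Φ` to `K⟦t⟧` with `Φ(a) = x(a) + t D(a) + ...`. Uses `S_theta`, `S_points`,
`S_algrel`, `S_single`, `S_fpring`.

Proof: `S_points` for `Λ = K⟦t⟧` and the pairings `p N ω σ = ∑_n (t^n / n!) x(asym N (θ^n ω) σ)`
(`PowerSeries.mk`). Bilinearity and naturality are clear (`θ^n` is natural). Multiplicativity:
by the Leibniz rule `θ^n (mul ω η) = ∑_a C(n,a) mul (θ^a ω) (θ^{n-a} η)`, so the coefficient of
`t^n` of `p (mul ω η) (σ ⊠ τ)` is `∑_a (1/a!) (1/(n-a)!) x(asym M (θ^a ω) σ) x(asym N (θ^{n-a} η) τ)`.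
`p 1 one φ = 1` because `θ one = 0` and `x(1) = 1`. The coefficient of `t^0` is an algebra
homomorphism which agrees with `x` on the symbols, which generate (surjectivity of
`MvPolynomial → PerAlg`); the coefficient of `t^1` is linear and satisfies the product rule at
`x`, and agrees with `D` on the symbols, so it is `D` (induct over
`MvPolynomial.induction_on`). -/
def S_phi [CharZero K] : Prop := ∀ (S : A → Prop), DClosed S →
  ∀ (x : PerAlg H HB S →ₐ[K] K) (D : PerAlg H HB S →ₗ[K] K),
  (∀ a b, D (a * b) = x a * D b + x b * D a) →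
  ∃ Φ : PerAlg H HB S →ₐ[K] PowerSeries K,
    ∀ a, PowerSeries.coeff 0 (Φ a) = x a ∧ PowerSeries.coeff 1 (Φ a) = D a

/-- [GP base] Comparison of `X(M)` and `G(M)`: for a `K`-point `x` of `PerAlg H HB S` there is an
injective ring homomorphism `β : PerAlg HB HB S → PerAlg H HB S` whose image spans
`PerAlg H HB S` over `K`. Uses `S_pointbij`, `S_points`, `S_algrel`, `S_single`, `S_fpring`.

Proof. For `b ∈ HB(N)` let `ι(b) ∈ H(N)` be the unique element with `x(asym N ι(b) σ) = σ(b)` for all
`σ` (`S_pointbij`). `ι` is `ℚ`-linear, natural, multiplicative (`ι(mul b b') = mul ι(b) ι(b')`) and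
`ι(one) = one`; if `b j` is a `ℚ`-basis of `HB(N)` then the `ι(b j)` form a `K`-basis of `H(N)` (the
matrix `x(asym N (ι (b i)) (b.coord j))` is the identity; by `S_pointbij`). `β` is given by
`S_points` for `HB` (`K := ℚ`): `asym_B N b σ ↦ asym N (ι b) σ`. Conversely
`α : PerAlg H HB S → K ⊗_ℚ PerAlg HB HB S` is given by `S_points` with
`asym N (∑ k_j ι(b j)) σ ↦ ∑ k_j ⊗ asym_B N (b j) σ` (i.e. the `K`-linear map
`H(N) → K ⊗_ℚ PerAlg HB HB S` extending `ι(b) ↦ 1 ⊗ asym_B N b σ`), and `α(β(r)) = 1 ⊗ r`, which is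
injective (`ℚ → K` is faithfully flat), so `β` is injective. Every symbol
`asym N ω σ = ∑ k_j β(asym_B N (b j) σ)` is in the `K`-span of the image of `β`, and every element
of `PerAlg` is a symbol (`S_single`, `S_fpring`; or the span is a subalgebra). -/
def S_base [CharZero K] : Prop := ∀ (S : A → Prop), DClosed S →
  ∀ (_ : PerAlg H HB S →ₐ[K] K), ∃ β : PerAlg HB HB S →+* PerAlg H HB S,
    Function.Injective β ∧ ∀ r : PerAlg H HB S, r ∈ Submodule.span K (Set.range β)

end Points

/-! ### commutative algebra -/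

/-- [GP nullst] Maximal ideals of finitely generated algebras over an algebraically closed field
are kernels of points.
Proof: `R ⧸ m` is a field which is a finitely generated `K`-algebra, so finite over `K`
(`finite_of_finite_type_of_isJacobsonRing` or Zariski's lemma), so `K → R ⧸ m` is bijective
(`IsAlgClosed.algebraMap_bijective_of_isIntegral`); compose with the inverse. -/
def S_nullst : Prop := ∀ (K : Type) [Field K] [IsAlgClosed K] (R : Type w) [CommRing R]
  [Algebra K R] [Algebra.FiniteType K R] (m : Ideal R) [m.IsMaximal],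
  ∃ x : R →ₐ[K] K, RingHom.ker x = m

/-- [GP lead] Leading forms. Let `x` be a `K`-point of the Noetherian algebra `R`,
`m = ker x`. There are `e_1, ..., e_d ∈ m` such that every `a ∈ m^r` is congruent modulo
`m^{r+1}` to a form of degree `r` in the `e_i`, and for every `c ∈ K^d` there is a derivation `D`
at `x` with `D(e_i) = c_i`.

Proof: `R = K ⊕ m` as `K`-vector spaces and `m / m^2` is a finite-dimensional `K`-vector space
(`m` is finitely generated and `R/m = K`). Let `e_i ∈ m` lift a basis. `m = ∑ K e_i + m^2`; by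
induction `m^r = ∑ K (monomials of degree r in the e_i) + m^{r+1}`: an element of
`m^{r+1} = m · m^r` is a sum of products `u v`, `u ∈ m`, `v ∈ m^r`. `D(a) = λ(a - x(a))` where
`λ : m → m/m^2 → K` is the linear functional with `λ(e_i) = c_i`:
`ab - x(a)x(b) = x(a)(b - x(b)) + x(b)(a - x(a)) + (a - x(a))(b - x(b))`. -/
def S_lead : Prop := ∀ (K : Type) [Field K] (R : Type w) [CommRing R] [Algebra K R]
  [IsNoetherianRing R] (x : R →ₐ[K] K), ∃ (d : ℕ) (e : Fin d → R),
    (∀ i, x (e i) = 0) ∧
    (∀ (r : ℕ), ∀ a ∈ (RingHom.ker x) ^ r, ∃ P : MvPolynomial (Fin d) K, P.IsHomogeneous r ∧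
      a - MvPolynomial.aeval e P ∈ (RingHom.ker x) ^ (r + 1)) ∧
    ∀ c : Fin d → K, ∃ D : R →ₗ[K] K, (∀ a b, D (a * b) = x a * D b + x b * D a) ∧
      ∀ i, D (e i) = c i

/-- [GP leadphi] The leading coefficient of `Φ(a)`. Let `Φ : R → K⟦t⟧` have constant term `x`,
`a ∈ m^r`, `a ≡ P(e) mod m^{r+1}`, `P` a form of degree `r`. Then `Φ(a) = P(c) t^r + ...`, where `c_i` is the
coefficient of `t` in `Φ(e_i)`.

Proof: `Φ(m) ⊆ (t)`, so `Φ(m^n) ⊆ (t^n)`; `Φ(e_i) = t (c_i + ...)`, so
`Φ(P(e)) = P(Φ(e)) = t^r P(c + ...)` (`MvPolynomial.IsHomogeneous`, check on monomials). -/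
def S_leadphi : Prop := ∀ (K : Type) [Field K] (R : Type w) [CommRing R] [Algebra K R]
  (x : R →ₐ[K] K) (Φ : R →ₐ[K] PowerSeries K), (∀ a, PowerSeries.coeff 0 (Φ a) = x a) →
  ∀ (d : ℕ) (e : Fin d → R), (∀ i, x (e i) = 0) → ∀ (r : ℕ), ∀ a ∈ (RingHom.ker x) ^ r,
  ∀ P : MvPolynomial (Fin d) K, P.IsHomogeneous r →
    a - MvPolynomial.aeval e P ∈ (RingHom.ker x) ^ (r + 1) →
    PowerSeries.coeff r (Φ a) = MvPolynomial.eval (fun i => PowerSeries.coeff 1 (Φ (e i))) P ∧
    ∀ n < r, PowerSeries.coeff n (Φ a) = 0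

/-- [GP cartier] Cartier's theorem (local form): if every derivation at `x` integrates to a
homomorphism to `K⟦t⟧` then the local ring of `R` at `x` is a domain. Uses `S_lead`,
`S_leadphi`.

Proof. Let `a b = 0`, `m = ker x`. Suppose first `a ∈ m^r ∖ m^{r+1}` and `b ∈ m^s ∖ m^{s+1}` for
some `r`, `s`. By `S_lead`, `a ≡ P(e)`, `b ≡ Q(e)` with forms `P`, `Q` of degrees `r`, `s`, and
`P ≠ 0`, `Q ≠ 0` (else `a ∈ m^{r+1}`). `K` is infinite, so there is `c ∈ K^d` with
`P(c) Q(c) ≠ 0` (`MvPolynomial.funext` for `P * Q`). Choose `D` with `D(e_i) = c_i` and `Φ`. By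
`S_leadphi`, `Φ(a) = P(c) t^r + ...`, `Φ(b) = Q(c) t^s + ...`, so `Φ(a) Φ(b) ≠ 0` in the domain
`K⟦t⟧`, contradiction. So, say, `a ∈ ⨅_n m^n`. By Krull's intersection theorem
(`Ideal.mem_iInf_smul_pow_eq_bot_iff` for the module `R`, or `Ideal.iInf_pow_eq...`) there is
`r' ∈ m` with `r' a = a`, so `s = 1 - r'` satisfies `s a = 0` and `x s = 1`. -/
def S_cartier : Prop := ∀ (K : Type) [Field K] [CharZero K] (R : Type w) [CommRing R]
  [Algebra K R] [IsNoetherianRing R] (x : R →ₐ[K] K),
  (∀ D : R →ₗ[K] K, (∀ a b, D (a * b) = x a * D b + x b * D a) →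
    ∃ Φ : R →ₐ[K] PowerSeries K, ∀ a, PowerSeries.coeff 0 (Φ a) = x a ∧
      PowerSeries.coeff 1 (Φ a) = D a) →
  ∀ a b : R, a * b = 0 → (∃ s, x s ≠ 0 ∧ s * a = 0) ∨ (∃ s, x s ≠ 0 ∧ s * b = 0)

/-- [GP conn] A Noetherian ring with connected spectrum all of whose local rings at maximal
ideals are domains is a domain.

Proof. Let `a b = 0`, `I = Ann(a)`, `J = Ann(I)`; `I J = 0`. Claim `I + J = R`: let `m` be
a maximal ideal with `I ⊆ m`, i.e. `a` is not killed by any `s ∉ m`. For every `i ∈ I`, `i a = 0`,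
so by hypothesis `i` is killed by some `s_i ∉ m`; `I` is finitely generated, so some `s ∉ m` kills
`I`, i.e. `s ∈ J`, `J ⊄ m`. So `1 = e + f`, `e ∈ I`, `f ∈ J`, `e f = 0`, `e^2 = e`. As the spectrum is
connected, `e = 0` or `e = 1` (`PrimeSpectrum.isIdempotentElemEquivClopens`,
`PrimeSpectrum.isClopen_iff...`, `isPreconnected`). If `e = 1` then `a = 0`. If `e = 0` then
`1 ∈ J`, `I = 0`, and `b ∈ I` is `0`. Nontriviality: `ConnectedSpace` includes nonempty. -/
def S_conn : Prop := ∀ (R : Type w) [CommRing R] [IsNoetherianRing R],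
  (∀ (m : Ideal R), m.IsMaximal → ∀ a b : R, a * b = 0 →
    (∃ s, s ∉ m ∧ s * a = 0) ∨ (∃ s, s ∉ m ∧ s * b = 0)) →
  ConnectedSpace (PrimeSpectrum R) → IsDomain R

/-- [GP intdim] Krull dimension is invariant under injective integral ring homomorphisms.
Proof: `≤`: lying over and going up (`Ideal.exists_ideal_over_prime_of_isIntegral`): every chain of
primes of `B` lifts to `C`. `≥`: incomparability (`Ideal.comap_lt_comap_of_integral_mem_sdiff`,
`Ideal.IsIntegralClosure.comap_lt_comap`): a chain of primes of `C` contracts to a strict chain.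
Use `Order.krullDim` lemmas for strictly monotone maps, and for lifting chains
`LTSeries` induction. -/
def S_intdim : Prop := ∀ (B : Type u) (C : Type w) [CommRing B] [CommRing C] (f : B →+* C),
  Function.Injective f → f.IsIntegral → ringKrullDim B = ringKrullDim C

/-- [GP fgdim] For a finitely generated domain over a field, Krull dimension is transcendence
degree. Uses `S_intdim`.
Proof: Noether normalisation (`exists_integral_inj_algHom_of_fg` or similar): an injective
integral `K[y_1, ..., y_d] → R`; `S_intdim` and `MvPolynomial.ringKrullDim_of_isNoetherianRing`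
give `ringKrullDim R = d`; and `trdeg K R = d` (`y` is a transcendence basis). -/
def S_fgdim : Prop := ∀ (K : Type) [Field K] (R : Type w) [CommRing R] [IsDomain R]
  [Algebra K R] [Algebra.FiniteType K R],
  ringKrullDim R = ((Cardinal.toENat (Algebra.trdeg K R) : ℕ∞) : WithBot ℕ∞) ∧
    ringKrullDim R ≠ ⊤

/-- [GP surjdim] A prime quotient of the same finite dimension is the whole domain.
Proof: if `I ≠ ⊥`, every chain of primes of `R ⧸ I` gives a chain of primes of `R` containing
`I`, extended by `⊥`: `ringKrullDim (R ⧸ I) + 1 ≤ ringKrullDim R`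
(`ringKrullDim_quotient_succ_le_of_nonZeroDivisor`-type lemma exists:
`ringKrullDim_quotient_succ_le_of_nonZeroDivisor` for a nonzero element of `I`). -/
def S_surjdim : Prop := ∀ (R : Type w) [CommRing R] [IsDomain R] (I : Ideal R),
  ringKrullDim R ≠ ⊤ → I ≠ ⊤ → ringKrullDim (R ⧸ I) = ringKrullDim R → I = ⊥

/-- [GP trdeg] Let `P ⊆ ℂ` and let `C` be a `QBar`-subalgebra of `ℂ` which contains `P` and is
algebraic over `ℚ(P)`. Then `trdeg_QBar C = trdeg_ℚ ℚ(P)`.

Proof: let `B ⊆ P` be a transcendence basis of `ℚ(P)` over `ℚ` consisting of elements of `P`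
(`exists_isTranscendenceBasis_subset` or similar). `B` is algebraically independent over `QBar`
(`QBar / ℚ` is algebraic: `AlgebraicIndependent` extends along algebraic extensions:
`trdeg_add_eq`, or `AlgebraicIndependent.extendScalars`), it is contained in `C`, and every element
of `C` is algebraic over `ℚ(P)`, so over `ℚ(B)`, so over `QBar(B)`. So `B` is a transcendence basis
of `C` over `QBar`. Alternatively use `Algebra.trdeg_add_eq` in the towers
`ℚ ⊆ ℚ(P) ⊆ F` and `ℚ ⊆ QBar ⊆ F`, `F` the fraction field of `C`. -/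
def S_trdeg : Prop := ∀ (P : Set ℂ) (C : Subalgebra QBar ℂ), P ⊆ C →
  (∀ z ∈ C, IsAlgebraic (IntermediateField.adjoin ℚ P) z) →
  Algebra.trdeg QBar C = Algebra.trdeg ℚ (IntermediateField.adjoin ℚ P)

/-! ### the period conjecture -/

section Q1

variable {A : Type u} [Category.{v} A] [Abelian A] [MonoidalCategory A] [SymmetricCategory A]
  [RigidCategory A] {HdR : A ⥤ ModuleCat.{0} QBar} {HB : A ⥤ ModuleCat.{0} ℚ}
  [FibreFunctor HdR] [FibreFunctor HB] (c : Comparison HdR HB)

/-- [GP perfield] The values of `evAlg` on the formal period algebra of `⟨M⟩` contain the periods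
of `M` and are algebraic over the field generated by the periods of `M`. Uses `S_gens`,
`S_xmat`.

Proof. `c.per M ω σ = evAlg (asym M ω σ)`. By `S_gens` and since the algebraic elements form a
subring containing `QBar` (elements of `QBar` are algebraic over `ℚ`), it suffices to treat
the periods of `M^∨`. Apply `evAlg` to `X * Y = 1`, `Y * X = 1` of `S_xmat` for `N = M`: the
entries of `Y`, which are the periods `per (M^∨) (ω' i) (β' j)`, are the entries of the inverse of
the matrix `(per M (ω i) (b.coord j))` with entries in the field `ℚ(Per M)` (`Matrix.inv`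
commutes with field embeddings), so they are in `ℚ(Per M)`; every period of `M^∨` is a
`QBar`-linear combination of these. -/
def S_perfield : Prop := ∀ M : A, c.Per M ⊆ (c.evAlg (Gen M)).range ∧
  ∀ z ∈ (c.evAlg (Gen M)).range, IsAlgebraic (IntermediateField.adjoin ℚ (c.Per M)) z

/-- [GP basedim] `dim X(M) = dim G(M)`. Uses `S_base`, `S_fintype`, `S_nullst`, `S_intdim`,
`S_genclosed`.

Proof: `R = PerAlg HdR HB (Gen M)` is a finitely generated `QBar`-algebra, nontrivial because of
`evAlg : R → ℂ`; so it has a maximal ideal and a `QBar`-point (`S_nullst`). `S_base` gives an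
injective `β : B → R`; it is integral: the `QBar`-span of the image of `β` is `R`, elements of
`QBar` are integral over `ℚ`, hence over `B`. `S_intdim`. -/
def S_basedim : Prop := ∀ (_ : Comparison HdR HB) (M : A),
  ringKrullDim (PerAlg HB HB (Gen M)) = ringKrullDim (PerAlg HdR HB (Gen M))

/-- [GP domain] If `X(M)` is connected then its ring of functions is a domain. Uses `S_conn`,
`S_cartier`, `S_phi`, `S_nullst`, `S_fintype`, `S_genclosed`.

Proof: `R` is a finitely generated `QBar`-algebra, so Noetherian; every maximal ideal is the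
kernel of a point `x` (`S_nullst`), `S_phi` and `S_cartier` show that the hypothesis of `S_conn`
holds (`s ∉ m ↔ x s ≠ 0`). -/
def S_domain : Prop := ∀ (_ : Comparison HdR HB) (M : A),
  ConnectedSpace (PrimeSpectrum (PerAlg HdR HB (Gen M))) → IsDomain (PerAlg HdR HB (Gen M))

/-- [GP q1] The equivalence (i) ⟺ (iii): Q1 for `M` is equivalent to the injectivity of the
evaluation on the formal period algebra of `⟨M⟩`. Uses `S_domain`, `S_basedim`, `S_perfield`,
`S_trdeg`, `S_fgdim`, `S_surjdim`, `S_fintype`.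

Proof. Let `R = PerAlg HdR HB (Gen M)`, `B = PerAlg HB HB (Gen M)`, `C = (c.evAlg (Gen M)).range`, a
finitely generated `QBar`-domain. By `S_fgdim` for `C` and `S_trdeg` (with `S_perfield`),
`ringKrullDim C = toENat (trdeg ℚ ℚ(Per M)) =: d`, finite.
(⇐) If `evAlg` is injective, `R ≅ C` is a domain, so `Spec R` is connected (irreducible), and
`ringKrullDim B = ringKrullDim R = d` (`S_basedim`).
(⇒) `Spec R` is connected, so `R` is a domain (`S_domain`), `ringKrullDim R = ringKrullDim B = d =
ringKrullDim C`, and `C ≅ R ⧸ ker evAlg`, so `ker evAlg = ⊥` by `S_surjdim`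
(`ringKrullDim R ≠ ⊤` by `S_fgdim` for `R`). -/
def S_q1 : Prop := ∀ M : A, PeriodConjecture c M ↔ Function.Injective (c.evAlg (Gen M))

end Q1

end

end Pool.Agent.Lib.MP_ae0f86_nt
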