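import Pool.Agent.Lib.MP_ae0f86_nt.Density

/-!
# MP_ae0f86_nt : definitions for the theorem on one sequence of cubics
-/

open CategoryTheory CategoryTheory.Limits Opposite MonoidalCategory

universe v u

namespace Pool.Agent.Lib.MP_ae0f86_nt

noncomputable section

attribute [local instance] CategoryTheory.Abelian.hasFiniteBiproducts

/-- Finitely many polynomials `q_1, ..., q_r` in `n` variables with integer coefficients. -/
structure QSystem where
  /-- the number of variables -/
  n : ℕ
  /-- the number of polynomials -/
  r : ℕ
  /-- the polynomials -/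
  q : Fin r → MvPolynomial (Fin n) ℤ

namespace QSystem

/-- The zero locus `Z = {q = 0}` over the field of algebraic numbers. -/
def zeros (X : QSystem) : Set (Fin X.n → QBar) :=
  zl (fun j => MvPolynomial.map (Int.castRingHom QBar) (X.q j))

theorem zeros_alg (X : QSystem) : IsAlg X.zeros := zl_alg _

/-- The polynomials have degree at most `2` and all coefficients in `{0, 1, -1}`, and the zero
locus is nonempty and smooth of some codimension `s ≥ 1` in affine space. -/
def Admissible (X : QSystem) : Prop :=
  (∀ j, SignQuadric (X.q j)) ∧ X.zeros.Nonempty ∧ ∃ s : ℕ, 1 ≤ s ∧ IsSmooth s X.zeros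

/-- The system of the product: the polynomials `q_j(x)` and `q'_j(y)` in the variables
`(x, y)`. -/
def prod (X Y : QSystem) : QSystem where
  n := X.n + Y.n
  r := X.r + Y.r
  q := Fin.addCases (fun a => MvPolynomial.rename (Fin.castAdd Y.n) (X.q a))
    (fun b => MvPolynomial.rename (Fin.natAdd X.n) (Y.q b))

/-- The partial products `X_0 × ... × X_k`. -/
def partialProd (X : ℕ → QSystem) : ℕ → QSystem
  | 0 => X 0
  | k + 1 => (partialProd X k).prod (X (k + 1))

/-- The power `X^(n+1)`. -/
def power (X : QSystem) : ℕ → QSystem
  | 0 => X
  | n + 1 => (power X n).prod X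

end QSystem

section

variable {A : Type u} [Category.{v} A] [Abelian A] [MonoidalCategory A]
  [SymmetricCategory A]

/-- The total Betti number of the zero locus of the system `X`. -/
def CohTheory.betti (T : CohTheory QBar A) (HB : A ⥤ ModuleCat.{0} ℚ) (X : QSystem) : ℕ :=
  Module.finrank ℚ (HB.obj (T.total (AffPair.abs X.zeros_alg)))

/-- The positive degree cohomology of the affine cubic `V(X) = {(x, y) | ∑ y_j q_j(x) = 1}` of
the system `X`. -/
def CohTheory.cubicCoh (T : CohTheory QBar A) (X : QSystem) : A :=
  T.positive (cubic X.q)

end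

end

end Pool.Agent.Lib.MP_ae0f86_nt
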