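import Pool.Agent.Lib.MP_ae0f86_nt.Pairs

/-!
# MP_ae0f86_nt : motivic cohomology theories on pairs of affine varieties
-/

open CategoryTheory CategoryTheory.Limits MvPolynomial Opposite MonoidalCategory

universe v u

namespace Pool.Agent.Lib.MP_ae0f86_nt

noncomputable section

attribute [local instance] CategoryTheory.Abelian.hasFiniteBiproducts

section

variable {A : Type u} [Category.{v} A]

/-- `L^{⊗ n}`. -/
def tpow [MonoidalCategory A] (L : A) : ℕ → A
  | 0 => 𝟙_ A
  | n + 1 => tpow L n ⊗ L

/-- `N` is a subquotient of `M`: a quotient of a subobject of `M`. -/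
def IsSubquot (N M : A) : Prop :=
  ∃ (N' : A) (i : N' ⟶ M) (p : N' ⟶ N), Mono i ∧ Epi p

/-- `N` is a subquotient of `M^n` for some `n`. -/
def Lin [Abelian A] (M N : A) : Prop := ∃ n : ℕ, IsSubquot N (⨁ fun _ : Fin n => M)

end

section

variable {k : Type} [Field k] {A : Type u} [Category.{v} A]

/-- The value `F(P)` of a contravariant functor on a pair. -/
abbrev Obj (F : (AffPair k)ᵒᵖ ⥤ A) (P : AffPair k) : A := F.obj (op P)

/-- The map `F(Q) ⟶ F(P)` induced by a morphism of pairs `P ⟶ Q`. -/
abbrev Map (F : (AffPair k)ᵒᵖ ⥤ A) {P Q : AffPair k} (f : P ⟶ Q) : Obj F Q ⟶ Obj F P := F.map f.op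

/-- The sequence `X ⟶ Y ⟶ Z` is exact. -/
abbrev IsExact [Abelian A] {X Y Z : A} (f : X ⟶ Y) (g : Y ⟶ Z) : Prop :=
  ∃ w, (ShortComplex.mk f g w).Exact

end

/-- Cohomology functors `h^i(X, Y)` for pairs of affine algebraic sets over `k` with values in the
abelian category `A`, with the long exact sequences of triples. -/
structure CohFunctor (k : Type) [Field k] (A : Type u) [Category.{v} A] [Abelian A] where
  /-- the cohomology functors `h^i(X, Y)`, contravariant in the pair `(X, Y)` -/
  h : ℤ → (AffPair k)ᵒᵖ ⥤ A
  /-- the boundary maps `h^i(Y, Z) ⟶ h^{i+1}(X, Y)` of triples `Z ⊆ Y ⊆ X` -/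
  δ : ∀ (i : ℤ) (T : AffTriple k), Obj (h i) T.YZ ⟶ Obj (h (i + 1)) T.XY
  δ_nat : ∀ (i : ℤ) {T T' : AffTriple k} (f : T.Hom T'),
    Map (h i) f.YZ ≫ δ i T = δ i T' ≫ Map (h (i + 1)) f.XY
  /-- the long exact sequence of a triple -/
  exact_XZ : ∀ (i : ℤ) (T : AffTriple k), IsExact (Map (h i) T.quot) (Map (h i) T.incl)
  exact_YZ : ∀ (i : ℤ) (T : AffTriple k), IsExact (Map (h i) T.incl) (δ i T)
  exact_XY : ∀ (i : ℤ) (T : AffTriple k), IsExact (δ i T) (Map (h (i + 1)) T.quot)

/-- Cohomology functors with the elementary geometric properties: bounded degrees, homotopy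
invariance, excision, Künneth formula for `(G_m, 1)`. -/
structure CohGeometric (k : Type) [Field k] (A : Type u) [Category.{v} A] [Abelian A]
    [MonoidalCategory A] extends CohFunctor k A where
  /-- cohomology is concentrated in degrees `0, ..., 2 n` for pairs in affine `n`-space -/
  bounded : ∀ (i : ℤ) (P : AffPair k), (i < 0 ∨ 2 * (Nat.card P.ι : ℤ) < i) →
    IsZero (Obj (h i) P)
  /-- homotopy invariance: `h^i(X, Y) ≅ h^i(X × A^κ, Y × A^κ)` -/
  homotopy : ∀ (i : ℤ) (P : AffPair k) (κ : Type) [Finite κ], IsIso (Map (h i) (P.proj κ))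
  /-- excision for closed subsets: `h^i(S ∪ T, T) ≅ h^i(S, S ∩ T)` -/
  excision : ∀ (i : ℤ) {ι : Type} [Finite ι] {S T : Set (ι → k)} (hS : IsAlg S) (hT : IsAlg T),
    IsIso (Map (h i) (AffPair.exc hS hT))
  /-- Künneth formula for the product with `(G_m, 1)`; here `h^1(G_m, 1)` is the Lefschetz
  object -/
  kunneth : ∀ (i : ℤ) (P : AffPair k), Nonempty (Obj (h (i + 1)) P.gm ≅
    Obj (h i) P ⊗ Obj (h 1) AffPair.gmOne)

/-- Cohomology functors with a Tate object and Thom isomorphisms for smooth divisors. -/
structure CohThom (k : Type) [Field k] (A : Type u) [Category.{v} A] [Abelian A]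
    [MonoidalCategory A] extends CohGeometric k A where
  /-- the Tate object, an inverse of the Lefschetz object -/
  tate : A
  tateIso : Obj (h 1) AffPair.gmOne ⊗ tate ≅ 𝟙_ A
  /-- Thom isomorphism for a smooth divisor `D = {t = 0}` in a smooth `W`:
  `h^{i+2}(W, W ∖ D) ≅ h^i(D)(-1)` -/
  thom : ∀ (i : ℤ) (P : DivPair k), Obj (h (i + 2)) P.U ≅ Obj (h i) P.D ⊗ Obj (h 1) AffPair.gmOne
  thom_nat : ∀ (i : ℤ) {P Q : DivPair k} (f : P.Hom Q),
    Map (h (i + 2)) f.U ≫ (thom i P).hom = (thom i Q).hom ≫ (Map (h i) f.D ▷ _)

/-- A motivic cohomology theory for pairs of affine algebraic sets over `k`, with values in an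
abelian tensor category `A`.

For `k` the field of algebraic numbers and `A` the category of Nori motives over `k`, all fields
are known (but not formalised here). Sources, HMS being A. Huber, S. Müller-Stach, Periods and
Nori Motives, 2017:

* `h`, `δ`: the construction of the category of Nori motives as the diagram category of the
  diagram of pairs (HMS 7.1 and 9.1);
* `δ_nat`, `exact_XZ`, `exact_YZ`, `exact_XY`, `bounded`, `homotopy`, `excision`: the Betti
  realisation is exact and faithful, hence reflects equalities of morphisms, exactness, zero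
  objects and isomorphisms, and the corresponding statements for the singular cohomology of
  complex algebraic sets (which are triangulable) are classical;
* `kunneth`: the construction of the tensor product (HMS 9.3);
* `tate`: the Lefschetz object is inverted by definition (HMS 9.1), the category is rigid
  (HMS 9.3);
* `thom`, `thom_nat`, `purity`: the Gysin isomorphisms of Voevodsky's category of geometric
  motives (Voevodsky; Déglise, Around the Gysin triangle) and its realisation in Nori motives
  (Nori; Harrer, Comparison of the categories of motives defined by Voevodsky and Nori;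
  Choudhury and Gallauer, An isomorphism of motivic Galois groups);
* `gen`: every object is a subquotient of a sum of twists of `h^i` of very good pairs (HMS 7.1
  and 9.2), which can be replaced by smooth affine varieties with a divisor with simple normal
  crossings by resolution of singularities and Jouanolou's trick. -/
structure CohTheory (k : Type) [Field k] (A : Type u) [Category.{v} A] [Abelian A]
    [MonoidalCategory A] extends CohThom k A where
  /-- purity for a smooth closed subvariety `Z = {g = 0}` of codimension `c` in affine space: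
  `h^{i+2c}(A^n, A^n ∖ Z) ≅ h^i(Z)(-c)` -/
  purity : ∀ (i : ℤ) {ι κ : Type} [Finite ι] [Fintype κ] (g : κ → MvPolynomial ι k) (c : ℕ),
    IsSmooth c (zl g) → Nonempty (Obj (h (i + 2 * c)) (hypPair g) ≅
      Obj (h i) (AffPair.abs (zl_alg g)) ⊗ tpow (Obj (h 1) AffPair.gmOne) c)
  /-- every object is a subquotient of a finite direct sum of Tate twists of objects `h^i(X, Y)`
  with `X` a smooth affine variety and `Y ⊆ X` a divisor with simple normal crossings -/
  gen : ∀ N : A, ∃ (r : ℕ) (P : Fin r → SNC k) (i : Fin r → ℤ) (m : Fin r → ℕ),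
    IsSubquot N (⨁ fun a => Obj (h (i a)) (P a).pair ⊗ tpow tate (m a))

namespace CohTheory

variable {k : Type} [Field k] {A : Type u} [Category.{v} A] [Abelian A] [MonoidalCategory A]
  (T : CohTheory k A)

/-- The Lefschetz object `L = h^1(G_m, 1) = 1(-1)`. -/
abbrev L : A := (T.h 1).obj (op AffPair.gmOne)

/-- The total cohomology `h^*(X, Y) = ⨁_i h^i(X, Y)`. -/
def total (P : AffPair k) : A :=
  ⨁ fun i : Fin (2 * Nat.card P.ι + 1) => (T.h (i : ℤ)).obj (op P)

end CohTheory

end

end Pool.Agent.Lib.MP_ae0f86_nt
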